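import Pool.Agent.MP_f0209c_nt.Pp.Mom

/-! The coefficients of `ζ(s + z') / ζ(s + z)` and Euler products. -/

namespace Pool.Agent.MP_f0209c_nt.Pp
open Complex Filter Topology Finset ArithmeticFunction
open scoped ArithmeticFunction.Moebius ArithmeticFunction.zeta

/-- `n ^ (-z)` -/
noncomputable def pw (z : ℂ) : ArithmeticFunction ℂ :=
  ⟨fun n => if n = 0 then 0 else exp (-z * Real.log n), if_pos rfl⟩

lemma pw_apply (z : ℂ) {n : ℕ} (hn : n ≠ 0) : pw z n = exp (-z * Real.log n) := if_neg hn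

lemma pw_one (z : ℂ) : pw z 1 = 1 := by simp [pw_apply]

lemma pw_mul (z : ℂ) (m n : ℕ) : pw z (m * n) = pw z m * pw z n := by
  rcases eq_or_ne m 0 with rfl | hm
  · simp
  rcases eq_or_ne n 0 with rfl | hn
  · simp
  rw [pw_apply z hm, pw_apply z hn, pw_apply z (mul_ne_zero hm hn), ← exp_add, Nat.cast_mul,
    Real.log_mul (by exact_mod_cast hm) (by exact_mod_cast hn)]
  push_cast; ring_nf

lemma pw_pow (z : ℂ) (m k : ℕ) : pw z (m ^ k) = pw z m ^ k := by
  induction k with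
  | zero => simp [pw_one]
  | succ k ih => rw [pow_succ, pw_mul, ih, pow_succ]

lemma pw_add (z z' : ℂ) (n : ℕ) : pw (z + z') n = pw z n * pw z' n := by
  rcases eq_or_ne n 0 with rfl | hn
  · simp
  rw [pw_apply _ hn, pw_apply _ hn, pw_apply _ hn, ← exp_add]; ring_nf

lemma pw_zero {n : ℕ} (hn : n ≠ 0) : pw 0 n = 1 := by simp [pw_apply _ hn]

lemma pw_real (σ : ℝ) {n : ℕ} (hn : n ≠ 0) : pw σ n = ex σ n := by
  rw [pw_apply _ hn, ex]; push_cast; rfl

lemma norm_pw' (z : ℂ) {n : ℕ} (hn : n ≠ 0) : ‖pw z n‖ = ex z.re n := by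
  rw [pw_apply _ hn, norm_exp, re_mul_ofReal, neg_re, ex]

lemma norm_pw_le {z : ℂ} (hz : 0 ≤ z.re) (n : ℕ) : ‖pw z n‖ ≤ 1 := by
  rcases eq_or_ne n 0 with rfl | hn
  · simp
  rw [norm_pw' z hn]; exact ex_le_one hz n

lemma term_pw (f : ℕ → ℂ) (s : ℂ) (n : ℕ) : LSeries.term f s n = f n * pw s n := by
  rcases eq_or_ne n 0 with rfl | hn
  · simp
  rw [LSeries.term_of_ne_zero hn, pw_nat _ hn, pw_apply _ hn, neg_mul, exp_neg, div_eq_mul_inv]

lemma norm_term {f : ℕ → ℂ} (f0 : f 0 = 0) (s : ℂ) (n : ℕ) :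
    ‖LSeries.term f s n‖ = ‖f n‖ * ex s.re n := by
  rcases eq_or_ne n 0 with rfl | hn
  · simp [f0]
  rw [term_pw, norm_mul, norm_pw' s hn]

/-- coefficients of `1 / ζ(s + z)` -/
noncomputable def mp (z : ℂ) : ArithmeticFunction ℂ := (μ : ArithmeticFunction ℂ).pmul (pw z)

/-- coefficients of `ζ(s + z') / ζ(s + z)` -/
noncomputable def mm (z z' : ℂ) : ArithmeticFunction ℂ := mp z * pw z'

lemma mult_pw (z : ℂ) : (pw z).IsMultiplicative := ⟨pw_one z, fun _ => pw_mul z _ _⟩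

lemma mult_mm (z z' : ℂ) : (mm z z').IsMultiplicative :=
  (isMultiplicative_moebius.intCast.pmul (mult_pw z)).mul (mult_pw z')

lemma pw_mul_mp (z : ℂ) : pw z * mp z = 1 := by
  ext n
  have a : (pw z * mp z) n = pw z n * ((ζ : ArithmeticFunction ℂ) * (μ : ArithmeticFunction ℂ)) n := by
    rw [mul_apply, mul_apply, mul_sum]
    refine sum_congr rfl fun x hx => ?_
    rw [← (Nat.mem_divisorsAntidiagonal.1 hx).1, pw_mul, mp, pmul_apply, natCoe_apply,
      zeta_apply_ne (Nat.left_ne_zero_of_mem_divisorsAntidiagonal hx)]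
    push_cast; ring
  rw [a, coe_zeta_mul_coe_moebius, one_apply]
  split_ifs with c
  · rw [c, pw_one, one_mul]
  · rw [mul_zero]

lemma mm_mul (z z' z'' : ℂ) : mm z z' * mm z' z'' = mm z z'' := by
  rw [mm, mm, mm, mul_assoc, ← mul_assoc (pw z'), pw_mul_mp, one_mul]

lemma mm_pp (z z' : ℂ) {p : ℕ} (hp : p.Prime) (k : ℕ) :
    mm z z' (p ^ (k + 1)) = (pw z' p - pw z p) * pw z' p ^ k := by
  rw [mm, mul_apply, Nat.sum_divisorsAntidiagonal fun a b => mp z a * pw z' b,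
    Nat.sum_divisors_prime_pow hp, sum_range_succ', sum_range_succ', sum_eq_zero fun i _ => by
      rw [mp, pmul_apply, intCoe_apply, moebius_apply_prime_pow hp (by omega), if_neg (by omega)]
      simp]
  simp only [mp, pmul_apply, intCoe_apply, zero_add, pow_one, pow_zero, moebius_apply_prime hp,
    moebius_apply_one, Nat.div_one, pw_one, pow_succ p k, Nat.mul_div_cancel _ hp.pos, pw_mul,
    pw_pow]
  push_cast; ring

lemma has_pw {z s : ℂ} (h : 1 < (s + z).re) : LSeriesHasSum (pw z) s (riemannZeta (s + z)) := by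
  refine (congrArg (fun g => HasSum g _) (funext fun n => ?_)).mp (LSeriesHasSum_one h)
  rw [term_pw, term_pw, pw_add, Pi.one_apply]; ring

lemma has_mp {z s : ℂ} (h : 1 < (s + z).re) :
    LSeriesHasSum (mp z) s (riemannZeta (s + z))⁻¹ := by
  have e := LSeries_one_mul_Lseries_moebius h
  rw [LSeries_one_eq_riemannZeta h] at e
  rw [← eq_inv_of_mul_eq_one_right e]
  refine (congrArg (fun g => HasSum g _) (funext fun n => ?_)).mp
    (LSeriesSummable_moebius_iff.2 h).hasSum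
  rw [term_pw, term_pw, pw_add, mp, pmul_apply, intCoe_apply]; ring

lemma has_mm {z z' s : ℂ} (h : 1 < (s + z).re) (h' : 1 < (s + z').re) :
    LSeriesHasSum (mm z z') s (riemannZeta (s + z') / riemannZeta (s + z)) := by
  rw [div_eq_inv_mul]; exact LSeriesHasSum_mul (has_mp h) (has_pw h')

lemma norm_conv {f g : ArithmeticFunction ℂ} {n : ℕ} {M : ℝ} (M0 : 0 ≤ M)
    (hf : ∀ d, d ≤ n → ‖f d‖ ≤ M) (hg : ∀ d, ‖g d‖ ≤ 1) : ‖(f * g) n‖ ≤ n * M := by
  rw [mul_apply, Nat.sum_divisorsAntidiagonal fun a b => f a * g b]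
  refine (norm_sum_le_of_le _ (n := fun _ => M) fun d hd => (norm_mul_le_of_le
    (hf d (Nat.divisor_le hd)) (hg _)).trans (mul_one _).le).trans ?_
  rw [sum_const, nsmul_eq_mul]
  exact mul_le_mul_of_nonneg_right (by exact_mod_cast Nat.card_divisors_le_self n) M0

lemma norm_mm {z z' : ℂ} (h : 0 ≤ z.re) (h' : 0 ≤ z'.re) (n : ℕ) : ‖mm z z' n‖ ≤ n := by
  refine (norm_conv zero_le_one (fun d _ => ?_) (norm_pw_le h')).trans (mul_one _).le
  rw [mp, pmul_apply, intCoe_apply, norm_mul, Complex.norm_intCast]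
  exact mul_le_one₀ (by exact_mod_cast abs_moebius_le_one) (norm_nonneg _) (norm_pw_le h d)

lemma one_sub_ex (β : ℝ) (n : ℕ) : 1 - ex β n ≤ β * Real.log n := by
  unfold ex
  linarith [Real.add_one_le_exp (-β * Real.log n)]

lemma rho {β : ℝ} (b0 : 0 ≤ β) (n : ℕ) : ∃ r ρ : ℝ, mm 0 β n = r ∧ mm β 0 n = ρ ∧ |r| ≤ ρ ∧ ρ ≤ 1 := by
  induction n using Nat.recOnPosPrimePosCoprime with
  | prime_pow p k hp hk =>
    obtain ⟨k, rfl⟩ := Nat.exists_eq_succ_of_ne_zero hk.ne'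
    have a := ex_pos β p
    have b := ex_le_one b0 p
    refine ⟨(ex β p - 1) * ex β p ^ k, 1 - ex β p, ?_, ?_, ?_, by linarith⟩
    · rw [mm_pp _ _ hp, pw_real _ hp.ne_zero, pw_zero hp.ne_zero]; push_cast; ring
    · rw [mm_pp _ _ hp, pw_real _ hp.ne_zero, pw_zero hp.ne_zero]; push_cast; ring
    · rw [abs_mul, abs_sub_comm, abs_of_nonneg (by linarith), abs_of_pos (pow_pos a k)]
      exact mul_le_of_le_one_right (by linarith) (pow_le_one₀ a.le b)
  | zero => exact ⟨0, 0, by simp⟩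
  | one => exact ⟨1, 1, (mult_mm _ _).1, (mult_mm _ _).1, by simp⟩
  | coprime a b _ _ hab ha hb =>
    obtain ⟨r, ρ, e1, e2, e3, e4⟩ := ha
    obtain ⟨r', ρ', f1, f2, f3, f4⟩ := hb
    have := (abs_nonneg _).trans e3
    refine ⟨r * r', ρ * ρ', by rw [(mult_mm _ _).2 hab, e1, f1, ofReal_mul],
      by rw [(mult_mm _ _).2 hab, e2, f2, ofReal_mul], ?_,
      mul_le_one₀ e4 ((abs_nonneg _).trans f3) f4⟩
    rw [abs_mul]; exact mul_le_mul e3 f3 (abs_nonneg _) this

lemma norm_r {β : ℝ} (b0 : 0 ≤ β) (n : ℕ) : ‖mm 0 β n‖ ≤ 1 := by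
  obtain ⟨r, ρ, e1, -, e3, e4⟩ := rho b0 n
  rw [e1, norm_real]; exact e3.trans e4

lemma ex_half {σ : ℝ} (h : 1 ≤ σ) {p : ℕ} (hp : p.Prime) : ex σ p ≤ 1 / 2 := by
  have p2 : (2 : ℝ) ≤ p := by exact_mod_cast hp.two_le
  have l := Real.log_le_log (by norm_num) p2
  refine (Real.exp_le_exp.2 (show _ ≤ -Real.log 2 by nlinarith [Real.log_two_gt_d9])).trans ?_
  rw [Real.exp_neg, Real.exp_log (by norm_num), one_div]

lemma prime_sum : ∃ C : ℝ, 1 ≤ C ∧ ∀ δ : ℝ, 0 < δ → δ ≤ 1 → ∀ S : Finset Nat.Primes,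
    ∑ p ∈ S, Real.log (p : ℕ) * ex (1 + δ) p ≤ C / δ := by
  obtain ⟨C, C1, hC⟩ := lam_sum
  refine ⟨C, C1, fun δ d0 d1 S => le_trans (le_of_eq ?_)
    (hC δ d0 d1 (S.image fun p : Nat.Primes => (p : ℕ)))⟩
  exact (sum_congr rfl fun p _ => by rw [← vonMangoldt_apply_prime p.2]).trans
    (sum_image (f := fun n => Λ n * ex (1 + δ) n) fun p _ q _ h => Subtype.ext h).symm

lemma ep_bound : ∃ C : ℝ, 1 ≤ C ∧ ∀ (g : ArithmeticFunction ℂ) (s : ℂ) (c : ℝ), g.IsMultiplicative →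
    1 < s.re → s.re ≤ 2 → 0 ≤ c → (∀ p k, p.Prime → ‖g (p ^ (k + 1))‖ ≤ c * Real.log p) →
    LSeriesSummable g s → ∑' n, ‖LSeries.term g s n‖ ≤ Real.exp (2 * c * C / (s.re - 1)) := by
  obtain ⟨C, C1, hC⟩ := prime_sum
  refine ⟨C, C1, fun g s c hg s1 s2 c0 hp hs => ?_⟩
  have e := EulerProduct.eulerProduct_hasProd (f := fun n => ‖LSeries.term g s n‖)
    (by rw [term_pw, hg.1, pw_one]; simp)
    (fun h => by simp only [term_pw]; rw [hg.2 h, pw_mul, ← norm_mul]; congr 1; ring)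
    (by simpa using hs.norm) (by simp)
  refine le_of_tendsto' e fun S => ?_
  refine (prod_le_prod (g := fun p : Nat.Primes => Real.exp (2 * c * (Real.log (p : ℕ) * ex s.re p)))
    (fun p _ => tsum_nonneg fun _ => norm_nonneg _) fun p _ => ?_).trans ?_
  · have x0 := ex_pos s.re p
    have x1 := ex_half s1.le p.2
    have l0 := mul_nonneg c0 (Real.log_natCast_nonneg (p : ℕ))
    have a := (hasSum_nat_add_iff (f := fun e => if e = 0 then 1 else
      c * Real.log (p : ℕ) * ex s.re p * (1 / 2) ^ (e - 1)) 1).1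
      (by simpa using hasSum_geometric_two.mul_left (c * Real.log (p : ℕ) * ex s.re p))
    refine (Real.tsum_le_of_sum_le (fun _ => norm_nonneg _) fun u => (sum_le_sum fun e _ => ?_).trans
      (sum_le_hasSum u (fun e _ => by split_ifs <;> positivity) a)).trans ?_
    · rcases e with _ | k
      · rw [pow_zero, term_pw, hg.1, pw_one]; simp
      · rw [term_pw, norm_mul, pw_pow, norm_pow, norm_pw' _ p.2.ne_zero, if_neg (by omega),
          Nat.add_sub_cancel, pow_succ' (ex _ _), mul_assoc]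
        exact mul_le_mul (hp p k p.2) (mul_le_mul_of_nonneg_left (pow_le_pow_left₀ x0.le x1 k) x0.le)
          (by positivity) l0
    · simp only [range_one, sum_singleton, if_pos]
      linarith [Real.add_one_le_exp (2 * c * (Real.log (p : ℕ) * ex s.re p))]
  · rw [← Real.exp_sum, ← mul_sum, mul_div_assoc]
    have := hC (s.re - 1) (by linarith) (by linarith) S
    rw [add_sub_cancel] at this
    gcongr

/-- the diagonal coefficients -/
noncomputable def ff (h β : ℝ) : ArithmeticFunction ℂ := (mm (-(h * I)) β).pmul (mm 0 β)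

lemma mult_ff (h β : ℝ) : (ff h β).IsMultiplicative := (mult_mm _ _).pmul (mult_mm _ _)

lemma ff_pp (h β : ℝ) {p : ℕ} (hp : p.Prime) (k : ℕ) : ff h β (p ^ (k + 1)) =
    (ex β p - pw (-(h * I)) p) * (ex β p - 1) * ((ex β p : ℂ) ^ 2) ^ k := by
  rw [ff, pmul_apply, mm_pp _ _ hp, mm_pp _ _ hp, pw_real _ hp.ne_zero, pw_zero hp.ne_zero]; ring

lemma norm_A {β : ℝ} (b0 : 0 ≤ β) (h : ℝ) (p : ℕ) :
    ‖(ex β p - pw (-(h * I)) p) * (ex β p - 1)‖ ≤ 2 * β * Real.log p := by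
  have a := ex_pos β p
  have b := ex_le_one b0 p
  have c := norm_pw_le (z := -(h * I)) (by simp) p
  rw [mul_assoc]
  refine norm_mul_le_of_le ((norm_sub_le _ _).trans ?_) ?_
  · rw [norm_real, Real.norm_of_nonneg a.le]; linarith
  · rw [← ofReal_one, ← ofReal_sub, norm_real, Real.norm_eq_abs, abs_sub_comm,
      abs_of_nonneg (by linarith)]
    exact one_sub_ex β p

lemma summ_ff {β : ℝ} (b0 : 0 ≤ β) (h : ℝ) {s : ℂ} (hs : 1 < s.re) : LSeriesSummable (ff h β) s := by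
  refine (has_mm (z := -(h * I)) (z' := β) (s := s) (by simpa using hs)
    (by simp; linarith)).LSeriesSummable.norm.of_norm_bounded fun n => LSeries.norm_term_le s ?_
  rw [ff, pmul_apply, norm_mul]
  exact mul_le_of_le_one_right (norm_nonneg _) (norm_r b0 n)

lemma zeta_prod {s : ℂ} (hs : 1 < s.re) :
    HasProd (fun p : Nat.Primes => (1 - pw s p)⁻¹) (riemannZeta s) := by
  refine (congrArg (fun g => HasProd g _) (funext fun p => ?_)).mp
    (riemannZeta_eulerProduct_hasProd hs)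
  rw [pw_apply _ p.2.ne_zero, pw_nat _ p.2.ne_zero]

lemma loc_alg {x q y : ℂ} {A B : ℝ} (hx : ‖x‖ ≤ 1 / 2) (hq : ‖q‖ ≤ 1) (hy : ‖y‖ ≤ 1)
    (hA : ‖(y - q) * (y - 1)‖ ≤ A) (hB : ‖x‖ ^ 2 ≤ B) :
    ((y - q) * (y - 1) * x * (1 - y ^ 2 * x)⁻¹ + 1 * 1) * ((1 - x * q * y)⁻¹ * (1 - x * y)⁻¹) /
      ((1 - x * q)⁻¹ * (1 - x * y * y)⁻¹) =
        1 + -(q * ((y - q) * (y - 1)) * x ^ 2) / ((1 - x * q * y) * (1 - x * y)) ∧
      ‖-(q * ((y - q) * (y - 1)) * x ^ 2) / ((1 - x * q * y) * (1 - x * y))‖ ≤ 4 * (A * B) := by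
  have lo : ∀ {w : ℂ}, ‖w‖ ≤ 1 → 1 / 2 ≤ ‖1 - x * w‖ := fun {w} hw => by
    have := norm_sub_norm_le 1 (x * w)
    rw [norm_one] at this
    linarith [norm_mul_le_of_le hx hw]
  have n1 := lo hq
  have n2 := lo hy
  have n3 := lo ((norm_mul_le_of_le hq hy).trans (mul_one _).le)
  have n4 := lo ((norm_mul_le_of_le hy hy).trans (mul_one _).le)
  rw [← mul_assoc] at n3 n4
  have m1 := norm_pos_iff.1 (one_half_pos.trans_le n1)
  have m2 := norm_pos_iff.1 (one_half_pos.trans_le n2)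
  have m3 := norm_pos_iff.1 (one_half_pos.trans_le n3)
  have m4 := norm_pos_iff.1 (one_half_pos.trans_le n4)
  have A0 := (norm_nonneg _).trans hA
  have B0 := (sq_nonneg _).trans hB
  refine ⟨?_, ?_⟩
  · rw [show 1 - y ^ 2 * x = 1 - x * y * y by ring]
    generalize hu : 1 - x * y * y = u at *
    generalize hv : 1 - x * q * y = v at *
    generalize hw : 1 - x * y = w at *
    generalize ht : 1 - x * q = t at *
    field_simp
    subst hu hv hw ht
    ring
  · rw [norm_div, norm_neg, norm_mul, norm_mul, norm_mul (1 - _), norm_pow,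
      div_le_iff₀ (by positivity)]
    have := mul_le_mul (mul_le_mul hq hA (norm_nonneg _) zero_le_one) hB (by positivity)
      (by positivity)
    refine this.trans (le_trans (le_of_eq ?_) (mul_le_mul_of_nonneg_left
      (mul_le_mul n3 n2 (by norm_num) (norm_nonneg _)) (by positivity)))
    ring

lemma euler_ratio : ∃ K : ℝ, ∀ (h β : ℝ) (s : ℂ), 0 ≤ β → 1 < s.re →
    ‖LSeries (ff h β) s * (riemannZeta (s + -(h * I) + β) * riemannZeta (s + β)) /
      (riemannZeta (s + -(h * I)) * riemannZeta (s + β + β)) - 1‖ ≤ Real.exp (K * β) - 1 := by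
  obtain ⟨C, C1, hC⟩ := prime_sum
  refine ⟨8 * C, fun h β s b0 s1 => ?_⟩
  have e := EulerProduct.eulerProduct_hasProd (f := fun n => LSeries.term (ff h β) s n)
    (by rw [term_pw, (mult_ff h β).1, pw_one]; simp)
    (fun q => by simp only [term_pw]; rw [(mult_ff h β).2 q, pw_mul]; ring)
    (summ_ff b0 h s1).norm (by simp)
  have r1 : 1 < (s + -(h * I)).re := by simpa using s1
  have r2 : 1 < (s + β + β).re := by simp; linarith
  have t := Tendsto.div (e.mul ((zeta_prod (s := s + -(h * I) + β) (by simp; linarith)).mul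
    (zeta_prod (s := s + β) (by simp; linarith)))) ((zeta_prod r1).mul (zeta_prod r2))
    (mul_ne_zero (riemannZeta_ne_zero_of_one_lt_re r1) (riemannZeta_ne_zero_of_one_lt_re r2))
  refine le_of_tendsto' (t.sub_const 1).norm fun S => ?_
  set d : Nat.Primes → ℂ := fun p => -(pw (-(h * I)) p * ((ex β p - pw (-(h * I)) p) *
    (ex β p - 1)) * pw s p ^ 2) / ((1 - pw s p * pw (-(h * I)) p * ex β p) *
      (1 - pw s p * ex β p)) with hd
  have key : ∀ p : Nat.Primes, ((∑' e, LSeries.term (ff h β) s (p ^ e)) *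
      ((1 - pw (s + -(h * I) + β) p)⁻¹ * (1 - pw (s + β) p)⁻¹)) /
      ((1 - pw (s + -(h * I)) p)⁻¹ * (1 - pw (s + β + β) p)⁻¹) = 1 + d p ∧
      ‖d p‖ ≤ 8 * β * (Real.log (p : ℕ) * ex (1 + 1) p) := fun p => by
    have hx : ‖pw s p‖ ≤ 1 / 2 := by rw [norm_pw' _ p.2.ne_zero]; exact ex_half s1.le p.2
    have hq := norm_pw_le (z := -(h * I)) (by simp) p
    have hy : ‖(ex β p : ℂ)‖ ≤ 1 := by
      rw [norm_real, Real.norm_of_nonneg (ex_pos _ _).le]; exact ex_le_one b0 p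
    have hA := norm_A b0 h p
    have hx2 : ‖pw s p‖ ^ 2 ≤ ex (1 + 1) p := by
      rw [norm_pw' _ p.2.ne_zero, ex, ← Real.exp_nat_mul]
      exact Real.exp_le_exp.2 (by push_cast; nlinarith [Real.log_natCast_nonneg (p : ℕ)])
    have a := (hasSum_nat_add_iff (f := fun e => LSeries.term (ff h β) s (p ^ e)) 1).1
      ((congrArg (fun g => HasSum g _) (funext fun k => by
        rw [term_pw, ff_pp h β p.2, pw_pow, mul_pow]; ring)).mp
      ((hasSum_geometric_of_norm_lt_one (ξ := (ex β p : ℂ) ^ 2 * pw s p) (by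
        rw [norm_mul, norm_pow]
        nlinarith [pow_le_one₀ (n := 2) (norm_nonneg _) hy, norm_nonneg (pw s p)])).mul_left
        ((ex β p - pw (-(h * I)) p) * (ex β p - 1) * pw s p)))
    rw [a.tsum_eq, hd]
    simp only [range_one, sum_singleton, pow_zero, term_pw, (mult_ff h β).1, pw_one, pw_add,
      pw_real _ p.2.ne_zero]
    exact (loc_alg hx hq hy hA hx2).imp_right fun q => q.trans (le_of_eq (by ring))
  simp only [Pi.div_apply]
  rw [← prod_div_distrib, prod_congr rfl fun p _ => (key p).1]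
  refine (S.norm_prod_one_add_sub_one_le d).trans ?_
  gcongr
  refine (sum_le_sum fun p _ => (key p).2).trans ?_
  rw [← mul_sum]
  exact (mul_le_mul_of_nonneg_left (hC 1 one_pos le_rfl S) (by positivity)).trans
    (le_of_eq (by ring))

end Pool.Agent.MP_f0209c_nt.Pp
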