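import Pool.Agent.MP_f0209c_nt.Contour

/-! Local factorisation of the zeta function. -/

namespace Pool.Agent.MP_f0209c_nt.Pp
open Complex Set Metric Filter Topology ComplexConjugate

lemma ord_prod (ρ : ℕ → ℂ) (J : Finset ℕ) {g : ℂ → ℂ} {s : ℂ} (hg : AnalyticAt ℂ g s) :
    analyticOrderAt (fun z => (∏ j ∈ J, (z - ρ j)) * g z) s =
      (J.filter fun j => ρ j = s).card + analyticOrderAt g s := by
  classical
  induction J using Finset.induction_on with
  | empty => simp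
  | insert a J ha ih =>
    have e : (fun z => (∏ j ∈ insert a J, (z - ρ j)) * g z) =
        (· - ρ a) * fun z => (∏ j ∈ J, (z - ρ j)) * g z := by
      funext z; rw [Finset.prod_insert ha, mul_assoc]; rfl
    have a1 : AnalyticAt ℂ (· - ρ a) s := by fun_prop
    have a2 : AnalyticAt ℂ (fun z => (∏ j ∈ J, (z - ρ j)) * g z) s :=
      AnalyticAt.mul (f := fun z => ∏ j ∈ J, (z - ρ j)) (by fun_prop) hg
    rw [e, analyticOrderAt_mul a1 a2, ih, Finset.filter_insert]
    split_ifs with c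
    · rw [Finset.card_insert_of_notMem fun h => ha (Finset.mem_filter.1 h).1, ← c,
        analyticOrderAt_id_sub_const_self]
      push_cast; ring
    · rw [analyticOrderAt_id_sub_const_of_ne (Ne.symm c), zero_add]

lemma factor_mult {U : Set ℂ} (hU : IsOpen U) {f : ℂ → ℂ} (hf : DifferentiableOn ℂ f U) (ρ : ℕ → ℂ)
    (J : Finset ℕ) (hJ : ∀ j ∈ J, ρ j ∈ U)
    (hle : ∀ s ∈ U, ((J.filter fun j => ρ j = s).card : ℕ∞) ≤ analyticOrderAt f s) :
    ∃ g : ℂ → ℂ, DifferentiableOn ℂ g U ∧ ∀ s ∈ U, f s = (∏ j ∈ J, (s - ρ j)) * g s := by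
  classical
  induction J using Finset.induction_on with
  | empty => exact ⟨f, hf, by simp⟩
  | insert a J ha ih =>
    obtain ⟨g, hg, e⟩ := ih (fun x hx => hJ x (Finset.mem_insert_of_mem hx)) fun s hs =>
      le_trans (Nat.cast_le.2 (Finset.card_le_card
        (Finset.filter_subset_filter _ (Finset.subset_insert _ _)))) (hle s hs)
    have h1 := hJ a (Finset.mem_insert_self _ _)
    have h3 : g (ρ a) = 0 := by
      have b := hle _ h1
      rw [analyticOrderAt_congr (eventually_of_mem (hU.mem_nhds h1) e),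
        ord_prod ρ J (hg.analyticAt (hU.mem_nhds h1)), Finset.filter_insert, if_pos rfl,
        Finset.card_insert_of_notMem fun h => ha (Finset.mem_filter.1 h).1] at b
      refine apply_eq_zero_of_analyticOrderAt_ne_zero fun z => ?_
      rw [z, add_zero, Nat.cast_le] at b
      omega
    refine ⟨dslope g (ρ a), (differentiableOn_dslope (hU.mem_nhds h1)).2 hg, fun s hs => ?_⟩
    have := sub_smul_dslope g (ρ a) s
    rw [h3, sub_zero, smul_eq_mul] at this
    rw [e s hs, Finset.prod_insert ha, ← this]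
    ring

lemma cauchy {l : ℂ → ℂ} {c : ℂ} {R r δ M : ℝ} (hl : DifferentiableOn ℂ l (ball c R)) (d0 : 0 < δ)
    (hR : r + δ < R) (hM : ∀ z, ‖z - c‖ ≤ r + δ → ‖l z‖ ≤ M) {z : ℂ} (hz : ‖z - c‖ ≤ r) :
    ‖deriv l z‖ ≤ M / δ := by
  have a : ∀ w ∈ closedBall z δ, ‖w - c‖ ≤ r + δ := fun w hw => by
    linarith [mem_closedBall_iff_norm.1 hw, norm_sub_le_norm_sub_add_norm_sub w z c]
  exact norm_deriv_le_of_forall_mem_sphere_norm_le d0 ((hl.mono
    (closure_ball_subset_closedBall.trans fun w hw => mem_ball_iff_norm.2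
      ((a w hw).trans_lt hR))).diffContOnCl) fun w hw => hM w (a w (sphere_subset_closedBall hw))

lemma local_fac {f g : ℂ → ℂ} {c : ℂ} {ρ : ℕ → ℂ} {J : Finset ℕ}
    (hg : DifferentiableOn ℂ g (ball c (39 / 10))) (hJ : ∀ j ∈ J, ρ j ∈ ball c (38 / 10))
    (e : ∀ s ∈ ball c (39 / 10), f s = (∏ j ∈ J, (s - ρ j)) * g s)
    (g0 : ∀ z ∈ ball c (38 / 10), g z ≠ 0) {A : ℝ} (hA : 1 ≤ A)
    (hM : ∀ z ∈ ball c (39 / 10), ‖f z‖ ≤ Real.exp A) (hm : Real.exp (-A) ≤ ‖f c‖) :
    (J.card : ℝ) ≤ 160 * A ∧ ∃ l : ℂ → ℂ, DifferentiableOn ℂ l (ball c (38 / 10)) ∧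
      (∀ s ∈ ball c (38 / 10), g s = g c * exp (l s)) ∧ ∀ s, ‖s - c‖ ≤ 37 / 10 →
        ‖deriv l s‖ ≤ 10 ^ 9 * A ∧ ‖deriv (deriv l) s‖ ≤ 10 ^ 9 * A := by
  have hsub : ball c (38 / 10) ⊆ ball c (39 / 10) := ball_subset_ball (by norm_num)
  set N : ℕ := J.card with hN
  have hN0 : (0 : ℝ) ≤ N := by positivity
  have mx : ∀ {F : ℂ → ℂ} {M : ℝ}, DifferentiableOn ℂ F (ball c (39 / 10)) →
      (∀ w, ‖w - c‖ = 385 / 100 → ‖F w‖ ≤ M) → ∀ z ∈ ball c (38 / 10), ‖F z‖ ≤ M :=
    fun hF h z hz => norm_le_of_forall_mem_frontier_norm_le (U := ball c (385 / 100)) isBounded_ball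
      (hF.mono (closure_ball_subset_closedBall.trans
        (closedBall_subset_ball (by norm_num)))).diffContOnCl (fun w hw => h w (by
          rwa [frontier_ball c (by norm_num), mem_sphere_iff_norm] at hw))
      (subset_closure (ball_subset_ball (by norm_num) hz))
  have inb : ∀ w, ‖w - c‖ = 385 / 100 → w ∈ ball c (39 / 10) := fun w hw => by
    rw [mem_ball_iff_norm, hw]; norm_num
  have c0 : c ∈ ball c (38 / 10) := mem_ball_self (by norm_num)
  have lo₀ : Real.exp (-A) ≤ (38 / 10) ^ N * ‖g c‖ := by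
    rw [e c (hsub c0), norm_mul] at hm
    refine hm.trans (mul_le_mul_of_nonneg_right ?_ (norm_nonneg _))
    rw [norm_prod, hN, ← Finset.prod_const]
    refine Finset.prod_le_prod (fun _ _ => norm_nonneg _) fun j hj => ?_
    rw [norm_sub_rev]; exact (mem_ball_iff_norm.1 (hJ j hj)).le
  have cnt : (N : ℝ) ≤ 160 * A := by
    have a := mx (F := fun s => (∏ j ∈ J, ((385 / 100) ^ 2 - conj (ρ j - c) * (s - c)) /
      (385 / 100)) * g s) (M := Real.exp A) (DifferentiableOn.mul (by fun_prop) hg)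
      (fun w hw => le_trans (le_of_eq (by
        rw [e w (inb w hw), norm_mul, norm_mul, norm_prod, norm_prod]
        congr 1
        refine Finset.prod_congr rfl fun j _ => ?_
        have b : ((385 / 100 : ℂ)) ^ 2 = (w - c) * conj (w - c) := by
          rw [mul_conj', hw]; push_cast; ring
        rw [b, show (w - c) * conj (w - c) - conj (ρ j - c) * (w - c) =
          (w - c) * conj (w - ρ j) by simp only [map_sub]; ring, norm_div, norm_mul, norm_conj, hw]
        norm_num)) (hM w (inb w hw))) c c0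
    simp only [sub_self, mul_zero, sub_zero, Finset.prod_const, norm_mul, norm_pow] at a
    rw [← hN, show ‖((385 / 100 : ℂ)) ^ 2 / (385 / 100)‖ = 385 / 100 by norm_num] at a
    have b : Real.exp (1 / 80) * (38 / 10) ≤ 385 / 100 := by
      have := Real.add_one_le_exp (-(1 / 80))
      rw [Real.exp_neg, le_inv_comm₀ (by norm_num) (Real.exp_pos _)] at this
      norm_num at this ⊢; linarith
    have d := (mul_le_mul_of_nonneg_right (pow_le_pow_left₀ (by positivity) b N)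
      (norm_nonneg (g c))).trans a
    rw [mul_pow, mul_assoc, ← Real.exp_nat_mul] at d
    have := (mul_le_mul_of_nonneg_left lo₀ (Real.exp_pos _).le).trans d
    rw [← Real.exp_add, Real.exp_le_exp] at this
    linarith
  have e3 : (5 : ℝ) ≤ Real.exp 2 := by
    have := Real.quadratic_le_exp_of_nonneg (x := 2) (by norm_num)
    linarith
  have e2 : Real.exp (-4) ≤ 5 / 100 := by
    rw [Real.exp_neg, inv_le_comm₀ (Real.exp_pos _) (by norm_num),
      show (4 : ℝ) = 2 + 2 by norm_num, Real.exp_add]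
    nlinarith
  have up : ∀ z ∈ ball c (38 / 10), ‖g z‖ ≤ Real.exp (A + 4 * N) := mx hg fun w hw => by
    have h1 : Real.exp (-4) ^ N ≤ ‖∏ j ∈ J, (w - ρ j)‖ := by
      rw [norm_prod, hN, ← Finset.prod_const]
      refine Finset.prod_le_prod (fun _ _ => (Real.exp_pos _).le) fun j hj => e2.trans ?_
      have a1 := mem_ball_iff_norm.1 (hJ j hj)
      have a2 := norm_sub_le_norm_sub_add_norm_sub w (ρ j) c
      linarith
    have h2 := hM w (inb w hw)
    rw [e w (inb w hw), norm_mul] at h2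
    have h3 : Real.exp (-4) ^ N * ‖g w‖ ≤ Real.exp A :=
      (mul_le_mul_of_nonneg_right h1 (norm_nonneg _)).trans h2
    rw [← Real.exp_nat_mul, ← le_div_iff₀' (Real.exp_pos _), ← Real.exp_sub] at h3
    exact h3.trans (le_of_eq (by ring_nf))
  have lo : Real.exp (-(A + 2 * N)) ≤ ‖g c‖ := by
    have h3 : Real.exp (-A) ≤ Real.exp 2 ^ N * ‖g c‖ := lo₀.trans (mul_le_mul_of_nonneg_right
      (pow_le_pow_left₀ (by norm_num) (by linarith) N) (norm_nonneg _))
    rw [← Real.exp_nat_mul, ← div_le_iff₀' (Real.exp_pos _), ← Real.exp_sub] at h3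
    exact le_trans (le_of_eq (by ring_nf)) h3
  obtain ⟨l, hl, l0, el⟩ := exists_log (by norm_num) (hg.mono hsub) g0
  have hre : ∀ z ∈ ball c (38 / 10), (l z).re ≤ 1000 * A := fun z hz => by
    have h1 := up z hz
    rw [el z hz, norm_mul, norm_exp] at h1
    have h2 : Real.exp (-(A + 2 * N)) * Real.exp (l z).re ≤ Real.exp (A + 4 * N) :=
      (mul_le_mul_of_nonneg_right lo (Real.exp_pos _).le).trans h1
    rw [← Real.exp_add, Real.exp_le_exp] at h2
    linarith
  have hmap : ∀ z ∈ ball (0 : ℂ) (38 / 10), c + z ∈ ball c (38 / 10) := fun z hz => by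
    simpa using hz
  have b0 : ∀ s, ‖s - c‖ ≤ 373 / 100 + 3 / 100 → ‖l s‖ ≤ 188000 * A := fun s hs => by
    have hbc := borelCaratheodory_zero (f := fun z => l (c + z)) (M := 1000 * A)
      (R := 38 / 10) (z := s - c) (by positivity) (hl.comp (by fun_prop) hmap)
      (fun z hz => hre _ (hmap z hz)) (by norm_num) (by rw [mem_ball_zero_iff]; linarith)
      (by simpa using l0)
    simp only [add_sub_cancel] at hbc
    refine hbc.trans ?_
    rw [div_le_iff₀ (by linarith)]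
    nlinarith
  have b1 : ∀ s, ‖s - c‖ ≤ 37 / 10 + 3 / 100 → ‖deriv l s‖ ≤ 188000 * A / (3 / 100) := fun s hs =>
    cauchy hl (by norm_num) (by norm_num) b0 (by linarith)
  refine ⟨cnt, l, hl, el, fun s hs => ⟨(b1 s (by linarith)).trans (by linarith), ?_⟩⟩
  exact (cauchy (hl.deriv isOpen_ball) (by norm_num) (by norm_num) b1 hs).trans (by linarith)

/-- an ordered list of the zeros, under the Riemann hypothesis -/
structure Zs (ρ : ℕ → ℂ) : Prop where
  rh : RiemannHypothesis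
  pos : ∀ j, 0 < (ρ j).im
  mono : Monotone fun j => (ρ j).im
  mult : ∀ s : ℂ, 0 < s.im → {j | ρ j = s}.encard = analyticOrderAt riemannZeta s

variable {ρ : ℕ → ℂ}

lemma Zs.line (h : Zs ρ) {s : ℂ} (hs : 0 < s.im) (h0 : riemannZeta s = 0) : s.re = 1 / 2 :=
  h.rh s h0 (fun ⟨n, e⟩ => by simp [e] at hs) fun e => by simp [e] at hs

lemma Zs.ne (h : Zs ρ) {s : ℂ} (hs : 0 < s.im) (h0 : 1 / 2 < s.re) : riemannZeta s ≠ 0 :=
  fun e => h0.ne' (h.line hs e)

lemma Zs.zero (h : Zs ρ) (j : ℕ) : riemannZeta (ρ j) = 0 :=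
  apply_eq_zero_of_analyticOrderAt_ne_zero (by
    rw [← h.mult _ (h.pos j)]; exact encard_ne_zero.2 ⟨j, rfl⟩)

lemma Zs.eq (h : Zs ρ) (j : ℕ) : ρ j = 1 / 2 + (ρ j).im * I :=
  Complex.ext (by simpa using h.line (h.pos j) (h.zero j)) (by simp)

lemma Zs.fin (h : Zs ρ) {K : Set ℂ} (hK : IsCompact K) : {j | ρ j ∈ K}.Finite := by
  refine (hK.inter_riemannZetaZeros_finite.biUnion (t := fun s => {j | ρ j = s})
    fun s _ => ?_).subset fun j hj => mem_biUnion (x := ρ j) ⟨hj, h.zero j⟩ rfl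
  rcases eq_empty_or_nonempty {j | ρ j = s} with e | ⟨j, rfl⟩
  · rw [e]; exact finite_empty
  refine encard_ne_top_iff.1 fun t => ?_
  rw [h.mult _ (h.pos j), analyticOrderAt_eq_top] at t
  exact infinite_of_mem_nhds (ρ j) (inter_mem (closedBall_mem_nhds _ one_pos) t)
    (isCompact_closedBall (ρ j) 1).inter_riemannZetaZeros_finite

/-- local factorisation at height `u` -/
def Loc (ρ : ℕ → ℂ) (M u : ℝ) : Prop := ∃ (J : Finset ℕ) (A : ℂ) (l : ℂ → ℂ), A ≠ 0 ∧
  (J.card : ℝ) ≤ M ∧ (∀ j ∈ J, |(ρ j).im - u| ≤ 2) ∧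
  DifferentiableOn ℂ l (ball (4 + u * I) (38 / 10)) ∧
  (∀ s ∈ ball (4 + u * I : ℂ) (38 / 10), riemannZeta s = A * (∏ j ∈ J, (s - ρ j)) * exp (l s)) ∧
  ∀ s, ‖s - (4 + u * I)‖ ≤ 37 / 10 → ‖deriv l s‖ ≤ M ∧ ‖deriv (deriv l) s‖ ≤ M

theorem Zs.loc (h : Zs ρ) : ∀ᶠ T : ℝ in atTop, ∀ u, T + 4 ≤ u → u + 4 ≤ 2 * T →
    Loc ρ (10 ^ 10 * Real.log T) u := by
  obtain ⟨m, m0, hm⟩ := zeta_lower
  filter_upwards [zeta_upper', eventually_ge_atTop 1, eventually_ge_atTop (1 / m),
    Real.tendsto_log_atTop.eventually_ge_atTop 1] with T hU T1 T2 L1 u A1 A2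
  set L := Real.log T with hL
  have eT : Real.exp L = T := Real.exp_log (by linarith)
  set c : ℂ := 4 + u * I with hc
  have box : ∀ z ∈ ball c (39 / 10), |z.re - 4| < 39 / 10 ∧ |z.im - u| < 39 / 10 := fun z hz => by
    have := mem_ball_iff_norm.1 hz
    have a := abs_re_le_norm (z - c)
    have b := abs_im_le_norm (z - c)
    simp [hc] at a b
    exact ⟨by simp [hc] at this; linarith, by simp [hc] at this; linarith⟩
  have pos : ∀ z ∈ ball c (39 / 10), 0 < z.im := fun z hz => by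
    linarith [(abs_lt.1 (box z hz).2).1]
  have hsub : ball c (38 / 10) ⊆ ball c (39 / 10) := ball_subset_ball (by norm_num)
  have fin : {j | ρ j ∈ ball c (38 / 10)}.Finite :=
    (h.fin (isCompact_closedBall c (38 / 10))).subset fun j hj => ball_subset_closedBall hj
  classical
  set J := fin.toFinset with hJ
  have mem : ∀ j, j ∈ J ↔ ρ j ∈ ball c (38 / 10) := fun j => fin.mem_toFinset
  have dz : DifferentiableOn ℂ riemannZeta (ball c (39 / 10)) := fun z hz =>
    (diff_zeta (pos z hz).ne').differentiableWithinAt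
  obtain ⟨g, hg, e⟩ := factor_mult isOpen_ball dz ρ J (fun j hj => hsub ((mem j).1 hj))
    fun s hs => by
      rw [← h.mult s (pos s hs), ← encard_coe_eq_coe_finsetCard]
      exact encard_le_encard fun j hj => (Finset.mem_filter.1 (Finset.mem_coe.1 hj)).2
  have g0 : ∀ z ∈ ball c (38 / 10), g z ≠ 0 := fun z hz => by
    have a := hg.analyticAt (isOpen_ball.mem_nhds (hsub hz))
    have b := ord_prod ρ J a
    rw [← analyticOrderAt_congr (eventually_of_mem (isOpen_ball.mem_nhds (hsub hz)) e),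
      ← h.mult z (pos z (hsub hz)), show {j | ρ j = z} = (J.filter fun j => ρ j = z : Finset ℕ) from
        Set.ext fun j => by
          simp only [mem_ofPred_eq, Finset.coe_filter, mem]
          exact ⟨fun q => ⟨q ▸ hz, q⟩, fun q => q.2⟩, encard_coe_eq_coe_finsetCard] at b
    refine a.analyticOrderAt_eq_zero.1 ?_
    nth_rw 1 [← add_zero (((J.filter fun j => ρ j = z).card : ℕ) : ℕ∞)] at b
    exact (WithTop.add_left_cancel (ENat.natCast_ne_top _) b).symm
  obtain ⟨cnt, l, hl, el, bd⟩ := local_fac (f := riemannZeta) hg (fun j => (mem j).1) e g0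
    (A := 2 * L) (by linarith) (fun z hz => by
      have a := abs_lt.1 (box z hz).1
      have b := abs_lt.1 (box z hz).2
      exact hU z (by linarith) (by linarith) (by linarith) (by linarith))
    (by
      refine le_trans ?_ (hm c (by simp [hc]))
      rw [Real.exp_neg, two_mul, Real.exp_add, eT, inv_le_comm₀ (by positivity) m0, ← one_div]
      nlinarith)
  refine ⟨J, g c, l, g0 c (mem_ball_self (by norm_num)), by linarith, fun j hj => ?_, hl,
    fun s hs => by rw [e s (hsub hs), el s hs]; ring, fun s hs =>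
      ⟨by linarith [(bd s hs).1], by linarith [(bd s hs).2]⟩⟩
  have a := mem_ball_iff_norm.1 ((mem j).1 hj)
  have b := pow_le_pow_left₀ (norm_nonneg _) a.le 2
  rw [Complex.sq_norm, normSq_apply] at b
  have r := h.line (h.pos j) (h.zero j)
  simp [hc, r] at b
  exact abs_le_of_sq_le_sq (by nlinarith) (by norm_num)

/-- the logarithmic derivative -/
noncomputable def ZZ (s : ℂ) : ℂ := logDeriv riemannZeta s

lemma near {u : ℝ} {s : ℂ} (h1 : 1 / 2 ≤ s.re) (h2 : s.re ≤ 7) (h3 : |s.im - u| ≤ 1) :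
    ‖s - (4 + u * I)‖ ≤ 37 / 10 := by
  refine le_of_sq_le_sq ?_ (by norm_num)
  rw [Complex.sq_norm, normSq_apply]
  have := abs_le.1 h3
  simp
  nlinarith

lemma Zs.frac (h : Zs ρ) {J : Finset ℕ} {A : ℂ} {l : ℂ → ℂ} {c : ℂ} (A0 : A ≠ 0)
    (hl : DifferentiableOn ℂ l (ball c (38 / 10)))
    (e : ∀ s ∈ ball c (38 / 10), riemannZeta s = A * (∏ j ∈ J, (s - ρ j)) * exp (l s)) {s : ℂ}
    (h1 : ‖s - c‖ ≤ 37 / 10) (h2 : 1 / 2 < s.re) :
    ZZ s = ∑ j ∈ J, (s - ρ j)⁻¹ + deriv l s := by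
  have m : ball c (38 / 10) ∈ 𝓝 s := isOpen_ball.mem_nhds (mem_ball_iff_norm.2 (by linarith))
  have ne : ∀ j ∈ J, s - ρ j ≠ 0 := fun j _ q => by
    have := h.line (h.pos j) (h.zero j)
    rw [← sub_eq_zero.1 q] at this; linarith
  have d := hl.differentiableAt m
  rw [ZZ, (logDeriv_congr_nhds (eventually_of_mem m e)).eq_of_nhds,
    logDeriv_mul (f := fun s => A * ∏ j ∈ J, (s - ρ j)) (g := fun s => exp (l s)) s
      (mul_ne_zero A0 (Finset.prod_ne_zero_iff.2 ne)) (exp_ne_zero _) (by fun_prop) d.cexp,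
    logDeriv_const_mul s A A0, logDeriv_prod (f := fun j s => s - ρ j) ne fun _ _ => by fun_prop]
  congr 1
  · exact Finset.sum_congr rfl fun j _ => by simp [logDeriv_apply]
  · rw [logDeriv_apply, d.hasDerivAt.cexp.deriv]; field_simp

lemma Zs.inv_le (h : Zs ρ) (j : ℕ) {s : ℂ} {a : ℝ} (a0 : 0 < a) (h2 : a ≤ s.re - 1 / 2) :
    ‖(s - ρ j)⁻¹‖ ≤ a⁻¹ := by
  rw [norm_inv]
  refine inv_anti₀ a0 (le_trans ?_ (re_le_norm _))
  rw [sub_re, h.line (h.pos j) (h.zero j)]; exact h2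

lemma Zs.crude (h : Zs ρ) {M a : ℝ} {s : ℂ} (hL : Loc ρ M s.im) (a0 : 0 < a) (a1 : a ≤ 1)
    (h2 : a ≤ s.re - 1 / 2) (h3 : s.re ≤ 7) : ‖ZZ s‖ ≤ 2 * M / a := by
  obtain ⟨J, A, l, A0, cnt, -, hl, e, bd⟩ := hL
  have n := near (u := s.im) (s := s) (by linarith) h3 (by simp)
  rw [h.frac A0 hl e n (by linarith)]
  have b := norm_sum_le_of_le J fun j _ => h.inv_le j a0 h2
  rw [Finset.sum_const, nsmul_eq_mul] at b
  have M0 : 0 ≤ M := le_trans (by positivity) cnt
  have i : 1 ≤ a⁻¹ := (one_le_inv₀ a0).2 a1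
  refine (norm_add_le_of_le b (bd s n).1).trans ?_
  rw [div_eq_mul_inv]
  nlinarith

lemma ratio {s w : ℂ} {M : ℝ} (h : ∀ t ∈ Icc (0 : ℝ) 1, s + t * w ≠ 1 ∧
    riemannZeta (s + t * w) ≠ 0 ∧ ‖ZZ (s + t * w)‖ ≤ M) :
    ‖riemannZeta (s + w) / riemannZeta s‖ ≤ Real.exp (M * ‖w‖) := by
  have d : ∀ t ∈ Icc (0 : ℝ) 1, HasDerivAt (fun t : ℝ => riemannZeta (s + t * w))
      (deriv riemannZeta (s + t * w) * w) t := fun t ht => by
    have a := (differentiableAt_riemannZeta (h t ht).1).hasDerivAt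
    have b : HasDerivAt (fun z : ℂ => s + z * w) w t := by
      simpa using ((hasDerivAt_id (t : ℂ)).mul_const w).const_add s
    exact (a.comp (t : ℂ) b).comp_ofReal
  have := norm_le_gronwallBound_of_norm_deriv_right_le (δ := ‖riemannZeta s‖) (K := M * ‖w‖)
    (ε := 0) (fun t ht => (d t ht).continuousAt.continuousWithinAt)
    (fun t ht => (d t (Ico_subset_Icc_self ht)).hasDerivWithinAt) (by simp)
    (fun t ht => by
      obtain ⟨-, b, c⟩ := h t (Ico_subset_Icc_self ht)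
      rw [ZZ, logDeriv_apply, norm_div, div_le_iff₀ (norm_pos_iff.2 b)] at c
      rw [norm_mul, add_zero, mul_right_comm]
      exact mul_le_mul_of_nonneg_right c (norm_nonneg _)) 1 (by simp)
  have z := (h 0 (by simp)).2.1
  simp only [ofReal_zero, zero_mul, add_zero] at z
  rw [gronwallBound_ε0] at this
  rw [norm_div, div_le_iff₀' (norm_pos_iff.2 z)]
  simpa using this

end Pool.Agent.MP_f0209c_nt.Pp
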