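import Pool.Agent.MP_f0209c_nt.Pp.Mom
import Pool.Agent.MP_f0209c_nt.Pp.Loc

/-! The logarithmic derivative near the critical line is controlled by short prime sums. -/

namespace Pool.Agent.MP_f0209c_nt.Pp
open Complex Set Filter Topology ArithmeticFunction Ch MeasureTheory

lemma exists_bump {c r R : ℝ} (r0 : 0 < r) (r1 : r < R) (h1 : -1 ≤ c - R) (h2 : c + R ≤ 1) :
    ∃ φ : ℝ → ℝ, Sm φ ∧ (∀ y, 0 ≤ φ y ∧ φ y ≤ 1) ∧ (∀ y, |y - c| ≤ r → φ y = 1) ∧
      ∀ y, R ≤ |y - c| → φ y = 0 := by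
  let f : ContDiffBump c := ⟨r, R, r0, r1⟩
  refine ⟨f, ⟨f.contDiff, ?_⟩, fun y => ⟨f.nonneg, f.le_one⟩,
    fun y hy => f.one_of_mem_closedBall hy, fun y hy => f.zero_of_le_dist hy⟩
  rw [f.tsupport_eq, Real.closedBall_eq_Icc]
  exact Icc_subset_Icc h1 h2

lemma inv_diff {z w : ℂ} {d m : ℝ} (m0 : 0 < m) (hw : m ≤ ‖w‖) (z0 : z ≠ 0) (hd : ‖z - w‖ ≤ d) :
    ‖w⁻¹ - z⁻¹‖ ≤ d * (1 + d / m) * ‖z⁻¹‖ ^ 2 := by
  have w0 : 0 < ‖w‖ := by linarith
  have z1 := norm_pos_iff.2 z0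
  have d0 : 0 ≤ d := (norm_nonneg _).trans hd
  have a : ‖z‖ ≤ (1 + d / m) * ‖w‖ := by
    have := norm_le_norm_sub_add z w
    have b : d ≤ d / m * ‖w‖ := by
      rw [div_mul_eq_mul_div, le_div_iff₀ m0]; gcongr
    linarith
  rw [inv_sub_inv (norm_pos_iff.1 w0) z0, norm_div, norm_mul, norm_inv, inv_pow, ← div_eq_mul_inv,
    div_le_div_iff₀ (by positivity) (by positivity)]
  calc _ ≤ d * (((1 + d / m) * ‖w‖) * ‖z‖) := by rw [sq]; gcongr
    _ = _ := by ring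

lemma diff_ZZ {s : ℂ} (h1 : s ≠ 1) (h2 : riemannZeta s ≠ 0) : DifferentiableAt ℂ ZZ s :=
  ((analyticOn_riemannZeta s h1).deriv.differentiableAt).div (differentiableAt_riemannZeta h1) h2

lemma ne_one {s : ℂ} (h : 0 < s.im) : s ≠ 1 := fun e => by simp [e] at h

lemma int_wt {l : ℝ} (l0 : 0 < l) {a b : ℝ} (h : a ≤ b) : ∫ y in a..b, wt l y ≤ Real.pi := by
  rw [intervalIntegral.integral_of_le h, ← (wt_int l0).2]
  exact setIntegral_le_integral (wt_int l0).1 (ae_of_all _ fun y => (wt_pos l0 y).le)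

variable {ρ : ℕ → ℂ}

lemma Zs.crude' (hz : Zs ρ) : ∀ᶠ T : ℝ in atTop, ∀ (s : ℂ) (α : ℝ), T + 4 ≤ s.im → s.im + 4 ≤ 2 * T →
    0 < α → α ≤ 1 → α ≤ s.re - 1 / 2 → s.re ≤ 7 → ‖ZZ s‖ ≤ 2 * (10 ^ 10 * Real.log T) / α :=
  hz.loc.mono fun _ h s _ h1 h2 => hz.crude (h s.im h1 h2)

lemma Zs.selberg (hz : Zs ρ) {φ : ℝ → ℝ} (h : Sm φ) (φ0 : φ 0 = 1) : ∃ a C : ℝ, 1 ≤ a ∧ 0 < C ∧
    ∀ᶠ T : ℝ in atTop, ∀ (u l α : ℝ) (s : ℂ), 11 / 10 * T ≤ u → u ≤ 19 / 10 * T → 2 * a ≤ l →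
      l ≤ Real.log T → 0 < α → α ≤ s.re - 1 / 2 → s.re - 1 / 2 ≤ a / l → |s.im - u| ≤ a / l →
      ‖ZZ s‖ ≤ C / (α * l) * (‖∑' n, LSeries.term (fun n => (Λ n : ℂ))
        ((1 / 2 + a / l : ℝ) + u * I) n * φ (Real.log n / l)‖ + Real.log T) := by
  obtain ⟨K, K0, hK⟩ := h.kk_le 2
  set a := K + 1 with ha
  have a1 : 1 ≤ a := by linarith
  refine ⟨a, 7 * a ^ 2 * (1 + 3 * K * 10 ^ 10) + a * 10 ^ 10, a1, by positivity, ?_⟩
  filter_upwards [hz.loc, hz.crude', h.smooth 1, eventually_ge_atTop 80,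
    big_T 2 one_pos (2 * 10 ^ 10), Real.tendsto_log_atTop.eventually_ge_atTop 1]
    with T hL hC hS T1 T2 L1 u l α s u1 u2 l1 l2 α0 s1 s2 s3
  set L := Real.log T
  set M := 10 ^ 10 * L with hM
  have l0 : 0 < l := by linarith
  have d0 : 0 < a / l := by positivity
  have d1 : a / l ≤ 1 / 2 := by rw [div_le_iff₀ l0]; linarith
  have d2 : (a / l)⁻¹ ≤ l := by rw [inv_div]; exact div_le_self l0.le a1
  have M0 : 0 ≤ M := by positivity
  set z : ℂ := (1 / 2 + a / l : ℝ) + u * I with hzd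
  have zr : z.re = 1 / 2 + a / l := by simp [hzd, -ofReal_div]
  have zi : z.im = u := by simp [hzd, -ofReal_div]
  have rect : ∀ w : ℂ, 0 ≤ w.re → w.re ≤ 4 → |w.im| ≤ T / 20 →
      DifferentiableAt ℂ ZZ (z + w) ∧ ‖ZZ (z + w)‖ ≤ 2 * M * l := fun w w1 w2 w3 => by
    have := abs_le.1 w3
    have p : 0 < (z + w).im := by rw [add_im, zi]; linarith
    refine ⟨diff_ZZ (ne_one p) (hz.ne p (by rw [add_re, zr]; linarith)), (hC _ (a / l)
      (by rw [add_im, zi]; linarith) (by rw [add_im, zi]; linarith) d0 (by linarith)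
      (by rw [add_re, zr]; linarith) (by rw [add_re, zr]; linarith)).trans ?_⟩
    rw [div_eq_mul_inv]; gcongr
  have h1 := hS l (fun s => -ZZ s) (fun n => (Λ n : ℂ)) z (by linarith) l2 (by rw [zr]; linarith)
    (fun n => by
      rw [norm_real, Real.norm_of_nonneg vonMangoldt_nonneg]
      exact vonMangoldt_le_log.trans ((Real.log_le_self n.cast_nonneg).trans
        (by exact_mod_cast Nat.le_self_pow two_ne_zero n)))
    (fun w w1 w2 w3 => ⟨(rect w w1 w2 w3).1.neg, by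
      rw [norm_neg]
      refine (rect w w1 w2 w3).2.trans (le_trans ?_ T2)
      rw [hM]; nlinarith⟩)
    fun y => by
      rw [LSeries_vonMangoldt_eq_deriv_riemannZeta_div (by simp [zr]; linarith), ZZ, logDeriv_apply,
        neg_div]
  set S := ∑' n, LSeries.term (fun n => (Λ n : ℂ)) z n * φ (Real.log n / l)
  obtain ⟨J, A, g, A0, cnt, -, hg, e, bd⟩ := hL u (by linarith) (by linarith)
  set Z := ∑ j ∈ J, (z - ρ j)⁻¹ with hZ
  set Q := ∑ j ∈ J, ‖(z - ρ j)⁻¹‖ ^ 2 with hQ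
  have Q0 : 0 ≤ Q := by positivity
  have lo : ∀ (w : ℂ) j, w.re - 1 / 2 ≤ ‖w - ρ j‖ := fun w j => le_trans
    (by rw [sub_re, hz.line (hz.pos j) (hz.zero j)]) (re_le_norm _)
  have ne : ∀ j, z - ρ j ≠ 0 := fun j => norm_pos_iff.1 (by linarith [lo z j])
  have nZ : ‖Z‖ ≤ M * l := by
    have b := norm_sum_le_of_le J fun j _ => (hz.inv_le j d0 (s := z) (by linarith)).trans d2
    rw [Finset.sum_const, nsmul_eq_mul] at b
    exact b.trans (by gcongr)
  have cmp : ∀ (w : ℂ) (d m : ℝ), 0 < m → m ≤ w.re - 1 / 2 → w.re ≤ 7 → |w.im - u| ≤ 1 →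
      ‖z - w‖ ≤ d → ‖ZZ w - Z‖ ≤ d * (1 + d / m) * Q + M := fun w d m m0 w1 w2 w3 w4 => by
    have n := near (u := u) (s := w) (by linarith) w2 w3
    rw [hz.frac A0 hg e n (by linarith), add_sub_right_comm, hZ, ← Finset.sum_sub_distrib, hQ,
      Finset.mul_sum]
    exact norm_add_le_of_le (norm_sum_le_of_le _ fun j _ => inv_diff m0 (w1.trans (lo w j)) (ne j)
      (by simpa using w4)) (bd w n).1
  have pt : ∀ y : ℝ, |y| ≤ T / 20 → ‖-ZZ (z + y * I) + Z‖ ≤ (1 + l * |y|) ^ 2 * (Q / l + 3 * M) :=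
    fun y hy => by
      have y0 := abs_nonneg y
      have y1 : 0 ≤ l * |y| := by positivity
      have q : 0 ≤ Q / l := by positivity
      rcases le_total |y| 1 with c | c
      · have b := cmp (z + y * I) |y| (a / l) d0 (by simp [zr]) (by simp [zr]; linarith)
          (by simpa [zi] using c) (by simp)
        rw [← norm_neg, neg_add, neg_neg, ← sub_eq_add_neg]
        refine b.trans ?_
        have b1 : |y| / (a / l) ≤ l * |y| := by rw [div_eq_inv_mul]; gcongr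
        have b2 : |y| * (1 + |y| / (a / l)) * Q ≤ (1 + l * |y|) ^ 2 * (Q / l) := by
          calc _ = l * |y| * (1 + |y| / (a / l)) * (Q / l) := by field_simp
            _ ≤ (1 + l * |y|) * (1 + l * |y|) * (Q / l) := by gcongr; linarith
            _ = _ := by ring
        nlinarith [mul_nonneg M0 y1, mul_nonneg M0 (sq_nonneg (l * |y|))]
      · have b := (rect (y * I) (by simp) (by simp) (by simpa using hy)).2
        have b1 : l ≤ (1 + l * |y|) ^ 2 := by nlinarith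
        refine (norm_add_le_of_le (norm_neg (ZZ _) ▸ b) nZ).trans ?_
        nlinarith [mul_le_mul_of_nonneg_left b1 M0, mul_nonneg (sq_nonneg (1 + l * |y|)) q]
  have hk : ∀ y : ℝ, (1 + l * |y|) ^ 2 * ‖kk φ l (y * I)‖ ≤ K * wt l y := fun y => by
    simpa using hK l 0 y l0 le_rfl
  have V0 : -(T / 20) ≤ T / 20 := by linarith
  have ck : Continuous fun y : ℝ => kk φ l (y * I) := (h.diff_kk l).continuous.comp (by fun_prop)
  have h2 : ‖∫ y in -(T / 20)..(T / 20), kk φ l (y * I) * (-ZZ (z + y * I) + Z)‖ ≤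
      K * (Q / l + 3 * M) * Real.pi := by
    refine (intervalIntegral.norm_integral_le_of_norm_le V0 (g := fun y => K * (Q / l + 3 * M) *
      wt l y) (ae_of_all _ fun y hy => ?_) ((wt_int l0).1.intervalIntegrable.const_mul _)).trans ?_
    · rw [norm_mul]
      refine (mul_le_mul_of_nonneg_left (pt y (abs_le.2 ⟨hy.1.le, hy.2⟩)) (norm_nonneg _)).trans ?_
      rw [← mul_assoc, mul_comm ‖_‖, mul_right_comm K]
      exact mul_le_mul_of_nonneg_right (hk y) (by positivity)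
    · rw [intervalIntegral.integral_const_mul]
      exact mul_le_mul_of_nonneg_left (int_wt l0 V0) (by positivity)
  have h3 := tail_le (g := fun y : ℝ => kk φ l (y * I)) (by simpa using h.int_kk (a := 0) l0 le_rfl)
    (V := T / 20) (M := K / l) (by linarith) (by positivity) l0 fun y hy => by
      have b0 := le_mul_of_one_le_right l0.le (show 1 ≤ |y| by linarith)
      have b1 : l ≤ (1 + l * |y|) ^ 2 := by nlinarith
      rw [div_mul_eq_mul_div, le_div_iff₀' l0]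
      exact (mul_le_mul_of_nonneg_right b1 (norm_nonneg _)).trans (hk y)
  have h4 := h.inv (a := 0) l0 le_rfl 0
  simp only [ofReal_zero, zero_add, mul_zero, exp_zero, mul_one, zero_div, φ0, ofReal_one] at h4
  have cz : ContinuousOn (fun y : ℝ => -ZZ (z + y * I)) (uIcc (-(T / 20)) (T / 20)) := fun y hy => by
    rw [uIcc_of_le V0] at hy
    exact (ContinuousAt.comp (f := fun y : ℝ => z + y * I) (rect (y * I) (by simp) (by simp)
      (by simpa using abs_le.2 hy)).1.continuousAt (by fun_prop)).neg.continuousWithinAt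
  simp only [mul_add] at h2
  rw [intervalIntegral.integral_add (f := fun y : ℝ => kk φ l (y * I) * -ZZ (z + y * I))
    (g := fun y : ℝ => kk φ l (y * I) * Z) (ck.continuousOn.mul cz).intervalIntegrable
    ((ck.mul continuous_const).intervalIntegrable _ _), intervalIntegral.integral_mul_const] at h2
  rw [h4] at h3
  have p0 := Real.pi_pos
  have h5 : ‖S + Z‖ ≤ 1 + K / 2 * (Q / l) + 2 * K * M := by
    have b := norm_mul_le_of_le h3 nZ
    have b1 := norm_sub_le_of_le (norm_add_le_of_le h2 b) h1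
    rw [show ∀ X Y : ℂ, X + Y * Z + (2 * Real.pi - Y) * Z - (X - 2 * Real.pi * S) =
      (2 * Real.pi : ℝ) * (S + Z) from fun X Y => by push_cast; ring, norm_mul, norm_real,
      Real.norm_of_nonneg (by positivity), show K / l * Real.pi * (M * l) = K * M * Real.pi by
        field_simp] at b1
    refine le_of_mul_le_mul_left (b1.trans ?_) (show 0 < 2 * Real.pi by positivity)
    nlinarith [Real.pi_gt_three]
  have h6 : Z.re = a * (Q / l) := by
    rw [hZ, re_sum, hQ, mul_div_assoc', mul_div_right_comm, Finset.mul_sum]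
    refine Finset.sum_congr rfl fun j _ => ?_
    rw [inv_re, norm_inv, inv_pow, Complex.sq_norm, sub_re, zr, hz.line (hz.pos j) (hz.zero j)]
    ring
  have q : 0 ≤ Q / l := by positivity
  have tri : ‖Z‖ ≤ ‖S + Z‖ + ‖S‖ := by simpa using norm_sub_le (S + Z) S
  set B := ‖S‖ + 1 + 2 * K * M with hB
  have h7 : Q / l ≤ B := by nlinarith [re_le_norm Z]
  have h8 : ‖Z‖ ≤ a * B := by nlinarith
  have i1 : 1 ≤ a / (α * l) := by
    rw [le_div_iff₀ l0] at s2
    rw [le_div_iff₀ (by positivity)]; nlinarith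
  have h9 := cmp s (2 * (a / l)) α α0 s1 (by linarith) (by linarith) (by
    refine (norm_le_abs_re_add_abs_im _).trans ?_
    rw [sub_re, sub_im, zr, zi, abs_sub_comm u, abs_of_nonneg (by linarith)]
    linarith)
  have B0 : 0 ≤ B := by positivity
  set x := (α * l)⁻¹ with hx
  rw [div_eq_mul_inv, ← hx] at i1
  have x0 : 0 ≤ x := by positivity
  have h10 : 2 * (a / l) * (1 + 2 * (a / l) / α) * Q ≤ 2 * a * (3 * (a * x)) * B := by
    calc _ = 2 * a * (1 + 2 * (a * x)) * (Q / l) := by rw [hx]; field_simp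
      _ ≤ _ := by gcongr; linarith
  have h11 : B ≤ (1 + 3 * K * 10 ^ 10) * (‖S‖ + L) := by
    rw [hB, hM]
    nlinarith [norm_nonneg S, mul_nonneg K0.le (norm_nonneg S), mul_nonneg K0.le (by linarith : 0 ≤ L)]
  have h12 : ‖ZZ s‖ ≤ 7 * a ^ 2 * x * B + a * x * M := by
    have := norm_le_norm_sub_add (ZZ s) Z
    nlinarith [mul_le_mul_of_nonneg_right i1 M0,
      mul_le_mul_of_nonneg_right i1 (mul_nonneg (by linarith : 0 ≤ a) B0)]
  refine h12.trans ?_
  rw [div_eq_mul_inv, ← hx, hM]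
  nlinarith [mul_le_mul_of_nonneg_left h11 (by positivity : 0 ≤ 7 * a ^ 2 * x),
    mul_nonneg (mul_nonneg (by linarith : 0 ≤ a) x0) (norm_nonneg S)]

theorem Zs.env (hz : Zs ρ) {c : ℝ} (c0 : 0 < c) (B : ℝ) : ∃ E : ℝ → ℝ → ℝ,
    (∀ A : ℝ, 0 ≤ A → ∃ C : ℝ, 0 < C ∧ ∀ᶠ T : ℝ in atTop, ∀ τ, Mv (T / Real.log T ^ 2)
      (fun x => Real.exp (A * E T (τ + x))) (C * (T / Real.log T ^ 2))) ∧
    ∀ᶠ T : ℝ in atTop, ∀ (u : ℝ) (s : ℂ), 11 / 10 * T ≤ u → u ≤ 19 / 10 * T →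
      c / Real.log T ≤ s.re - 1 / 2 → s.re - 1 / 2 ≤ B / Real.log T →
      |s.im - u| ≤ B / Real.log T → ‖ZZ s‖ ≤ Real.log T * E T u := by
  obtain ⟨φ, h, hφ, φ1, -⟩ := exists_bump (c := 0) (r := 1 / 2) (R := 1) (by norm_num) (by norm_num)
    (by norm_num) (by norm_num)
  have hφ' : ∀ y, |φ y| ≤ 1 := fun y => abs_le.2 ⟨by linarith [(hφ y).1], (hφ y).2⟩
  obtain ⟨a, C, a1, C0, h1⟩ := hz.selberg h (φ1 0 (by norm_num))
  obtain ⟨D, D1, h2⟩ := qq_ge hφ' h
  obtain ⟨E, e1, e2⟩ := env_mom hφ' a1 (k₀ := ⌈B⌉₊ + 1) (by omega)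
  refine ⟨fun T u => C / c * (E T u + D), fun A A0 => ?_, ?_⟩
  · obtain ⟨K, K0, hK⟩ := e1 (A * (C / c)) (by positivity)
    refine ⟨Real.exp (A * (C / c) * D) * K, by positivity, hK.mono fun T hT τ => ?_⟩
    refine ((hT τ).mul (Real.exp_pos (A * (C / c) * D)).le).mono (fun x => le_of_eq ?_)
      (le_of_eq (by ring))
    rw [← Real.exp_add]; ring_nf
  filter_upwards [h1, e2, Real.tendsto_log_atTop.eventually_gt_atTop 0]
    with T h1 e2 L0 u s u1 u2 s1 s2 s3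
  obtain ⟨l, l1, l2, l3⟩ := e2 u
  set L := Real.log T
  have l0 : 0 < l := by linarith
  have k := Nat.le_ceil B
  have k0 : (0 : ℝ) ≤ ⌈B⌉₊ := by positivity
  push_cast at l2
  have b : B / L ≤ a / l := by
    rw [div_le_div_iff₀ L0 l0]; nlinarith
  refine (h1 u l (c / L) s u1 u2 l1 (by nlinarith) (by positivity) s1 (s2.trans b)
    (s3.trans b)).trans ?_
  calc _ ≤ C / (c / L * l) * (l * (qq φ a l u + D) + L) := by gcongr; exact h2 a l u a1 l1
    _ = L * (C / c * (qq φ a l u + L / l + D)) := by field_simp; ring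
    _ ≤ _ := by gcongr

end Pool.Agent.MP_f0209c_nt.Pp
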