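import Pool.Agent.MP_f0209c_nt.Pp.Ari
import Pool.Agent.MP_f0209c_nt.Pp.Sel

/-! The diagonal term. -/

namespace Pool.Agent.MP_f0209c_nt.Pp
open Complex Filter Topology ArithmeticFunction MeasureTheory

lemma tend_div (w : ℂ) : Tendsto (fun L : ℝ => w / L) atTop (𝓝 0) := by
  simpa [div_eq_mul_inv] using
    ((continuous_ofReal.tendsto 0).comp tendsto_inv_atTop_zero).const_mul w

lemma zeta_lim {w : ℂ} (hw : w ≠ 0) :
    Tendsto (fun L : ℝ => riemannZeta (1 + w / L) / L) atTop (𝓝 w⁻¹) := by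
  have t : Tendsto (fun L : ℝ => 1 + w / L) atTop (𝓝[≠] 1) := tendsto_nhdsWithin_iff.2
    ⟨by simpa using (tend_div w).const_add 1, (eventually_gt_atTop 0).mono fun L hL => by
      simp [hw, hL.ne']⟩
  have := (riemannZeta_residue_one.comp t).const_mul w⁻¹
  rw [mul_one] at this
  refine this.congr fun L => ?_
  simp only [Function.comp]
  field_simp; ring

lemma ratio_lim {w w' : ℂ} (hw : w ≠ 0) (hw' : w' ≠ 0) : Tendsto
    (fun L : ℝ => riemannZeta (1 + w / L) / riemannZeta (1 + w' / L)) atTop (𝓝 (w' / w)) := by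
  have := (zeta_lim hw).div (zeta_lim hw') (inv_ne_zero hw')
  rw [inv_div_inv] at this
  refine this.congr' ((eventually_gt_atTop 0).mono fun L hL => ?_)
  exact div_div_div_cancel_right₀ (by exact_mod_cast hL.ne') _ _

lemma ne_of_re {w : ℂ} (h : 0 < w.re) : w ≠ 0 := fun e => by simp [e] at h

lemma ff_lim {w : ℂ} (hw : 0 < w.re) (h : ℝ) {b : ℝ} (b0 : 0 ≤ b) :
    Tendsto (fun L : ℝ => LSeries (ff (h / L) (b / L)) (1 + w / L)) atTop
      (𝓝 ((w - h * I + b) / (w - h * I) * ((w + b) / (w + b + b)))) := by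
  obtain ⟨K, hK⟩ := euler_ratio
  have re : ∀ {L : ℝ} {w : ℂ}, 0 < L → 0 < w.re → 1 < (1 + w / L).re := fun L0 h => by
    rw [add_re, one_re, div_ofReal_re]; linarith [div_pos h L0]
  have t0 : Tendsto (fun L : ℝ => Real.exp (K * (b / L)) - 1) atTop (𝓝 0) := by
    simpa using ((tendsto_const_nhds.div_atTop tendsto_id).const_mul K).rexp.sub_const 1
  have t1 := tendsto_iff_norm_sub_tendsto_zero.2 (squeeze_zero' (Eventually.of_forall fun _ =>
    norm_nonneg _) ((eventually_gt_atTop 0).mono fun L L0 => hK (h / L) (b / L) (1 + w / L)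
      (by positivity) (re L0 hw)) t0)
  have p1 : 0 < (w - h * I).re := by simpa using hw
  have p2 : 0 < (w - h * I + b).re := by simp; linarith
  have p3 : 0 < (w + b).re := by simp; linarith
  have p4 : 0 < (w + b + b).re := by simp; linarith
  have := t1.mul ((ratio_lim (ne_of_re p1) (ne_of_re p2)).mul
    (ratio_lim (ne_of_re p4) (ne_of_re p3)))
  rw [one_mul] at this
  refine this.congr' ((eventually_gt_atTop 0).mono fun L L0 => ?_)
  have n1 := riemannZeta_ne_zero_of_one_lt_re (re L0 p1)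
  have n2 := riemannZeta_ne_zero_of_one_lt_re (re L0 p2)
  have n3 := riemannZeta_ne_zero_of_one_lt_re (re L0 p3)
  have n4 := riemannZeta_ne_zero_of_one_lt_re (re L0 p4)
  dsimp only
  rw [show (1 + w / L + -((h / L : ℝ) * I) + (b / L : ℝ) : ℂ) = 1 + (w - h * I + b) / L by
      push_cast; ring,
    show (1 + w / L + (b / L : ℝ) + (b / L : ℝ) : ℂ) = 1 + (w + b + b) / L by push_cast; ring,
    show (1 + w / L + -((h / L : ℝ) * I) : ℂ) = 1 + (w - h * I) / L by push_cast; ring,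
    show (1 + w / L + (b / L : ℝ) : ℂ) = 1 + (w + b) / L by push_cast; ring]
  generalize riemannZeta (1 + (w - h * I + b) / L) = z2 at *
  generalize riemannZeta (1 + (w + b + b) / L) = z4 at *
  generalize riemannZeta (1 + (w - h * I) / L) = z1 at *
  generalize riemannZeta (1 + (w + b) / L) = z3 at *
  field_simp

variable {φ : ℝ → ℝ}

lemma Sm.int0 (h : Sm φ) {l : ℝ} (l0 : 0 < l) : Integrable fun y : ℝ => kk φ l (y * I) := by
  simpa using h.int_kk (a := 0) l0 le_rfl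

lemma Sm.lim (h : Sm φ) {f : ℝ → ℕ → ℂ} {x M : ℝ} {F : ℝ → ℂ}
    (hs : ∀ᶠ L : ℝ in atTop, LSeriesSummable (f L) (1 + x / L : ℝ) ∧
      ∑' n, ‖LSeries.term (f L) (1 + x / L : ℝ) n‖ ≤ M)
    (hl : ∀ v : ℝ, Tendsto (fun L : ℝ => LSeries (f L) (1 + (x + v * I) / L)) atTop (𝓝 (F v))) :
    Tendsto (fun L : ℝ => ∑' n, LSeries.term (f L) (1 + x / L : ℝ) n * φ (Real.log n / L))
      atTop (𝓝 ((∫ v : ℝ, kk φ 1 (v * I) * F v) / (2 * Real.pi))) := by
  have e : ∀ L v : ℝ, (1 + (x + v * I) / L : ℂ) = (1 + x / L : ℝ) + (v / L : ℝ) * I := fun L v => by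
    push_cast; ring
  have i0 := h.int0 one_pos
  have := (tendsto_integral_filter_of_dominated_convergence (μ := volume)
    (F := fun (L v : ℝ) => kk φ 1 (v * I) * LSeries (f L) (1 + (x + v * I) / L))
    (fun v => ‖kk φ 1 (v * I)‖ * M)
    (hs.mono fun L hL => i0.1.mul (by
      simp only [e]
      exact ((cont_L hL.1).comp (continuous_id.div_const L)).aestronglyMeasurable))
    (hs.mono fun L hL => ae_of_all _ fun v => norm_mul_le_of_le le_rfl (by
      rw [e]
      exact (tsum_of_norm_bounded hL.1.norm.hasSum fun n => (norm_term_add _ _ _ n).le).trans hL.2))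
    (i0.norm.mul_const M) (ae_of_all _ fun v => (hl v).const_mul _)).div_const (2 * Real.pi)
  refine this.congr' ?_
  filter_upwards [hs, eventually_gt_atTop 0] with L hL L0
  have lc : (L : ℂ) ≠ 0 := by exact_mod_cast L0.ne'
  have pc : (Real.pi : ℂ) ≠ 0 := by exact_mod_cast Real.pi_pos.ne'
  have a := series_int hL.1 (h.int0 L0)
  have b := fun n : ℕ => h.inv (a := 0) L0 le_rfl (Real.log n)
  simp only [ofReal_zero, zero_add] at b
  simp only [b] at a
  have c := Measure.integral_comp_mul_left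
    (fun v : ℝ => kk φ 1 (v * I) * LSeries (f L) (1 + (x + v * I) / L)) L
  rw [abs_of_pos (inv_pos.2 L0), real_smul, ofReal_inv, eq_inv_mul_iff_mul_eq₀ lc,
    ← integral_const_mul] at c
  rw [← c, div_eq_iff (by simp [pc]), ← tsum_mul_right, integral_congr_ae (g := fun y : ℝ =>
    kk φ L (y * I) * LSeries (f L) ((1 + x / L : ℝ) + y * I)) (ae_of_all _ fun y => by
      dsimp only
      rw [e, mul_div_cancel_left₀ y L0.ne']
      simp only [kk, ofReal_one, one_mul, ofReal_mul, mul_assoc]),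
    ← a.tsum_eq]
  exact tsum_congr fun n => by ring

lemma Sm.int_res (h : Sm φ) {z : ℂ} (hz : 0 < z.re) :
    Integrable fun y : ℝ => kk φ 1 (y * I) * (z + y * I)⁻¹ :=
  (h.int0 one_pos).mul_bdd (c := z.re⁻¹) (Continuous.aestronglyMeasurable
    (Continuous.inv₀ (by fun_prop) fun y => ne_of_re (by simpa using hz))) (ae_of_all _ fun y => by
      rw [norm_inv]; exact inv_anti₀ hz (by simpa using re_le_norm (z + y * I)))

lemma Sm.res' (h : Sm φ) {z : ℂ} (hz : 0 < z.re) : ∫ y : ℝ, kk φ 1 (y * I) * (z + y * I)⁻¹ =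
    2 * Real.pi * ∫ x in (0 : ℝ)..1, φ x * exp (-z * x) := by
  rw [h.res hz, intervalIntegral.integral_of_le zero_le_one,
    setIntegral_eq_of_subset_of_forall_sdiff_eq_zero measurableSet_Ioi Set.Ioc_subset_Ioi_self
      fun x hx => by
        rw [h.zero ((not_le.1 fun q => hx.2 ⟨hx.1, q⟩).trans_le (le_abs_self x))]; simp]

lemma Sm.int_one (h : Sm φ) : ∫ y : ℝ, kk φ 1 (y * I) = 2 * Real.pi * φ 0 := by
  simpa using h.inv (a := 0) one_pos le_rfl 0

lemma split {g : ℝ → ℂ} (hg : Continuous g) {t M N : ℝ} (t0 : 0 ≤ t) (t1 : t ≤ 1) (M0 : 0 ≤ M)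
    (h1 : ∀ x, 0 ≤ x → x ≤ 1 - t → ‖g x‖ ≤ M) (h2 : ∀ x, 0 ≤ x → x ≤ 1 → ‖g x‖ ≤ N) :
    ‖∫ x in (0 : ℝ)..1, g x‖ ≤ M + N * t := by
  rw [← intervalIntegral.integral_add_adjacent_intervals (b := 1 - t) (hg.intervalIntegrable _ _)
    (hg.intervalIntegrable _ _)]
  refine norm_add_le_of_le ((intervalIntegral.norm_integral_le_of_norm_le_const fun x hx => ?_).trans
    (mul_le_of_le_one_right M0 (abs_le.2 ⟨by linarith, by linarith⟩)))
    ((intervalIntegral.norm_integral_le_of_norm_le_const fun x hx => ?_).trans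
      (by rw [sub_sub_cancel, abs_of_nonneg t0]))
  · rw [Set.uIoc_of_le (by linarith)] at hx; exact h1 x hx.1.le hx.2
  · rw [Set.uIoc_of_le (by linarith)] at hx; exact h2 x (by linarith [hx.1]) hx.2

lemma nexp {z : ℂ} (hz : 0 ≤ z.re) {x : ℝ} (hx : 0 ≤ x) : ‖exp (-z * x)‖ ≤ 1 := by
  rw [norm_exp, re_mul_ofReal, neg_re, Real.exp_le_one_iff]; nlinarith

/-- coefficients of the resonator -/
noncomputable def rf (φ : ℝ → ℝ) (β L : ℝ) : ArithmeticFunction ℂ :=
  ⟨fun n => mm 0 β n * φ (Real.log n / L), by simp⟩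

lemma rf_apply (φ : ℝ → ℝ) (β L : ℝ) (n : ℕ) : rf φ β L n = mm 0 β n * φ (Real.log n / L) := rfl

lemma conv_le {u v : ℕ → ℝ} (u0 : ∀ n, 0 ≤ u n) (v0 : ∀ n, 0 ≤ v n) (X : ℕ) :
    ∑ n ∈ Finset.Icc 1 X, ∑ x ∈ n.divisorsAntidiagonal, u x.1 * v x.2 ≤
      (∑ n ∈ Finset.Icc 1 X, u n) * ∑ n ∈ Finset.Icc 1 X, v n := by
  rw [← Finset.sum_biUnion fun m _ n _ ne => Finset.disjoint_left.2 fun x h1 h2 => ne
    ((Nat.mem_divisorsAntidiagonal.1 h1).1.symm.trans (Nat.mem_divisorsAntidiagonal.1 h2).1),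
    Finset.sum_mul_sum, ← Finset.sum_product']
  refine Finset.sum_le_sum_of_subset_of_nonneg (fun x hx => ?_) fun x _ _ => mul_nonneg (u0 _) (v0 _)
  obtain ⟨n, hn, hx⟩ := Finset.mem_biUnion.1 hx
  have a := Nat.fst_mem_divisors_of_mem_antidiagonal hx
  have b := Nat.snd_mem_divisors_of_mem_antidiagonal hx
  have c := (Finset.mem_Icc.1 hn).2
  exact Finset.mem_product.2 ⟨Finset.mem_Icc.2 ⟨Nat.pos_of_mem_divisors a,
    (Nat.divisor_le a).trans c⟩, Finset.mem_Icc.2 ⟨Nat.pos_of_mem_divisors b,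
      (Nat.divisor_le b).trans c⟩⟩

lemma err_le {φ ψ : ℝ → ℝ} (hφ : ∀ y, 0 ≤ φ y ∧ φ y ≤ 1)
    (hψ : ∀ x y, 0 ≤ x → x ≤ y → φ y ≠ 0 → φ x ≠ 1 → ψ x = 1) {β L : ℝ} (b0 : 0 ≤ β) (L0 : 0 < L)
    (h σ : ℝ) (X : ℕ) :
    ‖∑ n ∈ Finset.Icc 1 X, (mm (-(h * I)) 0 * rf φ β L) n * rf φ β L n * ex σ n -
      ∑ n ∈ Finset.Icc 1 X, LSeries.term (ff h β) σ n * φ (Real.log n / L)‖ ≤
      (∑ n ∈ Finset.Icc 1 X, ‖LSeries.term (mm (-(h * I)) 0) σ n‖) *
        ∑ n ∈ Finset.Icc 1 X, ‖LSeries.term (mm β 0) σ n * ψ (Real.log n / L)‖ := by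
  rw [← Finset.sum_sub_distrib]
  refine (norm_sum_le_of_le _ fun n hn => ?_).trans
    (conv_le (fun _ => norm_nonneg _) (fun _ => norm_nonneg _) X)
  have n0 : n ≠ 0 := by have := (Finset.mem_Icc.1 hn).1; omega
  rw [term_pw, pw_real σ n0, ff, pmul_apply, ← mm_mul (-(h * I)) 0 β, mul_apply, mul_apply, rf_apply,
    Finset.sum_mul, Finset.sum_mul, Finset.sum_mul, Finset.sum_mul, Finset.sum_mul,
    ← Finset.sum_sub_distrib]
  refine norm_sum_le_of_le _ fun x hx => ?_
  obtain ⟨e, -⟩ := Nat.mem_divisorsAntidiagonal.1 hx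
  have x1 := Nat.left_ne_zero_of_mem_divisorsAntidiagonal hx
  have x2 := Nat.right_ne_zero_of_mem_divisorsAntidiagonal hx
  obtain ⟨r, ρ, e1, e2, e3, -⟩ := rho b0 x.2
  have a : ‖mm 0 β x.2 * ((φ (Real.log x.2 / L) - 1 : ℝ) * (mm 0 β n * φ (Real.log n / L)))‖ ≤
      ‖mm β 0 x.2 * ψ (Real.log x.2 / L)‖ := by
    by_cases c1 : φ (Real.log n / L) = 0
    · simp only [c1, ofReal_zero, mul_zero, norm_zero, norm_nonneg]
    by_cases c2 : φ (Real.log x.2 / L) = 1
    · simp only [c2, sub_self, ofReal_zero, mul_zero, zero_mul, norm_zero, norm_nonneg]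
    have le : (x.2 : ℝ) ≤ n := Nat.cast_le.2 (Nat.divisor_le
      (Nat.snd_mem_divisors_of_mem_antidiagonal hx))
    rw [hψ _ _ (div_nonneg (Real.log_natCast_nonneg _) L0.le) (div_le_div_of_nonneg_right
      (Real.log_le_log (Nat.cast_pos.2 (Nat.pos_of_ne_zero x2)) le) L0.le) c1 c2, e1, e2,
      ofReal_one, mul_one, norm_mul, norm_real, norm_real, norm_mul, norm_mul, norm_real, norm_real]
    refine (mul_le_of_le_one_right (norm_nonneg _) (mul_le_one₀ ?_ (by positivity)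
      (mul_le_one₀ (norm_r b0 n) (norm_nonneg _) ?_))).trans (e3.trans (le_abs_self _))
    · exact abs_le.2 ⟨by linarith [(hφ (Real.log x.2 / L)).1], by linarith [(hφ (Real.log x.2 / L)).2]⟩
    · exact abs_le.2 ⟨by linarith [(hφ (Real.log n / L)).1], (hφ _).2⟩
  have pm : (ex σ n : ℂ) = pw σ x.1 * pw σ x.2 := by rw [← pw_mul, e, pw_real σ n0]
  rw [pm, term_pw, term_pw, rf_apply, mul_right_comm (mm β 0 x.2), norm_mul _ (pw σ x.2)]
  refine le_trans (le_of_eq ?_) (mul_le_mul_of_nonneg_left (mul_le_mul_of_nonneg_right a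
    (norm_nonneg _)) (norm_nonneg _))
  rw [← norm_mul, ← norm_mul]
  congr 1
  push_cast; ring

theorem diag_neg {h : ℝ} (h1 : Real.pi < h) (h2 : h ≤ 3 * Real.pi / 2) : ∃ (c η b : ℝ) (φ : ℝ → ℝ),
    0 < c ∧ 0 < η ∧ 0 < b ∧ Sm φ ∧ (∀ y, |φ y| ≤ 1) ∧ (∀ y, 1 - η ≤ y → φ y = 0) ∧
    ∀ᶠ L : ℝ in atTop, ∀ X : ℕ, (∀ n : ℕ, X < n → φ (Real.log n / L) = 0) →
      (exp (I * h / 2) * ∑ n ∈ Finset.Icc 1 X, (mm (-((h / L : ℝ) * I)) 0 * rf φ (b / L) L) n *
        rf φ (b / L) L n * ex (1 + 2 * c / L) n).im ≤ -1 := by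
  obtain ⟨C, C1, hC⟩ := ep_bound
  have p0 := Real.pi_pos
  have h0 : 0 < h := by linarith
  set s := (Real.cos (3 * h / 2) - Real.cos (h / 2)) / h with hs
  have s0 : 0 < s := by
    have a := Real.cos_neg_of_pi_div_two_lt_of_lt (x := h / 2) (by linarith) (by linarith)
    have b := Real.cos_nonneg_of_neg_pi_div_two_le_of_le (x := 3 * h / 2 - 2 * Real.pi)
      (by linarith) (by linarith)
    rw [Real.cos_sub_two_pi] at b
    exact div_pos (by linarith) h0
  set c := s / 8 with hc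
  have c0 : 0 < c := by positivity
  set K := Real.exp (h * C / c) with hK
  have K1 : 1 ≤ K := Real.one_le_exp (by positivity)
  set η := min (1 / 4) (s / (24 * K)) with hη
  have η0 : 0 < η := by positivity
  have η1 : η ≤ 1 / 4 := min_le_left _ _
  have η2 : η * (24 * K) ≤ s := (le_div_iff₀ (by positivity)).1 (min_le_right _ _)
  set b := 8 * (7 + K) / s + 1 with hb
  have b1 : 1 ≤ b := le_add_of_nonneg_left (by positivity)
  have b2 : 8 * (7 + K) ≤ b * s := by rw [hb, add_mul, div_mul_cancel₀ _ s0.ne']; linarith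
  obtain ⟨φ, sφ, φ0, φ1, φ2⟩ := exists_bump (c := 0) (r := 1 - 2 * η) (R := 1 - η) (by linarith)
    (by linarith) (by linarith) (by linarith)
  obtain ⟨ψ, sψ, ψ0, ψ1, ψ2⟩ := exists_bump (c := 1 - 3 * η / 2) (r := η / 2) (R := η) (by linarith)
    (by linarith) (by linarith) (by linarith)
  have φa : ∀ y, |φ y| ≤ 1 := fun y => abs_le.2 ⟨by linarith [(φ0 y).1], (φ0 y).2⟩
  refine ⟨c, η, b, φ, c0, η0, by linarith, sφ, φa,
    fun y hy => φ2 y (by rw [sub_zero]; exact hy.trans (le_abs_self y)), ?_⟩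
  have ep : ∀ᶠ L : ℝ in atTop, ∀ (g : ArithmeticFunction ℂ) (k : ℝ), g.IsMultiplicative → 0 ≤ k →
      (∀ p j, p.Prime → ‖g (p ^ (j + 1))‖ ≤ k / L * Real.log p) →
      LSeriesSummable g (1 + 2 * c / L : ℝ) → LSeriesSummable g (1 + 2 * c / L : ℝ) ∧
        ∑' n, ‖LSeries.term g (1 + 2 * c / L : ℝ) n‖ ≤ Real.exp (k * C / c) := by
    filter_upwards [eventually_gt_atTop 0, eventually_ge_atTop (2 * c)] with L L0 L1 g k g1 k0 g2 g3
    have := (div_le_one L0).2 L1
    refine ⟨g3, (hC g _ (k / L) g1 (by rw [ofReal_re]; linarith [div_pos c0 L0, mul_div_assoc 2 c L])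
      (by rw [ofReal_re]; linarith) (by positivity) g2 g3).trans (le_of_eq ?_)⟩
    rw [ofReal_re, add_sub_cancel_left]
    congr 1; field_simp
  have re : ∀ {L : ℝ}, 0 < L → 1 < ((1 + 2 * c / L : ℝ) : ℂ).re := fun L0 => by
    rw [ofReal_re]; exact lt_add_of_pos_right _ (by positivity)
  have w0 : ∀ v : ℝ, 0 < ((2 * c : ℝ) + v * I : ℂ).re := fun v => by simpa using c0
  have t1 := sφ.lim (f := fun L => ff (h / L) (b / L)) (x := 2 * c) (by
    filter_upwards [ep, eventually_gt_atTop 0] with L e L0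
    have b0 : 0 ≤ b / L := by positivity
    refine e _ (2 * b) (mult_ff _ _) (by linarith) (fun p j hp => ?_) (summ_ff b0 _ (re L0))
    rw [ff_pp _ _ hp, norm_mul, norm_pow, norm_pow, norm_real, Real.norm_of_nonneg (ex_pos _ _).le,
      mul_div_assoc]
    exact (mul_le_of_le_one_right (norm_nonneg _) (pow_le_one₀ (sq_nonneg _)
      (pow_le_one₀ (ex_pos _ _).le (ex_le_one b0 p)))).trans (norm_A b0 _ p))
    fun v => ff_lim (w0 v) h (by linarith)
  have sρ : ∀ᶠ L : ℝ in atTop, LSeriesSummable (mm (b / L : ℝ) 0) (1 + 2 * c / L : ℝ) ∧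
      ∑' n, ‖LSeries.term (mm (b / L : ℝ) 0) (1 + 2 * c / L : ℝ) n‖ ≤ Real.exp (b * C / c) := by
    filter_upwards [ep, eventually_gt_atTop 0] with L e L0
    have b0 : 0 ≤ b / L := by positivity
    refine e _ b (mult_mm _ _) (by linarith) (fun p j hp => ?_) (has_mm (by
      rw [add_re, ofReal_re (b / L)]; linarith [re L0]) (by simpa using re L0)).LSeriesSummable
    rw [mm_pp _ _ hp, pw_zero hp.ne_zero, pw_real _ hp.ne_zero, one_pow, mul_one, ← ofReal_one,
      ← ofReal_sub, norm_real, Real.norm_of_nonneg (sub_nonneg.2 (ex_le_one b0 p))]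
    exact one_sub_ex _ p
  have t2 := sψ.lim (f := fun L => mm (b / L : ℝ) 0) (x := 2 * c) sρ fun v =>
    (ratio_lim (ne_of_re (w0 v)) (w' := (2 * c : ℝ) + v * I + b)
      (ne_of_re (by rw [add_re, ofReal_re]; linarith [w0 v]))).congr'
      ((eventually_gt_atTop 0).mono fun L L0 => by
        have r : 1 < (1 + ((2 * c : ℝ) + v * I) / L : ℂ).re := by
          rw [add_re, one_re, div_ofReal_re]; linarith [div_pos (w0 v) L0]
        have := (has_mm (z := (b / L : ℝ)) (z' := 0) (s := 1 + ((2 * c : ℝ) + v * I) / L) (by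
          rw [add_re, ofReal_re (b / L)]; linarith [div_pos (one_pos.trans_le b1) L0])
          (by rwa [add_zero])).LSeries_eq
        dsimp only
        rw [this, add_zero, add_div _ (b : ℂ), ofReal_div, add_assoc])
  have pc : (Real.pi : ℂ) ≠ 0 := by exact_mod_cast p0.ne'
  have z2 : 0 < ((2 * c : ℝ) : ℂ).re := by simpa using c0
  have v2 : ‖(∫ v : ℝ, kk ψ 1 (v * I) * (((2 * c : ℝ) + v * I + b) / ((2 * c : ℝ) + v * I))) /
      (2 * Real.pi)‖ ≤ 3 * η * b := by
    rw [integral_congr_ae (g := fun v : ℝ => kk ψ 1 (v * I) +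
      b * (kk ψ 1 (v * I) * ((2 * c : ℝ) + v * I)⁻¹)) (ae_of_all _ fun v => by
        have := ne_of_re (w0 v)
        dsimp only
        field_simp), integral_add (sψ.int0 one_pos) ((sψ.int_res z2).const_mul _),
      integral_const_mul, sψ.int_one, sψ.res' z2, ψ2 0 (by
        rw [zero_sub, abs_neg, abs_of_pos (by linarith)]; linarith), ofReal_zero, mul_zero, zero_add,
      mul_left_comm, mul_div_cancel_left₀ _ (by simp [pc]), norm_mul, norm_real,
      Real.norm_of_nonneg (by linarith), mul_comm]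
    have := sψ.cont
    refine mul_le_mul_of_nonneg_right ((split (t := 3 * η) (M := 0) (N := 1) (by fun_prop)
      (by linarith) (by linarith) le_rfl (fun x _ hx => ?_) fun x hx _ => ?_).trans
        (le_of_eq (by ring))) (by linarith)
    · rw [ψ2 x (by rw [abs_sub_comm, abs_of_pos (by linarith)]; linarith)]; simp
    · rw [norm_mul, norm_real, Real.norm_of_nonneg (ψ0 x).1]
      exact mul_le_one₀ (ψ0 x).2 (norm_nonneg _) (nexp z2.le hx)
  have z3 : 0 < ((2 * c : ℝ) - h * I : ℂ).re := by simpa using c0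
  have z4 : 0 < ((2 * c + 2 * b : ℝ) : ℂ).re := by rw [ofReal_re]; linarith
  have n5 : 2 * b ≤ ‖(2 * b + h * I : ℂ)‖ := by simpa using re_le_norm (2 * b + h * I)
  have z5 : (2 * b + h * I : ℂ) ≠ 0 := norm_pos_iff.1 (by linarith)
  set A : ℂ := b * (b + h * I) / (2 * b + h * I) with hA
  have A1 : ‖A - (b / 2 : ℝ)‖ ≤ 2 := by
    rw [show A - (b / 2 : ℝ) = (b * h / 2 : ℝ) * I / (2 * b + h * I) by
      rw [hA, eq_div_iff z5, sub_mul, div_mul_cancel₀ _ z5]; push_cast; ring, norm_div, norm_mul, norm_I, norm_real,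
      Real.norm_of_nonneg (by positivity), div_le_iff₀ (by linarith)]
    nlinarith [Real.pi_le_four]
  have cφ := sφ.cont
  set I₁ := ∫ x in (0 : ℝ)..1, φ x * exp (-((2 * c : ℝ) - h * I) * x) with hI₁
  set I₂ := ∫ x in (0 : ℝ)..1, φ x * exp (-((2 * c + 2 * b : ℝ) : ℂ) * x) with hI₂
  have v1 : (∫ v : ℝ, kk φ 1 (v * I) * (((2 * c : ℝ) + v * I - h * I + b) /
      ((2 * c : ℝ) + v * I - h * I) * (((2 * c : ℝ) + v * I + b) / ((2 * c : ℝ) + v * I + b + b)))) /
      (2 * Real.pi) = 1 + A * (I₁ - I₂) := by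
    rw [integral_congr_ae (g := fun v : ℝ => kk φ 1 (v * I) +
      A * (kk φ 1 (v * I) * ((2 * c : ℝ) - h * I + v * I)⁻¹ -
        kk φ 1 (v * I) * ((2 * c + 2 * b : ℝ) + v * I)⁻¹)) (ae_of_all _ fun v => by
        have q1 : ((2 * c : ℝ) - h * I + v * I : ℂ) ≠ 0 := ne_of_re (by simpa using c0)
        have q2 : ((2 * c + 2 * b : ℝ) + v * I : ℂ) ≠ 0 := ne_of_re (by simp; linarith)
        dsimp only
        rw [hA, show ((2 * c : ℝ) + v * I - h * I : ℂ) = (2 * c : ℝ) - h * I + v * I by ring,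
          show ((2 * c : ℝ) + v * I + b + b : ℂ) = (2 * c + 2 * b : ℝ) + v * I by push_cast; ring]
        generalize hu : ((2 * c : ℝ) - h * I + v * I : ℂ) = u at *
        generalize hw : ((2 * c + 2 * b : ℝ) + v * I : ℂ) = w at *
        generalize ht : (2 * b + h * I : ℂ) = t at *
        field_simp
        subst hu hw ht
        push_cast; ring),
      integral_add (g := fun v : ℝ => A * (kk φ 1 (v * I) * ((2 * c : ℝ) - h * I + v * I)⁻¹ -
        kk φ 1 (v * I) * ((2 * c + 2 * b : ℝ) + v * I)⁻¹)) (sφ.int0 one_pos)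
        (((sφ.int_res z3).sub (sφ.int_res z4)).const_mul _),
      integral_const_mul, integral_sub (sφ.int_res z3) (sφ.int_res z4), sφ.int_one, sφ.res' z3,
      sφ.res' z4, φ1 0 (by rw [sub_zero, abs_zero]; linarith), ← hI₁, ← hI₂]
    push_cast; field_simp
  have nφ : ∀ {z : ℂ} {x : ℝ}, 0 ≤ z.re → 0 ≤ x → ‖φ x * exp (-z * x)‖ ≤ 1 := fun hz hx => by
    rw [norm_mul, norm_real]
    exact mul_le_one₀ (φa _) (norm_nonneg _) (nexp hz hx)
  have i1 : ‖I₁‖ ≤ 1 := (split (t := 0) (by fun_prop) le_rfl zero_le_one zero_le_one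
    (fun x hx _ => nφ z3.le hx) fun x hx _ => nφ z3.le hx).trans (by norm_num)
  have i2 : ‖I₂‖ ≤ 1 / (2 * b) := by
    refine (intervalIntegral.norm_integral_le_of_norm_le zero_le_one
      (g := fun x => Real.exp (-(2 * b) * x)) (ae_of_all _ fun x hx => ?_)
      (Continuous.intervalIntegrable (by fun_prop) _ _)).trans ?_
    · rw [norm_mul, norm_real, norm_exp, re_mul_ofReal, neg_re, ofReal_re]
      exact (mul_le_of_le_one_left (Real.exp_pos _).le (φa x)).trans
        (Real.exp_le_exp.2 (by nlinarith [hx.1]))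
    · have i := integrableOn_exp_mul_Ioi (a := -(2 * b)) (by linarith) 0
      rw [intervalIntegral.integral_of_le zero_le_one]
      refine (setIntegral_mono_set i (ae_of_all _ fun x => (Real.exp_pos _).le)
        Set.Ioc_subset_Ioi_self.eventuallyLE).trans (le_of_eq ?_)
      rw [integral_exp_mul_Ioi (by linarith), mul_zero, Real.exp_zero, neg_div_neg_eq]
  have hI : (I * h : ℂ) ≠ 0 := mul_ne_zero I_ne_zero (by exact_mod_cast h0.ne')
  have i3 : ‖I₁ - (exp (I * h) - 1) / (I * h)‖ ≤ 2 * c + 2 * (2 * η) := by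
    have a := integral_exp_mul_complex (a := 0) (b := 1) hI
    simp only [ofReal_one, mul_one, ofReal_zero, mul_zero, exp_zero] at a
    rw [← a, hI₁, ← intervalIntegral.integral_sub (Continuous.intervalIntegrable (by fun_prop) _ _)
      (Continuous.intervalIntegrable (by fun_prop) _ _)]
    refine split (by fun_prop) (by linarith) (by linarith) (by linarith) (fun x x0 x1 => ?_)
      fun x x0 _ => (norm_sub_le_of_le (nφ z3.le x0) (show _ ≤ 1 by
        rw [norm_exp]; simp)).trans (by norm_num)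
    rw [φ1 x (by rwa [sub_zero, abs_of_nonneg x0]), ofReal_one, one_mul,
      show exp (-((2 * c : ℝ) - h * I) * x) - exp (I * h * x) =
        exp (I * h * x) * (Real.exp (-(2 * c * x)) - 1 : ℝ) by
          push_cast; rw [mul_sub, ← exp_add]; ring_nf, norm_mul, norm_exp, norm_real,
      Real.norm_eq_abs, abs_sub_comm, abs_of_nonneg (sub_nonneg.2 (Real.exp_le_one_iff.2
        (neg_nonpos.2 (by positivity))))]
    simp
    nlinarith [Real.add_one_le_exp (-(2 * c * x))]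
  have ne : ‖exp (I * h / 2)‖ = 1 := by rw [norm_exp]; simp
  have i4 : (exp (I * h / 2) * ((exp (I * h) - 1) / (I * h))).im = -s := by
    rw [show exp (I * h / 2) * ((exp (I * h) - 1) / (I * h)) =
      I * (exp ((h / 2 : ℝ) * I) - exp ((3 * h / 2 : ℝ) * I)) / h by
        rw [mul_div_assoc', mul_sub, ← exp_add, div_eq_div_iff hI (right_ne_zero_of_mul hI)]
        push_cast; ring_nf; rw [I_sq]; ring, div_ofReal_im, I_mul_im, sub_re,
      exp_ofReal_mul_I_re, exp_ofReal_mul_I_re, hs]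
    ring
  rw [v1] at t1
  filter_upwards [ep, sρ, eventually_gt_atTop 0, Metric.tendsto_nhds.1 t1 1 one_pos,
    Metric.tendsto_nhds.1 t2 1 one_pos] with L e e' L0 m1 m2 X hX
  have b0 : 0 ≤ b / L := by positivity
  have er := err_le φ0 (fun x y x0 xy q1 q2 => ψ1 x (abs_le.2 ⟨by
      linarith [not_le.1 fun q => q2 (φ1 x (by rwa [sub_zero, abs_of_nonneg x0]))], by
      linarith [not_le.1 fun q => q1 (φ2 y (by rw [sub_zero]; exact le_trans q (le_abs_self y)))]⟩))
    b0 L0 (h / L) (1 + 2 * c / L) X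
  obtain ⟨sa, ba⟩ := e (mm (-((h / L : ℝ) * I)) 0) h (mult_mm _ _) h0.le (fun p j hp => by
      rw [mm_pp _ _ hp, pw_zero hp.ne_zero, one_pow, mul_one, pw_apply _ hp.ne_zero, norm_sub_rev,
        neg_neg, mul_comm _ I, mul_assoc, ← ofReal_mul]
      refine Real.norm_exp_I_mul_ofReal_sub_one_le.trans (le_of_eq (Real.norm_of_nonneg ?_))
      have := Real.log_natCast_nonneg p; positivity)
    (has_mm (by simpa using re L0) (by simpa using re L0)).LSeriesSummable
  have f1 := (sa.norm.sum_le_tsum (Finset.Icc 1 X) fun _ _ => norm_nonneg _).trans ba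
  have f2 : ∑ n ∈ Finset.Icc 1 X, ‖LSeries.term (mm (b / L : ℝ) 0) (1 + 2 * c / L : ℝ) n *
      ψ (Real.log n / L)‖ ≤ 3 * η * b + 1 := by
    have r : ∀ n, LSeries.term (mm (b / L : ℝ) 0) (1 + 2 * c / L : ℝ) n * ψ (Real.log n / L) =
        (‖LSeries.term (mm (b / L : ℝ) 0) (1 + 2 * c / L : ℝ) n * ψ (Real.log n / L)‖ : ℝ) :=
      fun n => by
        rcases eq_or_ne n 0 with rfl | n0
        · simp
        obtain ⟨r, ρ, -, e2, e3, -⟩ := rho b0 n
        rw [term_pw, pw_real _ n0, e2, ← ofReal_mul, ← ofReal_mul, norm_real, Real.norm_of_nonneg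
          (mul_nonneg (mul_nonneg ((abs_nonneg _).trans e3) (ex_pos _ _).le) (ψ0 _).1)]
    have sm : Summable fun n => ‖LSeries.term (mm (b / L : ℝ) 0) (1 + 2 * c / L : ℝ) n *
        ψ (Real.log n / L)‖ := e'.1.norm.of_nonneg_of_le (fun _ => norm_nonneg _) fun n => by
      rw [norm_mul, norm_real, Real.norm_of_nonneg (ψ0 _).1]
      exact mul_le_of_le_one_right (norm_nonneg _) (ψ0 _).2
    refine (sm.sum_le_tsum _ fun _ _ => norm_nonneg _).trans ?_
    rw [tsum_congr r, ← ofReal_tsum, dist_eq_norm] at m2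
    refine (le_abs_self _).trans ?_
    rw [← Real.norm_eq_abs, ← norm_real]
    exact (norm_le_norm_sub_add _ _).trans (by linarith)
  rw [tsum_eq_sum (s := Finset.Icc 1 X) fun n hn => by
    rcases eq_or_ne n 0 with rfl | n0
    · simp
    · rw [hX n (by rw [Finset.mem_Icc] at hn; omega), ofReal_zero, mul_zero], dist_eq_norm] at m1
  have er2 := er.trans (mul_le_mul f1 f2 (by positivity) (by positivity))
  generalize ∑ n ∈ Finset.Icc 1 X, (mm (-((h / L : ℝ) * I)) 0 * rf φ (b / L) L) n *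
    rf φ (b / L) L n * ex (1 + 2 * c / L) n = D at *
  generalize ∑ n ∈ Finset.Icc 1 X, LSeries.term (ff (h / L) (b / L)) (1 + 2 * c / L : ℝ) n *
    φ (Real.log n / L) = D' at *
  set E := (exp (I * h) - 1) / (I * h)
  have nb : ‖((b / 2 : ℝ) : ℂ)‖ = b / 2 := by rw [norm_real, Real.norm_of_nonneg (by linarith)]
  have nA : ‖A‖ ≤ 2 + b / 2 := by linarith [norm_le_norm_sub_add A (b / 2 : ℝ)]
  have tot := norm_add_le_of_le (norm_add_le_of_le er2 m1.le) (norm_sub_le_of_le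
    (norm_add_le_of_le (norm_add_le_of_le (norm_one (α := ℂ)).le (norm_mul_le_of_le nb.le i3))
      (norm_mul_le_of_le A1 i1)) (norm_mul_le_of_le nA i2))
  rw [show D - D' + (D' - (1 + A * (I₁ - I₂))) + (1 + (b / 2 : ℝ) * (I₁ - E) +
    (A - (b / 2 : ℝ)) * I₁ - A * I₂) = D - (b / 2 : ℝ) * E by ring] at tot
  have fin := abs_im_le_norm (exp (I * h / 2) * (D - (b / 2 : ℝ) * E))
  rw [norm_mul, ne, one_mul, mul_sub, sub_im, mul_left_comm, im_ofReal_mul, i4] at fin
  have q : (2 + b / 2) * (1 / (2 * b)) ≤ 2 := by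
    rw [mul_one_div, div_le_iff₀ (by linarith)]; linarith
  have q2 : η * 24 ≤ s := by nlinarith
  have q3 := mul_le_mul_of_nonneg_left η2 (show 0 ≤ b by linarith)
  have q4 := mul_le_mul_of_nonneg_left q2 (show 0 ≤ b by linarith)
  rw [← hK] at tot
  nlinarith [(abs_le.1 fin).2]

end Pool.Agent.MP_f0209c_nt.Pp
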