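import Pool.Agent.MP_f0209c_nt.Pp.Loc

/-! The argument of `ζ(s + ih) / ζ(s)` to the right of the critical line. -/

namespace Pool.Agent.MP_f0209c_nt.Pp
open Complex Set Metric Filter Topology ComplexConjugate

/-- the angle under which an interval of length `h` is seen -/
noncomputable def aa (α h x : ℝ) : ℝ := Real.arctan ((x + h) / α) - Real.arctan (x / α)

lemma at_mono {α x y : ℝ} (a0 : 0 < α) (h : x ≤ y) : Real.arctan (x / α) ≤ Real.arctan (y / α) :=
  Real.arctan_strictMono.monotone (div_le_div_of_nonneg_right h a0.le)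

lemma aa_nonneg {α h : ℝ} (a0 : 0 < α) (h0 : 0 ≤ h) (x : ℝ) : 0 ≤ aa α h x :=
  sub_nonneg.2 (at_mono a0 (by linarith))

@[fun_prop] lemma cont_aa (α h : ℝ) : Continuous (aa α h) := by
  have := Real.continuous_arctan
  unfold aa; fun_prop

lemma int_aa {α h : ℝ} (h0 : 0 ≤ h) (a b γ : ℝ) : ∫ x in a..b, aa α h (x - γ) ≤ Real.pi * h := by
  have c : Continuous fun x : ℝ => Real.arctan (x / α) := by
    have := Real.continuous_arctan; fun_prop
  have i := fun a b => c.intervalIntegrable (μ := MeasureTheory.volume) a b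
  rw [intervalIntegral.integral_comp_sub_right (aa α h)]
  unfold aa
  rw [intervalIntegral.integral_sub (f := fun x : ℝ => Real.arctan ((x + h) / α))
    ((c.comp (continuous_add_const h)).intervalIntegrable _ _) (i _ _), intervalIntegral.integral_comp_add_right (fun x : ℝ => Real.arctan (x / α)),
    intervalIntegral.integral_interval_sub_interval_comm' (i _ _) (i _ _) (i _ _)]
  have n : ∀ y : ℝ, |∫ x in y..y + h, Real.arctan (x / α)| ≤ Real.pi / 2 * h := fun y => by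
    have := intervalIntegral.norm_integral_le_of_norm_le_const (a := y) (b := y + h)
      (f := fun x : ℝ => Real.arctan (x / α)) (C := Real.pi / 2) fun x _ => abs_le.2
        ⟨(Real.neg_pi_div_two_lt_arctan _).le, (Real.arctan_lt_pi_div_two _).le⟩
    rwa [add_sub_cancel_left, abs_of_nonneg h0] at this
  linarith [(abs_le.1 (n (b - γ))).2, (abs_le.1 (n (a - γ))).1]

lemma tele {γ : ℕ → ℝ} (hγ : Monotone γ) {α h : ℝ} (a0 : 0 < α) (x : ℝ) (J : Finset ℕ) :
    (∀ j ∈ J, h ≤ γ (j + 1) - γ j) → ∀ y, (∀ j ∈ J, γ j + h ≤ y) →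
      ∑ j ∈ J, aa α h (x - γ j) ≤ Real.pi / 2 - Real.arctan ((x + h - y) / α) := by
  induction J using Finset.induction_on_max with
  | empty => exact fun _ y _ => by simpa using (Real.arctan_lt_pi_div_two _).le
  | insert k J hk ih =>
    intro h1 y h2
    have a := ih (fun j hj => h1 j (Finset.mem_insert_of_mem hj)) (γ k) fun j hj => by
      linarith [h1 j (Finset.mem_insert_of_mem hj), hγ (show j + 1 ≤ k from hk j hj)]
    have b := at_mono a0 (show x + h - y ≤ x - γ k by linarith [h2 k (Finset.mem_insert_self _ _)])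
    rw [Finset.sum_insert fun q => (hk k q).false, aa, show x - γ k + h = x + h - γ k by ring]
    linarith

lemma tele' {γ : ℕ → ℝ} (hγ : Monotone γ) {α h : ℝ} (a0 : 0 < α) (h0 : 0 ≤ h) (x : ℝ)
    {J S : Finset ℕ} (hS : ∀ j ∈ J, γ (j + 1) - γ j < h → j ∈ S) :
    -min 1 (∑ j ∈ S, aa α h (x - γ j)) ≤ Real.sin (∑ j ∈ J, aa α h (x - γ j)) := by
  have n := fun j => aa_nonneg a0 h0 (x - γ j)
  obtain ⟨y, hy⟩ := (J.image fun j => γ j + h).bddAbove
  have a := tele hγ a0 x (J.filter fun j => ¬ γ (j + 1) - γ j < h)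
    (fun j hj => not_lt.1 (Finset.mem_filter.1 hj).2) y fun j hj =>
      hy (Finset.mem_coe.2 (Finset.mem_image_of_mem _ (Finset.mem_filter.1 hj).1))
  have b : ∑ j ∈ J.filter fun j => γ (j + 1) - γ j < h, aa α h (x - γ j) ≤
      ∑ j ∈ S, aa α h (x - γ j) := Finset.sum_le_sum_of_subset_of_nonneg
    (fun j hj => hS j (Finset.mem_filter.1 hj).1 (Finset.mem_filter.1 hj).2) fun j _ _ => n j
  have c := Finset.sum_filter_add_sum_filter_not J (fun j => γ (j + 1) - γ j < h)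
    fun j => aa α h (x - γ j)
  have d := Real.neg_pi_div_two_lt_arctan ((x + h - y) / α)
  have p0 : 0 ≤ ∑ j ∈ J, aa α h (x - γ j) := Finset.sum_nonneg fun j _ => n j
  have p1 : 0 ≤ ∑ j ∈ S, aa α h (x - γ j) := Finset.sum_nonneg fun j _ => n j
  rw [neg_le, le_min_iff]
  refine ⟨by linarith [Real.neg_one_le_sin (∑ j ∈ J, aa α h (x - γ j))], ?_⟩
  rcases le_total (∑ j ∈ J, aa α h (x - γ j)) Real.pi with e | e
  · linarith [Real.sin_nonneg_of_nonneg_of_le_pi p0 e]
  · rw [← Real.sin_sub_pi]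
    linarith [Real.sin_le (sub_nonneg.2 e)]

lemma polar {α : ℝ} (a0 : 0 < α) (x : ℝ) :
    ∃ r : ℝ, 0 < r ∧ (α + x * I : ℂ) = r * exp (Real.arctan (x / α) * I) := by
  have p : 0 < (α + x * I : ℂ).re := by simpa using a0
  have a := abs_lt.1 (abs_arg_lt_pi_div_two_iff.2 (Or.inl p))
  have t := tan_arg (α + x * I)
  simp only [add_im, ofReal_im, mul_im, ofReal_re, I_im, mul_one, I_re, mul_zero, add_zero,
    zero_add, add_re, mul_re, sub_self] at t
  refine ⟨_, p.trans_le (re_le_norm _), ?_⟩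
  rw [← t, Real.arctan_tan a.1 a.2, norm_mul_exp_arg_mul_I]

lemma polar_prod {α : ℝ} (a0 : 0 < α) (h : ℝ) (x : ℕ → ℝ) (J : Finset ℕ) : ∃ r : ℝ, 0 < r ∧
    (∏ j ∈ J, (α + (x j + h : ℝ) * I : ℂ)) / ∏ j ∈ J, (α + x j * I : ℂ) =
      r * exp ((∑ j ∈ J, aa α h (x j) : ℝ) * I) := by
  choose r r0 hr using polar a0
  refine ⟨∏ j ∈ J, r (x j + h) / r (x j), Finset.prod_pos fun j _ => div_pos (r0 _) (r0 _), ?_⟩
  rw [← Finset.prod_div_distrib, ofReal_sum, Finset.sum_mul, exp_sum, ofReal_prod,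
    ← Finset.prod_mul_distrib]
  refine Finset.prod_congr rfl fun j _ => ?_
  rw [hr, hr, aa, ofReal_sub, sub_mul, exp_sub, ofReal_div, mul_div_mul_comm]

variable {ρ : ℕ → ℂ}

lemma Zs.herg (hz : Zs ρ) {T M u h α : ℝ} (hL : Loc ρ M u) (T1 : 4 ≤ T) (u1 : T ≤ u)
    (u2 : u ≤ 2 * T) (h0 : 0 ≤ h) (a0 : 0 < α) (a1 : α ≤ 1) (e1 : 4 * (M * h * α) + 48 * h ≤ 1 / 2)
    {S : Finset ℕ} (hS : ∀ j, |(ρ j).im - u| ≤ 2 → (ρ (j + 1)).im - (ρ j).im < h → j ∈ S) :
    -(2 * ‖riemannZeta (1 / 2 + α + u * I + h * I) / riemannZeta (1 / 2 + α + u * I)‖ *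
        (min 1 (∑ j ∈ S, aa α h (u - (ρ j).im)) + (4 * (M * h * α) + 48 * h))) ≤
      (exp (I * h * Real.log T / 2) *
        (riemannZeta (1 / 2 + α + u * I + h * I) / riemannZeta (1 / 2 + α + u * I))).im := by
  obtain ⟨J, A, l, A0, cnt, hJ, hl, e, bd⟩ := hL
  have M0 : 0 ≤ M := le_trans (by positivity) cnt
  have q0 : 0 ≤ M * h * α := by positivity
  have h1 : h < 1 := by linarith
  set c : ℂ := 4 + u * I with hc
  have inb : ∀ {s}, ‖s - c‖ ≤ 37 / 10 → s ∈ ball c (38 / 10) := fun hs =>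
    mem_ball_iff_norm.2 (by linarith)
  have dl : ∀ {s}, ‖s - c‖ ≤ 37 / 10 → DifferentiableAt ℂ l s := fun hs =>
    hl.differentiableAt (isOpen_ball.mem_nhds (inb hs))
  have nr : ∀ {x t : ℝ}, 0 ≤ x → x ≤ 1 → |t - u| ≤ 1 → ‖(1 / 2 + x + t * I : ℂ) - c‖ ≤ 37 / 10 :=
    fun x0 x1 t1 => near (by simpa using x0) (by simp; linarith) (by simpa using t1)
  have nr0 : ∀ {t : ℝ}, |t - u| ≤ 1 → ‖(1 / 2 + t * I : ℂ) - c‖ ≤ 37 / 10 := fun t1 => by
    simpa using nr le_rfl zero_le_one t1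
  set y : ℝ → ℂ := fun t => I ^ J.card * A * Gammaℝ (1 / 2 + t * I) * exp (l (1 / 2 + t * I))
    with hy
  have tp : ∀ {t : ℝ}, |t - u| ≤ 1 → (1 / 2 + t * I : ℂ).im ≠ 0 := fun t1 => by
    have := abs_le.1 t1
    simp; linarith
  have yc : ∀ t, |t - u| ≤ 1 → ContinuousAt y t := fun t t1 =>
    (continuousAt_const.mul (ContinuousAt.comp (f := fun t : ℝ => (1 / 2 + t * I : ℂ))
      (diff_Gammaℝ (tp t1)).continuousAt (by fun_prop))).mul
      (ContinuousAt.comp (f := fun t : ℝ => (1 / 2 + t * I : ℂ))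
        (dl (nr0 t1)).continuousAt (by fun_prop)).cexp
  have y0 : ∀ t, |t - u| ≤ 1 → y t ≠ 0 := fun t t1 => mul_ne_zero (mul_ne_zero
    (mul_ne_zero (pow_ne_zero _ I_ne_zero) A0) (Gammaℝ_ne (tp t1))) (exp_ne_zero _)
  have y1 : ∀ t, |t - u| ≤ 1 → (y t).im * ∏ j ∈ J, (t - (ρ j).im) = 0 := fun t t1 => by
    have a := lam_real (t := t) (by simpa using tp t1)
    have b : ∏ j ∈ J, (1 / 2 + t * I - ρ j) = I ^ J.card * (∏ j ∈ J, (t - (ρ j).im) : ℝ) := by
      rw [ofReal_prod, ← Finset.prod_const, ← Finset.prod_mul_distrib]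
      refine Finset.prod_congr rfl fun j _ => ?_
      nth_rw 1 [hz.eq j]
      push_cast; ring
    rw [lam_eq (tp t1), e _ (inb (nr0 t1)), b] at a
    rw [← im_mul_ofReal, ← a, hy]
    congr 1; ring
  have y2 : ∀ t, |t - u| < 1 → (y t).im = 0 := fun t t1 => by_contra fun ne => by
    refine infinite_of_mem_nhds t (s := J.image fun j => (ρ j).im) ?_ (Finset.finite_toSet _)
    filter_upwards [(continuous_im.continuousAt.comp (yc t t1.le)).eventually_ne ne,
      (isOpen_lt (by fun_prop) continuous_const).mem_nhds (show t ∈ {t | |t - u| < 1} from t1)]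
      with x x1 x2
    obtain ⟨j, hj, q⟩ := Finset.prod_eq_zero_iff.1 ((mul_eq_zero.1 (y1 x (le_of_lt x2))).resolve_left x1)
    exact Finset.mem_coe.2 (Finset.mem_image.2 ⟨j, hj, (sub_eq_zero.1 q).symm⟩)
  have iv : ∀ t ∈ uIcc u (u + h), |t - u| < 1 := fun t ht => by
    rw [uIcc_of_le (by linarith)] at ht
    exact abs_lt.2 ⟨by linarith [ht.1], by linarith [ht.2]⟩
  have y3 : 0 < (y (u + h)).re / (y u).re := by
    rw [div_pos_iff, ← mul_pos_iff]
    by_contra q
    obtain ⟨t, ht, z⟩ := intermediate_value_uIcc (f := fun t => (y t).re) (a := u) (b := u + h)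
      (fun t ht => (continuous_re.continuousAt.comp (yc t (iv t ht).le)).continuousWithinAt)
      (show (0 : ℝ) ∈ _ by
        rcases mul_nonpos_iff.1 (not_lt.1 q) with p | p
        exacts [mem_uIcc.2 (Or.inl ⟨p.2, p.1⟩), mem_uIcc.2 (Or.inr p)])
    exact y0 t (iv t ht).le (Complex.ext z (y2 t (iv t ht)))
  set r := (y (u + h)).re / (y u).re with hr
  have uu : |u - u| < 1 := by simp
  have uh : |u + h - u| < 1 := iv _ right_mem_uIcc
  have y4 : GG h (1 / 2 + u * I) * exp (l (1 / 2 + u * I + h * I) - l (1 / 2 + u * I)) = r := by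
    have a : ∀ t, |t - u| < 1 → ((y t).re : ℂ) = y t := fun t t1 =>
      Complex.ext (by simp) (by simp [y2 t t1])
    have := Gammaℝ_ne (tp uu.le)
    rw [hr, ofReal_div, a _ uu, a _ uh, hy, GG, exp_sub, mul_comm I (h : ℂ)]
    simp only [ofReal_add, add_mul, ← add_assoc]
    field_simp
  have K : Convex ℝ {z : ℂ | (1 / 2 ≤ z.re ∧ z.re ≤ 3 / 2) ∧ u ≤ z.im ∧ z.im ≤ u} :=
    ((convex_halfSpace_re_ge _).inter (convex_halfSpace_re_le _)).inter
      ((convex_halfSpace_im_ge _).inter (convex_halfSpace_im_le _))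
  have k1 : ∀ z ∈ {z : ℂ | (1 / 2 ≤ z.re ∧ z.re ≤ 3 / 2) ∧ u ≤ z.im ∧ z.im ≤ u},
      ‖z - c‖ ≤ 37 / 10 ∧ ‖z + h * I - c‖ ≤ 37 / 10 := fun z ⟨⟨a1, a2⟩, a3, a4⟩ =>
    ⟨near a1 (by linarith) (abs_le.2 ⟨by linarith, by linarith⟩), near (by simpa using a1)
      (by simp; linarith) (by simp [abs_le]; constructor <;> linarith)⟩
  have mv := K.norm_image_sub_le_of_norm_hasDerivWithin_le (𝕜 := ℂ)
    (f := fun z => l (z + h * I) - l z) (f' := fun z => deriv l (z + h * I) - deriv l z)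
    (C := M * h) (x := 1 / 2 + u * I) (y := 1 / 2 + α + u * I)
    (fun z hz => (((dl (k1 z hz).2).hasDerivAt.comp_add_const z _).sub
      (dl (k1 z hz).1).hasDerivAt).hasDerivWithinAt)
    (fun z hz => by
      have := (convex_closedBall c (37 / 10)).norm_image_sub_le_of_norm_deriv_le (𝕜 := ℂ)
        (f := deriv l) (C := M) (fun w hw => (hl.deriv isOpen_ball).differentiableAt
          (isOpen_ball.mem_nhds (inb (mem_closedBall_iff_norm.1 hw))))
        (fun w hw => (bd w (mem_closedBall_iff_norm.1 hw)).2)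
        (mem_closedBall_iff_norm.2 (k1 z hz).1) (mem_closedBall_iff_norm.2 (k1 z hz).2)
      simpa [abs_of_nonneg h0] using this)
    (by simp; norm_num) (by simp; constructor <;> linarith)
  rw [show (1 / 2 + α + u * I - (1 / 2 + u * I) : ℂ) = α by ring, norm_real,
    Real.norm_of_nonneg a0.le] at mv
  set δ := l (1 / 2 + α + u * I + h * I) - l (1 / 2 + α + u * I) -
    (l (1 / 2 + u * I + h * I) - l (1 / 2 + u * I)) with hδ
  have g1 := gamma_ratio (s := 1 / 2 + u * I) T1 h0 (by linarith) (by simpa using u1)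
    (by simpa using u2) (by simp; linarith)
  set β := GG h (1 / 2 + u * I) * exp (-(I * h * Real.log T / 2)) with hβ
  have b1 : 1 / 2 ≤ ‖β‖ := by
    have := norm_le_norm_sub_add 1 β
    rw [norm_one, norm_sub_rev] at this; linarith
  have b0 : β ≠ 0 := norm_pos_iff.1 (by linarith)
  have w1 : ‖exp δ / β - 1‖ ≤ 4 * (M * h * α) + 48 * h := by
    have := norm_exp_sub_one_le (mv.trans (by linarith))
    rw [div_sub_one b0, norm_div, div_le_iff₀ (by linarith)]
    have := norm_sub_le_norm_sub_add_norm_sub (exp δ) 1 β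
    rw [norm_sub_rev 1 β] at this
    nlinarith
  obtain ⟨P, P0, hP⟩ := polar_prod a0 h (fun j => u - (ρ j).im) J
  have p1 : ∏ j ∈ J, (1 / 2 + α + u * I + h * I - ρ j) =
      ∏ j ∈ J, (α + (u - (ρ j).im + h : ℝ) * I : ℂ) := Finset.prod_congr rfl fun j _ => by
    nth_rw 1 [hz.eq j]
    push_cast; ring
  have p2 : ∏ j ∈ J, (1 / 2 + α + u * I - ρ j) =
      ∏ j ∈ J, (α + (u - (ρ j).im : ℝ) * I : ℂ) := Finset.prod_congr rfl fun j _ => by
    nth_rw 1 [hz.eq j]
    push_cast; ring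
  set Φ := ∑ j ∈ J, aa α h (u - (ρ j).im) with hΦ
  have key : exp (I * h * Real.log T / 2) *
      (riemannZeta (1 / 2 + α + u * I + h * I) / riemannZeta (1 / 2 + α + u * I)) =
      (P * r : ℝ) * (exp (Φ * I) * (exp δ / β)) := by
    have n1 := nr a0.le a1 uh.le
    rw [ofReal_add, add_mul, ← add_assoc] at n1
    have G0 : GG h (1 / 2 + u * I) ≠ 0 := left_ne_zero_of_mul b0
    rw [e _ (inb n1), e _ (inb (nr a0.le a1 uu.le)), p1, p2, mul_div_mul_comm,
      mul_div_mul_left _ _ A0, hP, ofReal_mul, ← y4, hδ, hβ]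
    simp only [exp_sub, exp_neg]
    generalize GG h (1 / 2 + u * I) = G at G0 ⊢
    field_simp
  have nG : P * r / 2 ≤
      ‖riemannZeta (1 / 2 + α + u * I + h * I) / riemannZeta (1 / 2 + α + u * I)‖ := by
    have a := congrArg norm key
    rw [norm_mul, norm_mul, norm_mul, norm_exp_ofReal_mul_I, show ‖exp (I * h * Real.log T / 2)‖ = 1 by rw [norm_exp]; simp,
      one_mul, one_mul, norm_real,
      Real.norm_of_nonneg (by positivity)] at a
    have := norm_le_norm_sub_add 1 (exp δ / β)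
    rw [norm_one, norm_sub_rev] at this
    rw [a]
    nlinarith [mul_pos P0 y3]
  have s1 := tele' hz.mono a0 h0 u (J := J) (S := S) fun j hj => hS j (hJ j hj)
  have s2 : Real.sin Φ - (4 * (M * h * α) + 48 * h) ≤ (exp (Φ * I) * (exp δ / β)).im := by
    have a := abs_im_le_norm (exp (Φ * I) * (exp δ / β - 1))
    rw [norm_mul, norm_exp_ofReal_mul_I, one_mul, mul_sub, mul_one, sub_im,
      exp_ofReal_mul_I_im] at a
    linarith [(abs_le.1 a).1]
  have m0 : 0 ≤ min 1 (∑ j ∈ S, aa α h (u - (ρ j).im)) :=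
    le_min zero_le_one (Finset.sum_nonneg fun j _ => aa_nonneg a0 h0 _)
  rw [key, im_ofReal_mul]
  rw [← hΦ] at s1
  nlinarith [mul_pos P0 y3, mul_le_mul_of_nonneg_right nG (add_nonneg m0 (by positivity :
    0 ≤ 4 * (M * h * α) + 48 * h))]

end Pool.Agent.MP_f0209c_nt.Pp
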