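import Pool.Agent.MP_f0209c_nt.Pp.Int
import Pool.Agent.MP_f0209c_nt.Pp.Herg
import Pool.Agent.MP_f0209c_nt.Final

/-! Counting the small gaps. -/

namespace Pool.Agent.MP_f0209c_nt.Pp
open Complex Set Filter Topology ArithmeticFunction MeasureTheory Ch ComplexConjugate

lemma fub {F : ℝ → ℝ → ℝ} (hF : Continuous F.uncurry) (a b : ℝ) {c d : ℝ} (hcd : c ≤ d) {w : ℝ → ℝ}
    (hw : Continuous w) (h : ∀ y ∈ Icc c d, ∫ x in a..b, F x y ≤ w y) :
    ∫ x in a..b, ∫ y in c..d, F x y ≤ ∫ y in c..d, w y := by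
  rw [intervalIntegral_intervalIntegral_swap ((hF.continuousOn.integrableOn_compact
    (isCompact_uIcc.prod isCompact_uIcc)).mono_set (prod_mono uIoc_subset_uIcc uIoc_subset_uIcc))]
  exact intervalIntegral.integral_mono_on hcd
    ((intervalIntegral.continuous_parametric_intervalIntegral_of_continuous' (f := fun y x => F x y)
      (hF.comp continuous_swap) a b).intervalIntegrable _ _) (hw.intervalIntegrable _ _) h

@[fun_prop] lemma cont_gw (H : ℝ) : Continuous (gw H) := by unfold gw; fun_prop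

@[fun_prop] lemma cont_wt (l : ℝ) : Continuous (wt l) :=
  continuous_const.mul (Continuous.inv₀ (by fun_prop) fun y => by positivity)

lemma mv_iv {H M : ℝ} {f g : ℝ → ℝ} (h : Mv H f M) (hg : Continuous g) (f0 : ∀ x, 0 ≤ f x) {a b : ℝ}
    (hab : a ≤ b) (hle : ∀ x ∈ Icc a b, g x ≤ f x) : ∫ x in a..b, g x * gw H x ≤ M := by
  obtain ⟨ψ, i, l, e⟩ := h
  refine (intervalIntegral.integral_mono_on hab ((hg.mul (cont_gw H)).intervalIntegrable _ _)
    i.intervalIntegrable fun x hx => mul_le_mul_of_nonneg_right ((hle x hx).trans (l x))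
      (gw_pos _ _).le).trans (le_trans ?_ e)
  rw [intervalIntegral.integral_of_le hab]
  exact setIntegral_le_integral i (ae_of_all _ fun x => mul_nonneg ((f0 x).trans (l x))
    (gw_pos _ _).le)

lemma int_gw {H : ℝ} (H0 : 0 < H) {a b : ℝ} (hab : a ≤ b) : ∫ x in a..b, gw H x ≤ 2 * H := by
  have e : gw H = fun x => Real.exp (-(1 / H ^ 2) * x ^ 2) := funext fun x => by rw [gw]; ring_nf
  rw [intervalIntegral.integral_of_le hab, e]
  refine (setIntegral_le_integral (integrable_exp_neg_mul_sq (by positivity))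
    (ae_of_all _ fun x => (Real.exp_pos _).le)).trans ?_
  rw [integral_gaussian, div_div_eq_mul_div, div_one]
  exact Real.sqrt_le_iff.2 ⟨by positivity, by nlinarith [Real.pi_le_four, sq_nonneg H]⟩

lemma pow8 {w d : ℝ → ℝ} (hw : Continuous w) (hd : Continuous d) (w0 : ∀ y, 0 ≤ w y)
    (d0 : ∀ y, 0 ≤ d y) {a b : ℝ} (hab : a ≤ b) (h : ∫ y in a..b, w y ≤ 4) :
    (∫ y in a..b, d y * w y) ^ 8 ≤ 4 ^ 7 * ∫ y in a..b, d y ^ 8 * w y := by
  set t := (∫ y in a..b, d y * w y) / 4 with ht
  have t0 : 0 ≤ t := div_nonneg (intervalIntegral.integral_nonneg hab fun y _ =>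
    mul_nonneg (d0 y) (w0 y)) (by norm_num)
  have := intervalIntegral.integral_mono_on (μ := volume) hab
    (f := fun y => 8 * t ^ 7 * (d y * w y) - 7 * t ^ 8 * w y) (g := fun y => d y ^ 8 * w y)
    (Continuous.intervalIntegrable (by fun_prop) _ _)
    (Continuous.intervalIntegrable (by fun_prop) _ _) fun y _ => by
      have := d0 y
      have := w0 y
      have : 0 ≤ (d y - t) ^ 2 * (d y ^ 6 + 2 * d y ^ 5 * t + 3 * d y ^ 4 * t ^ 2 +
        4 * d y ^ 3 * t ^ 3 + 5 * d y ^ 2 * t ^ 4 + 6 * d y * t ^ 5 + 7 * t ^ 6) * w y := by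
        positivity
      linarith
  rw [intervalIntegral.integral_sub (Continuous.intervalIntegrable (by fun_prop) _ _)
    (Continuous.intervalIntegrable (by fun_prop) _ _), intervalIntegral.integral_const_mul,
    intervalIntegral.integral_const_mul] at this
  rw [show ∫ y in a..b, d y * w y = 4 * t by rw [ht]; ring] at this ⊢
  nlinarith [mul_le_mul_of_nonneg_left h (pow_nonneg t0 8)]

lemma young {g r m B e Q : ℝ} (Q0 : 0 < Q) (m0 : 0 ≤ m) (m1 : m ≤ 1) (m2 : m ≤ B) :
    r ^ 2 * (2 * g * (m + e)) ≤ (g ^ 4 + r ^ 8) / (2 * Q) + 2 * Q * B + 2 * Q * e ^ 2 := by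
  have a : (m + e) ^ 2 ≤ 2 * B + 2 * e ^ 2 := by nlinarith [sq_nonneg (m - e)]
  rw [add_assoc, ← sub_le_iff_le_add, le_div_iff₀ (by positivity)]
  nlinarith [sq_nonneg (g ^ 2 - r ^ 4), sq_nonneg (g * r ^ 2 - Q * (m + e)),
    mul_le_mul_of_nonneg_left a (sq_nonneg Q)]

variable {ρ : ℕ → ℂ}

lemma Zs.cont (hz : Zs ρ) {X : Type} [TopologicalSpace X] {f g : X → ℂ} (hf : Continuous f)
    (hg : Continuous g) (f1 : ∀ t, (f t).re < 1) (g0 : ∀ t, 1 / 2 < (g t).re)
    (g1 : ∀ t, (g t).re < 1) : Continuous fun t => riemannZeta (f t) / riemannZeta (g t) := by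
  have ne : ∀ {s : ℂ}, s.re < 1 → s ≠ 1 := fun h e => by simp [e] at h
  refine continuous_iff_continuousAt.2 fun t => ContinuousAt.div
    ((differentiableAt_riemannZeta (ne (f1 t))).continuousAt.comp hf.continuousAt)
    ((differentiableAt_riemannZeta (ne (g1 t))).continuousAt.comp hg.continuousAt) fun e =>
      (g0 t).ne' (hz.rh _ e (fun ⟨n, q⟩ => ?_) (ne (g1 t)))
  have := g0 t
  rw [q] at this
  simp at this
  linarith [n.cast_nonneg (α := ℝ)]

lemma Zs.momr (hz : Zs ρ) {c k : ℝ} (c0 : 0 < c) (k0 : 0 ≤ k) (N : ℕ) : ∃ C : ℝ, 0 < C ∧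
    ∀ᶠ T : ℝ in atTop, ∀ s w : ℂ, s.re = 1 / 2 + c / Real.log T → 115 / 100 * T ≤ s.im →
      s.im ≤ 185 / 100 * T → 0 ≤ w.re → ‖w‖ = k / Real.log T → ∫ y in -(T / 20)..(T / 20),
        ‖riemannZeta (s + y * I + w) / riemannZeta (s + y * I)‖ ^ N * gw (T / Real.log T ^ 2) y ≤
          C * (T / Real.log T ^ 2) := by
  obtain ⟨E, e1, e2⟩ := hz.env c0 (c + k)
  obtain ⟨C, C0, hC⟩ := e1 (N * k) (by positivity)
  refine ⟨C, C0, ?_⟩
  filter_upwards [e2, hC, eventually_ge_atTop 1,
    Real.tendsto_log_atTop.eventually_gt_atTop (2 * (c + k))] with T e2 hC T1 L1 s w s1 s2 s3 w1 w2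
  set L := Real.log T
  have L0 : 0 < L := by linarith
  have a0 := div_pos c0 L0
  have a1 : (c + k) / L < 1 / 2 := by rw [div_lt_iff₀ L0]; linarith
  have a2 := re_le_norm w
  have a3 := norm_nonneg w
  rw [add_div] at a1 e2
  refine mv_iv (hC s.im) ((hz.cont (by fun_prop) (by fun_prop) (fun y => by simp; linarith)
    (fun y => by simp [-one_div]; linarith) fun y => by simp; linarith).norm.pow N)
    (fun _ => (Real.exp_pos _).le) (by linarith) fun y hy => ?_
  have im : (s + y * I).im = s.im + y := by simp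
  have re : (s + y * I).re = s.re := by simp
  have := hz.ratio (s := s + y * I) w1 (by linarith) (by linarith [hy.1]) fun z z1 z2 z3 =>
    e2 (s.im + y) z (by linarith [hy.1]) (by linarith [hy.2]) (by linarith) (by linarith)
      (by rw [← im]; linarith)
  refine (pow_le_pow_left₀ (norm_nonneg _) this N).trans (le_of_eq ?_)
  rw [← Real.exp_nat_mul, w2]
  congr 1; field_simp

lemma Zs.mom8 (hz : Zs ρ) {c b : ℝ} (c0 : 0 < c) (b0 : 0 ≤ b) {φ : ℝ → ℝ} (h : Sm φ) : ∃ C : ℝ,
    0 < C ∧ ∀ᶠ T : ℝ in atTop, ∀ (X : ℕ) (s : ℂ), (∀ n : ℕ, X < n → φ (Real.log n / Real.log T) = 0) →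
      s.re = 1 / 2 + c / Real.log T → 13 / 10 * T ≤ s.im → s.im ≤ 18 / 10 * T →
      ∫ y in -(T / 20)..(T / 20), ‖RP (rf φ (b / Real.log T) (Real.log T)) X (s + y * I)‖ ^ 8 *
        gw (T / Real.log T ^ 2) y ≤ C * (T / Real.log T ^ 2) := by
  obtain ⟨C, C0, hC⟩ := hz.momr c0 b0 8
  obtain ⟨A, -, hA⟩ := hz.rc c0 b
  obtain ⟨K, K0, hK⟩ := h.kk_le 0
  refine ⟨2 ^ 7 * (K ^ 8 * 4 ^ 7 * (C * 4) + 2), by positivity, ?_⟩
  filter_upwards [hC, hA, h.smooth A, eventually_ge_atTop 1,
    Real.tendsto_log_atTop.eventually_gt_atTop (2 * (c + b)),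
    Real.tendsto_log_atTop.eventually_ge_atTop 1] with T hC hA hS T1 L1 L2 X s hX s1 s2 s3
  set L := Real.log T
  set H := T / L ^ 2
  have L0 : 0 < L := by linarith
  have H0 : 0 < H := by positivity
  have a0 := div_pos c0 L0
  have a1 : (c + b) / L < 1 / 2 := by rw [div_lt_iff₀ L0]; linarith
  rw [add_div] at a1
  set β := b / L
  have β0 : 0 ≤ β := by positivity
  have nβ : ‖(β : ℂ)‖ = β := by rw [norm_real, Real.norm_of_nonneg β0]
  have V0 : -(T / 20) ≤ T / 20 := by linarith
  have w0 := fun y => (wt_pos L0 y).le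
  have iw := (int_wt L0 V0).trans Real.pi_le_four
  set d : ℝ → ℝ → ℝ := fun y v => ‖riemannZeta (s + v * I + y * I + β) /
    riemannZeta (s + v * I + y * I)‖ with hd
  have cd : Continuous d.uncurry := (hz.cont (X := ℝ × ℝ) (f := fun p => s + p.2 * I + p.1 * I + β)
    (g := fun p => s + p.2 * I + p.1 * I) (by fun_prop) (by fun_prop) (fun y => by simp; linarith)
    (fun y => by simp [-one_div]; linarith) fun y => by simp; linarith).norm
  have cF : Continuous (Function.uncurry fun y v => d y v ^ 8 * gw H y * wt L v) :=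
    ((cd.pow 8).mul ((cont_gw H).comp continuous_fst)).mul ((cont_wt L).comp continuous_snd)
  have f := fub cF (-(T / 20)) (T / 20) V0 (w := fun v => C * H * wt L v) (by fun_prop) fun v hv => by
    rw [intervalIntegral.integral_mul_const]
    exact mul_le_mul_of_nonneg_right (hC (s + v * I) β (by simpa using s1)
      (by simp; linarith [hv.1]) (by simp; linarith [hv.2]) (by simpa using β0) nβ) (w0 v)
  have cI := intervalIntegral.continuous_parametric_intervalIntegral_of_continuous' (μ := volume) cF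
    (-(T / 20)) (T / 20)
  refine (intervalIntegral.integral_mono_on V0 (Continuous.intervalIntegrable (by
      have := (diff_RP (rf φ β L) X).continuous; fun_prop) _ _)
    (g := fun y => 2 ^ 7 * (K ^ 8 * 4 ^ 7 * (∫ v in -(T / 20)..(T / 20),
      d y v ^ 8 * gw H y * wt L v) + gw H y))
    (Continuous.intervalIntegrable (by fun_prop) _ _) fun y hy => ?_).trans ?_
  · have cy : Continuous (d y) := cd.uncurry_left y
    have sm := hS L (fun z => riemannZeta (z + β) / riemannZeta z) (mm 0 β) (s + y * I) L2 le_rfl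
      (by simp; linarith) (fun n => (norm_mm (by simp) (by simpa using β0) n).trans
        (by exact_mod_cast Nat.le_self_pow two_ne_zero n))
      (fun w w1 w2 w3 => by
        have := abs_le.1 w3
        obtain ⟨b1, b2⟩ := hA (s + y * I + w) β (by simp; linarith [hy.1])
          (by simp; linarith [hy.2]) (by simp [-one_div]; linarith) (by simp; linarith)
          (by simpa using β0) nβ.le
        exact ⟨(DifferentiableAt.comp (g := riemannZeta) (f := fun z : ℂ => z + β) (s + y * I + w)
          (differentiableAt_riemannZeta (ne_one (by simp; linarith [hy.1]))) (by fun_prop)).div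
          (differentiableAt_riemannZeta (ne_one (by simp; linarith [hy.1]))) b1, b2⟩)
      fun v => by
        have := (has_mm (z := 0) (z' := β) (s := s + y * I + 4 + v * I) (by simp; linarith)
          (by simp; linarith)).LSeries_eq
        rw [this, add_zero]
    rw [tsum_congr (g := LSeries.term (rf φ β L) (s + y * I)) fun n => by
        rw [term_pw, term_pw, rf_apply]; ring,
      (has_RP (fun n hn => by rw [rf_apply, hX n hn, ofReal_zero, mul_zero]) _).tsum_eq] at sm
    have n1 : ‖∫ v in -(T / 20)..(T / 20), kk φ L (v * I) * (riemannZeta (s + y * I + v * I + β) /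
        riemannZeta (s + y * I + v * I))‖ ≤ K * ∫ v in -(T / 20)..(T / 20), d y v * wt L v := by
      rw [← intervalIntegral.integral_const_mul]
      refine intervalIntegral.norm_integral_le_of_norm_le V0 (ae_of_all _ fun v _ => ?_)
        (Continuous.intervalIntegrable (by fun_prop) _ _)
      rw [norm_mul, add_right_comm s, mul_comm (d y v), ← mul_assoc]
      exact mul_le_mul_of_nonneg_right (by simpa using hK L 0 v L0 le_rfl) (norm_nonneg _)
    have p8 := pow8 (cont_wt L) cy w0 (fun _ => norm_nonneg _) V0 iw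
    have x0 : 0 ≤ ∫ v in -(T / 20)..(T / 20), d y v * wt L v :=
      intervalIntegral.integral_nonneg V0 fun v _ => mul_nonneg (norm_nonneg _) (w0 v)
    have n2 := norm_sub_le_of_le n1 sm
    rw [sub_sub_cancel, norm_mul, norm_mul, norm_real, Real.norm_of_nonneg Real.pi_pos.le,
      norm_ofNat] at n2
    simp only [mul_right_comm _ (gw H y), intervalIntegral.integral_mul_const]
    rw [← mul_assoc, ← add_one_mul, ← mul_assoc]
    refine mul_le_mul_of_nonneg_right ((pow_le_pow_left₀ (norm_nonneg _) (le_trans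
      (le_mul_of_one_le_left (norm_nonneg _) (by linarith [Real.pi_gt_three])) n2) 8).trans
      ((add_pow_le (by positivity) zero_le_one 8).trans ?_)) (gw_pos _ _).le
    rw [one_pow, mul_pow, mul_assoc]
    gcongr
  · rw [intervalIntegral.integral_const_mul, intervalIntegral.integral_add
      (Continuous.intervalIntegrable (by fun_prop) _ _) ((cont_gw H).intervalIntegrable _ _),
      intervalIntegral.integral_const_mul]
    rw [intervalIntegral.integral_const_mul] at f
    have g1 := f.trans (mul_le_mul_of_nonneg_left iw (by positivity))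
    have g2 := int_gw H0 V0
    calc _ ≤ 2 ^ 7 * (K ^ 8 * 4 ^ 7 * (C * H * 4) + 2 * H) := by gcongr
      _ = _ := by ring

theorem Zs.count (hz : Zs ρ) {k : ℝ} (k1 : Real.pi < k) (k2 : k ≤ 3 * Real.pi / 2) : ∃ c : ℝ, 0 < c ∧
    ∀ᶠ T : ℝ in atTop, ∀ S : Finset ℕ, (∀ j, T ≤ (ρ j).im → (ρ (j + 1)).im ≤ 2 * T →
      (ρ (j + 1)).im - (ρ j).im < k / Real.log T → j ∈ S) → c * T * Real.log T ≤ S.card := by
  obtain ⟨c, η, b, φ, c0, η0, b0, sφ, φ1, φ2, hD⟩ := diag_neg k1 k2
  have p0 := Real.pi_pos
  have k0 : 0 < k := by linarith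
  obtain ⟨C₁, C1, h1⟩ := hz.momr c0 k0.le 4
  obtain ⟨C₂, C2, h2⟩ := hz.mom8 c0 b0.le sφ
  set Q := C₁ + C₂ with hQ
  have Q0 : 0 < Q := by positivity
  set W := 4 * (10 ^ 10 * k * c) + 48 * k with hW
  refine ⟨1 / (40 * Q * Real.pi * k), by positivity, ?_⟩
  have lt := Real.tendsto_log_atTop
  filter_upwards [lt.eventually hD, h1, h2, hz.main_int c0 η0 k0.le, hz.loc, eventually_ge_atTop 20,
    big_T 2 one_pos 2, lt.eventually_ge_atTop (2 * W), lt.eventually_ge_atTop (8 * Q * W),
    lt.eventually_gt_atTop (2 * c), lt.eventually_ge_atTop k]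
    with T hD h1 h2 hM hL T1 T2 L1 L2 L3 L4 S hS
  rw [one_mul, Real.exp_log (by linarith)] at T2
  set L := Real.log T
  have L0 : 0 < L := by linarith
  set H := T / L ^ 2
  have H2 : 2 ≤ H := (le_div_iff₀ (by positivity)).2 T2
  set h := k / L with hh
  set α := c / L with hα
  have h0 : 0 < h := by positivity
  have h1' : h ≤ 1 := (div_le_one L0).2 L4
  have a0 : 0 < α := by positivity
  have a1 : α < 1 / 2 := by rw [hα, div_lt_iff₀ L0]; linarith
  set e := 4 * (10 ^ 10 * L * h * α) + 48 * h with he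
  have e0 : e = W / L := by rw [he, hW, hh, hα]; field_simp
  have e1 : e ≤ 1 / 2 := by rw [e0, div_le_iff₀ L0]; linarith
  have e2 : Q * e ≤ 1 / 8 := by rw [e0, ← mul_div_assoc, div_le_iff₀ L0]; linarith
  have e3 : 0 ≤ e := by positivity
  set X := ⌊Real.exp ((1 - η) * L)⌋₊
  have hX : ∀ n : ℕ, X < n → φ (Real.log n / L) = 0 := fun n hn => φ2 _ ((le_div_iff₀ L0).2
    ((Real.le_log_iff_exp_le (Nat.cast_pos.2 (by omega))).2 ((Nat.floor_lt (Real.exp_pos _).le).1
      hn).le))
  have β0 : 0 ≤ b / L := by positivity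
  have V0 : -(T / 20) ≤ T / 20 := by linarith
  set B : ℝ → ℝ := fun u => ∑ j ∈ S, aa α h (u - (ρ j).im) with hB
  have cB : Continuous B := by rw [hB]; fun_prop
  have key : ∀ τ ∈ Icc (13 / 10 * T) (17 / 10 * T),
      H / (8 * Q) ≤ ∫ y in -(T / 20)..(T / 20), B (τ + y) * gw H y := fun τ ht => by
    obtain ⟨t1, t2⟩ := ht
    set s : ℂ := 1 / 2 + α + τ * I with hs
    have sr : s.re = 1 / 2 + α := by simp [hs]
    have si : s.im = τ := by simp [hs]
    have m := hM (rf φ (b / L) L) X (s + h * I)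
      (fun n hn => by rw [rf_apply, hX n hn, ofReal_zero, mul_zero])
      (fun n => by
        rw [rf_apply, norm_mul, norm_real]; exact mul_le_one₀ (norm_r β0 n) (norm_nonneg _) (φ1 _))
      (fun n => by
        obtain ⟨r, -, q, -⟩ := rho β0 n
        rw [rf_apply, q, map_mul, conj_ofReal, conj_ofReal])
      (Nat.floor_le (Real.exp_pos _).le) (by simp [sr]) (by simp [si]; linarith)
      (by simp [si]; linarith)
    have m1 := h1 s (h * I) sr (by linarith) (by linarith) (by simp) (by simp [h0.le])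
    have m2 := h2 X (s + h * I) hX (by simp [sr]) (by simp [si]; linarith) (by simp [si]; linarith)
    have d := hD X hX
    simp only [add_right_comm s (h * I), add_neg_cancel_right] at m m2
    have cG : Continuous fun y : ℝ => riemannZeta (s + y * I + h * I) / riemannZeta (s + y * I) :=
      hz.cont (by fun_prop) (by fun_prop) (fun y => by simp; linarith)
        (fun y => by simp [-one_div]; linarith) fun y => by simp; linarith
    have cR : Continuous fun y : ℝ => ‖RP (rf φ (b / L) L) X (s + y * I + h * I)‖ := by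
      have := (diff_RP (rf φ (b / L) L) X).continuous; fun_prop
    set G : ℝ → ℂ := fun y => riemannZeta (s + y * I + h * I) / riemannZeta (s + y * I) with hG
    set R : ℝ → ℝ := fun y => ‖RP (rf φ (b / L) L) X (s + y * I + h * I)‖ with hR
    have m3 := abs_im_le_norm (exp (I * k / 2) * _) |>.trans ((norm_mul_le_of_le
      (show ‖exp (I * k / 2)‖ ≤ 1 by rw [norm_exp]; simp) m).trans (one_mul _).le)
    rw [mul_sub, sub_im, mul_left_comm, im_ofReal_mul, ← intervalIntegral.integral_const_mul,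
      ← imCLM_apply, ← imCLM.intervalIntegral_comp_comm (f := fun y : ℝ => exp (I * k / 2) *
        ((gw H y * R y ^ 2 : ℝ) * G y)) (Continuous.intervalIntegrable (by fun_prop) _ _)] at m3
    have i := fun {f : ℝ → ℝ} (hf : Continuous f) =>
      hf.intervalIntegrable (μ := volume) (-(T / 20)) (T / 20)
    have m4 := intervalIntegral.integral_mono_on (μ := volume) V0
      (f := fun y => -imCLM (exp (I * k / 2) * ((gw H y * R y ^ 2 : ℝ) * G y)))
      (g := fun y => (‖G y‖ ^ 4 * gw H y + R y ^ 8 * gw H y) / (2 * Q) +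
        2 * Q * (B (τ + y) * gw H y) + 2 * Q * e ^ 2 * gw H y) (i (by fun_prop)) (i (by fun_prop))
      fun y hy => by
        have q := hz.herg (hL (τ + y) (by linarith [hy.1]) (by linarith [hy.2])) (T := T)
          (by linarith) (by linarith [hy.1]) (by linarith [hy.2]) h0.le a0 (by linarith) e1 (S := S)
          fun j j1 j2 => hS j (by linarith [(abs_le.1 j1).1, hy.1])
            (by linarith [(abs_le.1 j1).2, hy.2]) j2
        rw [show (1 / 2 + α + (τ + y : ℝ) * I : ℂ) = s + y * I by rw [hs]; push_cast; ring,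
          show (I * h * L / 2 : ℂ) = I * k / 2 by
            rw [mul_assoc, ← ofReal_mul, hh, div_mul_cancel₀ _ L0.ne'], neg_le] at q
        have y1 := young (g := ‖G y‖) (r := R y) (e := e) Q0 (le_min zero_le_one
          (Finset.sum_nonneg fun j _ => aa_nonneg a0 h0.le (τ + y - (ρ j).im)))
          (min_le_left 1 (B (τ + y))) (min_le_right _ _)
        rw [imCLM_apply, mul_left_comm, im_ofReal_mul, ← mul_neg, mul_assoc]
        exact (mul_le_mul_of_nonneg_left ((mul_le_mul_of_nonneg_left q (sq_nonneg _)).trans y1)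
          (gw_pos _ _).le).trans (le_of_eq (by ring))
    rw [intervalIntegral.integral_neg, intervalIntegral.integral_add (i (by fun_prop))
      (i (by fun_prop)), intervalIntegral.integral_add (i (by fun_prop)) (i (by fun_prop)),
      intervalIntegral.integral_div, intervalIntegral.integral_add (i (by fun_prop))
      (i (by fun_prop)), intervalIntegral.integral_const_mul,
      intervalIntegral.integral_const_mul] at m4
    have m5 := (div_le_div_of_nonneg_right (add_le_add m1 m2) (by positivity : 0 ≤ 2 * Q)).trans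
      (le_of_eq (show _ = H / 2 by rw [hQ]; field_simp))
    have m6 := mul_le_mul (show 2 * Q * e ^ 2 ≤ 1 / 8 by nlinarith) (int_gw (by linarith : 0 < H) V0)
      (intervalIntegral.integral_nonneg V0 fun y _ => (gw_pos _ _).le) (by norm_num)
    have sp : 3 / 2 ≤ √Real.pi := Real.le_sqrt_of_sq_le (by linarith [Real.pi_gt_three])
    have m7 := mul_le_mul_of_nonneg_left d (by positivity : 0 ≤ √Real.pi * H)
    rw [div_le_iff₀ (by positivity)]
    nlinarith [(abs_le.1 m3).2]
  have cF : Continuous (Function.uncurry fun τ y => B (τ + y) * gw H y) := by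
    unfold Function.uncurry; fun_prop
  have f := fub cF (13 / 10 * T) (17 / 10 * T) V0 (w := fun y => S.card * (Real.pi * h) * gw H y)
    (by fun_prop) fun y _ => by
      rw [intervalIntegral.integral_mul_const, hB]
      refine mul_le_mul_of_nonneg_right ?_ (gw_pos _ _).le
      rw [intervalIntegral.integral_finsetSum fun j _ =>
        Continuous.intervalIntegrable (by fun_prop) _ _, ← nsmul_eq_mul]
      refine Finset.sum_le_card_nsmul _ _ _ fun j _ => ?_
      simp only [← sub_sub_eq_add_sub]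
      exact int_aa h0.le _ _ _
  have g := intervalIntegral.integral_mono_on (μ := volume) (by linarith)
    intervalIntegrable_const ((intervalIntegral.continuous_parametric_intervalIntegral_of_continuous'
      cF _ _).intervalIntegrable _ _) key
  rw [intervalIntegral.integral_const_mul] at f
  have := (g.trans f).trans (mul_le_mul_of_nonneg_left (int_gw (by linarith) V0) (by positivity))
  rw [intervalIntegral.integral_const, smul_eq_mul, hh] at this
  refine le_of_mul_le_mul_right (le_trans (le_of_eq ?_) (this.trans (le_of_eq ?_)))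
    (by positivity : 0 < Real.pi * (k / L) * (2 * H))
  · field_simp; ring
  · ring

theorem Zs.pos_prop (hz : Zs ρ) {ε : ℝ} (hε : 0 < ε) : ∃ c : ℝ, 0 < c ∧ ∀ᶠ T : ℝ in atTop,
    c * T * Real.log T ≤ ({j : ℕ | T ≤ (ρ j).im ∧ (ρ (j + 1)).im ≤ 2 * T ∧
      (ρ (j + 1)).im * Real.log (ρ (j + 1)).im / (2 * Real.pi) -
        (ρ j).im * Real.log (ρ j).im / (2 * Real.pi) ≤ 1 / 2 + ε}.ncard : ℝ) := by
  have p0 := Real.pi_pos
  have m0 := lt_min hε one_half_pos
  have m1 := min_le_left ε (1 / 2)
  have m2 := min_le_right ε (1 / 2)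
  generalize min ε (1 / 2) = δ at m0 m1 m2
  obtain ⟨c, c0, hc⟩ := hz.count (k := Real.pi * (1 + δ)) (by nlinarith) (by nlinarith)
  refine ⟨c, c0, ?_⟩
  filter_upwards [hc, eventually_ge_atTop 1, Real.tendsto_log_atTop.eventually_ge_atTop (3 / ε)]
    with T hc T1 L1
  have mo : ∀ j, (ρ j).im ≤ (ρ (j + 1)).im := fun j => hz.mono j.le_succ
  rw [ncard_eq_toFinset_card _ ((hz.fin (isCompact_closedBall 0 (2 * T + 1))).subset fun j hj => by
    rw [mem_ofPred_eq, mem_closedBall_zero_iff]
    refine (norm_le_abs_re_add_abs_im _).trans ?_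
    rw [hz.line (hz.pos j) (hz.zero j), abs_of_pos (hz.pos j), abs_of_pos one_half_pos]
    linarith [mo j, hj.2.1])]
  refine hc _ fun j j1 j2 j3 => (Finite.mem_toFinset _).2 ⟨j1, j2, ?_⟩
  have L0 : 0 < Real.log T := (div_pos three_pos hε).trans_le L1
  rw [← sub_div, div_le_iff₀ (by positivity)]
  refine (xlog T1 j1 (mo j) j2 j3.le).trans ?_
  rw [div_le_iff₀ hε] at L1
  rw [div_mul_eq_mul_div, div_le_iff₀ L0, mul_assoc, mul_comm _ (2 * _), mul_comm 2, mul_assoc,
    mul_assoc]
  exact mul_le_mul_of_nonneg_left (by nlinarith) p0.le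

end Pool.Agent.MP_f0209c_nt.Pp
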