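import Pool.Agent.MP_f0209c_nt.Pp.Dia

/-! The main integral. -/

namespace Pool.Agent.MP_f0209c_nt.Pp
open Complex Set Filter Topology ArithmeticFunction MeasureTheory Ch ComplexConjugate

lemma gint {H : ℝ} (H0 : 0 < H) (a : ℝ) (z : ℂ) :
    Integrable (fun y : ℝ => exp (z + (4 + y * I) * a + (4 + y * I) ^ 2 / H ^ 2)) ∧
    ∫ y : ℝ, exp (z + (4 + y * I) * a + (4 + y * I) ^ 2 / H ^ 2) =
      (√Real.pi * H : ℝ) * exp (z - (H ^ 2 * a ^ 2 / 4 : ℝ)) := by
  obtain ⟨i, e⟩ := gauss (b := 1 / H ^ 2) (by positivity) (I * (a + 8 / H ^ 2))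
    (z + 4 * a + 16 / H ^ 2)
  have hc : (H : ℂ) ≠ 0 := by exact_mod_cast H0.ne'
  have q : ∀ y : ℝ, z + (4 + y * I) * a + (4 + y * I) ^ 2 / H ^ 2 = -(1 / H ^ 2 : ℝ) * y ^ 2 +
      I * (a + 8 / H ^ 2) * y + (z + 4 * a + 16 / H ^ 2) := fun y => by
    push_cast; linear_combination (y ^ 2 / H ^ 2 : ℂ) * I_mul_I
  simp only [q]
  refine ⟨i, e.trans ?_⟩
  rw [div_div_eq_mul_div, div_one, Real.sqrt_mul Real.pi_pos.le, Real.sqrt_sq H0.le, mul_pow, I_sq]
  congr 2
  push_cast; field_simp; ring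

lemma per_n {Φ : ℂ → ℂ} {b : ℕ → ℂ} {s : ℂ} {H V M P Y : ℝ} {X n : ℕ} (H6 : 6 ≤ H) (V0 : 0 ≤ V)
    (s0 : 0 ≤ s.re) (s1 : s.re ≤ 1) (hb : ∀ m, ‖b m‖ ≤ (m : ℝ) ^ 2)
    (hΦ : ∀ w : ℂ, 0 ≤ w.re → w.re ≤ 4 → |w.im| ≤ V →
      DifferentiableAt ℂ Φ (s + w) ∧ ‖Φ (s + w)‖ ≤ M)
    (hL : ∀ y : ℝ, Φ (s + 4 + y * I) = LSeries b (s + 4 + y * I)) (n1 : 1 ≤ n) (n2 : n ≤ X)
    (n3 : Real.log n ≤ Y) (P0 : 0 ≤ P) (P1 : 2 * P ≤ V ^ 2 / H ^ 2)
    (P2 : P * (32 * (X : ℝ) ^ 2) ≤ H ^ 2) :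
    ‖(∫ y in -V..V, exp ((s + y * I) * Real.log n) * gw H y * Φ (s + y * I)) -
      (√Real.pi * H : ℝ) * b n‖ ≤ 20 * (M + H) * Real.exp (5 * Y + 1 - P) := by
  have H0 : 0 < H := by linarith
  have l0 := Real.log_natCast_nonneg n
  have M0 : 0 ≤ M := (norm_nonneg _).trans (hΦ 0 le_rfl (by simp) (by simpa using V0)).2
  set e := Real.exp (5 * Y + 1 - P) with he
  have e0 : 0 < e := Real.exp_pos _
  have nK : ∀ x ∈ Icc (0 : ℝ) 4, ∀ y : ℝ, V ≤ |y| → ‖exp (s * Real.log n + (x + y * I) * Real.log n +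
      (x + y * I) ^ 2 / H ^ 2)‖ ≤ e * Real.exp (-((H⁻¹ * y) ^ 2 / 2)) := fun x hx y hy => by
    rw [norm_exp, he, ← Real.exp_add, ← ofReal_pow, add_re, div_ofReal_re, add_re, re_mul_ofReal,
      re_mul_ofReal, show ((x + y * I) ^ 2 : ℂ).re = x ^ 2 - y ^ 2 by simp [sq],
      show (x + y * I : ℂ).re = x by simp, sub_div, inv_mul_eq_div, div_pow]
    have a : x ^ 2 / H ^ 2 ≤ 1 := by rw [div_le_one (by positivity)]; nlinarith [hx.1, hx.2]
    have c : V ^ 2 / H ^ 2 ≤ y ^ 2 / H ^ 2 := by rw [← sq_abs y]; gcongr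
    exact Real.exp_le_exp.2 (by nlinarith [hx.1, hx.2])
  obtain ⟨S, hS, er⟩ := shift (F := Φ) (f := b) (s := s) (V := V) (l := H⁻¹)
    (K := fun w => exp (s * Real.log n + w * Real.log n + w ^ 2 / H ^ 2))
    (κ := fun m => (√Real.pi * H : ℝ) * exp (s * Real.log n -
      (H ^ 2 * (Real.log n - Real.log m) ^ 2 / 4 : ℝ))) (M₁ := e * M) (M₂ := 2 * H * e) V0
    (by positivity) (by positivity) s0 hb (fun w a b c => (hΦ w a b c).1) (by fun_prop) hL
    (gint H0 _ _).1
    (fun x hx y hy => norm_mul_le_of_le ((nK x hx y hy.ge).trans (mul_le_of_le_one_right e0.le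
      (Real.exp_le_one_iff.2 (neg_nonpos.2 (by positivity))))) (hΦ _ (by simpa using hx.1)
        (by simpa using hx.2) (by simpa using hy.le)).2)
    (fun y hy => by
      refine le_trans (by simpa using nK 4 (by norm_num) y hy) (le_trans
        (mul_le_mul_of_nonneg_left (c := 2 * (1 + (H⁻¹ * y) ^ 2)⁻¹) ?_ e0.le) (le_of_eq ?_))
      · rw [Real.exp_neg, ← div_eq_mul_inv, inv_le_comm₀ (Real.exp_pos _) (by positivity), inv_div]
        linarith [Real.add_one_le_exp ((H⁻¹ * y) ^ 2 / 2)]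
      · rw [wt]; field_simp)
    fun m => by
      rw [← (gint H0 _ _).2]
      refine integral_congr_ae (ae_of_all _ fun y => ?_)
      dsimp only
      rw [← exp_add]; congr 1; push_cast; ring
  have n0 : n ≠ 0 := by omega
  obtain ⟨t1, t2⟩ := summ_sq hb (s := s + 4) (by simpa using s0)
  have sp : √Real.pi ≤ 2 := Real.sqrt_le_iff.2 ⟨zero_le_two, by linarith [Real.pi_le_four]⟩
  have off := tsum_of_norm_bounded (t1.norm.mul_right (2 * H * e)).hasSum
    (f := fun m => LSeries.term b s m * ((√Real.pi * H : ℝ) * exp (s * Real.log n -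
      (H ^ 2 * (Real.log n - Real.log m) ^ 2 / 4 : ℝ))) -
        if m = n then (√Real.pi * H : ℝ) * b n else 0) fun m => by
      split_ifs with c
      · rw [c, term_eq _ _ n0, sub_self, zero_pow two_ne_zero, mul_zero, zero_div, ofReal_zero, sub_zero,
          mul_mul_mul_comm, ← exp_add, neg_mul, neg_add_cancel, exp_zero, mul_one, mul_comm,
          sub_self, norm_zero]
        positivity
      rcases eq_or_ne m 0 with rfl | m0
      · simp
      have a := term_add b (s + 4) (-4) m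
      rw [add_neg_cancel_right] at a
      rw [sub_zero, a, mul_assoc, norm_mul, mul_left_comm, ← exp_add, norm_mul, norm_real,
        Real.norm_of_nonneg (by positivity), norm_exp, he]
      have q := log_sep n1 n2 (Nat.pos_of_ne_zero m0) c
      have X0 : (0 : ℝ) < X := Nat.cast_pos.2 (by omega)
      have q1 : P ≤ H ^ 2 * (Real.log n - Real.log m) ^ 2 / 8 := by
        rw [div_le_iff₀ (by positivity)] at q
        have := pow_le_pow_left₀ zero_le_one q 2
        rw [mul_pow, sq_abs] at this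
        nlinarith [mul_le_mul_of_nonneg_left P2 (sq_nonneg (Real.log n - Real.log m)),
          mul_le_mul_of_nonneg_left this P0]
      gcongr
      rw [add_re, sub_re, re_mul_ofReal, re_mul_ofReal, ofReal_re]
      simp only [neg_neg, re_ofNat]
      nlinarith [mul_le_mul_of_nonneg_right (show 36 ≤ H ^ 2 by nlinarith)
        (sq_nonneg (Real.log n - Real.log m)), sq_nonneg (2 * (Real.log n - Real.log m) + 1)]
  rw [(hS.sub (hasSum_ite_eq n _)).tsum_eq, tsum_mul_right] at off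
  rw [intervalIntegral.integral_congr (g := fun y : ℝ => exp (s * Real.log n + y * I * Real.log n +
    (y * I) ^ 2 / H ^ 2) * Φ (s + y * I)) fun y _ => by
      dsimp only
      rw [gw, ofReal_exp, ← exp_add, mul_pow, I_sq]; congr 2; push_cast; ring]
  refine (norm_sub_le_norm_sub_add_norm_sub _ S _).trans ((add_le_add er (off.trans
    (mul_le_mul_of_nonneg_right t2 (by positivity)))).trans ?_)
  nlinarith [mul_nonneg M0 e0.le]

variable {ρ : ℕ → ℂ}

lemma Zs.ratio (hz : Zs ρ) {s w : ℂ} {M : ℝ} (w0 : 0 ≤ w.re) (s0 : 1 / 2 < s.re) (s1 : ‖w‖ < s.im)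
    (h : ∀ z : ℂ, s.re ≤ z.re → z.re ≤ s.re + ‖w‖ → |z.im - s.im| ≤ ‖w‖ → ‖ZZ z‖ ≤ M) :
    ‖riemannZeta (s + w) / riemannZeta s‖ ≤ Real.exp (M * ‖w‖) := by
  refine Pp.ratio fun t ht => ?_
  have n : ‖t * w‖ ≤ ‖w‖ := by
    rw [norm_mul, norm_real, Real.norm_of_nonneg ht.1]
    exact mul_le_of_le_one_left (norm_nonneg _) ht.2
  have a : 0 ≤ (t * w).re := by rw [re_ofReal_mul]; exact mul_nonneg ht.1 w0
  have b := (abs_im_le_norm _).trans n
  have c := (re_le_norm _).trans n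
  have p : 0 < (s + t * w).im := by rw [add_im]; linarith [(abs_le.1 b).1]
  exact ⟨ne_one p, hz.ne p (by rw [add_re]; linarith), h _ (by rw [add_re]; linarith)
    (by rw [add_re]; linarith) (by rwa [add_im, add_sub_cancel_left])⟩

lemma Zs.rc (hz : Zs ρ) {c : ℝ} (c0 : 0 < c) (k : ℝ) : ∃ A : ℝ, 0 ≤ A ∧ ∀ᶠ T : ℝ in atTop, ∀ s w : ℂ,
    11 / 10 * T ≤ s.im → s.im ≤ 19 / 10 * T → c / Real.log T ≤ s.re - 1 / 2 → s.re ≤ 6 → 0 ≤ w.re →
    ‖w‖ ≤ k / Real.log T → riemannZeta s ≠ 0 ∧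
      ‖riemannZeta (s + w) / riemannZeta s‖ ≤ Real.exp (A * Real.log T) := by
  refine ⟨2 * 10 ^ 10 * |k| / c, by positivity, ?_⟩
  filter_upwards [hz.crude', eventually_ge_atTop 50, Real.tendsto_log_atTop.eventually_gt_atTop c,
    Real.tendsto_log_atTop.eventually_ge_atTop k] with T hC T1 L1 L2 s w s1 s2 s3 s4 w1 w2
  have L0 : 0 < Real.log T := by linarith
  have a0 := div_pos c0 L0
  have w3 : ‖w‖ ≤ 1 := w2.trans ((div_le_one L0).2 L2)
  refine ⟨hz.ne (by linarith) (by linarith), (hz.ratio w1 (by linarith) (by linarith)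
    fun z z1 z2 z3 => hC z _ (by linarith [(abs_le.1 z3).1]) (by linarith [(abs_le.1 z3).2]) a0
      ((div_le_one L0).2 L1.le) (by linarith) (by linarith)).trans (Real.exp_le_exp.2 ?_)⟩
  refine (mul_le_mul_of_nonneg_left (w2.trans (div_le_div_of_nonneg_right (le_abs_self k) L0.le))
    (by positivity)).trans (le_of_eq ?_)
  field_simp

/-- the resonator -/
noncomputable def RP (r : ℕ → ℂ) (X : ℕ) (s : ℂ) : ℂ :=
  ∑ n ∈ Finset.Icc 1 X, r n * exp (-s * Real.log n)

@[fun_prop] lemma diff_RP (r : ℕ → ℂ) (X : ℕ) : Differentiable ℂ (RP r X) := by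
  unfold RP; fun_prop

lemma has_RP {r : ℕ → ℂ} {X : ℕ} (h : ∀ n, X < n → r n = 0) (s : ℂ) :
    LSeriesHasSum r s (RP r X s) := by
  rw [RP, Finset.sum_congr rfl fun n hn => (term_eq r s (n := n) (by
    have := (Finset.mem_Icc.1 hn).1; omega)).symm]
  refine hasSum_sum_of_ne_finset_zero fun n hn => ?_
  rcases eq_or_ne n 0 with rfl | n0
  · simp
  · rw [term_pw, h n (by rw [Finset.mem_Icc] at hn; omega), zero_mul]

lemma norm_RP {r : ℕ → ℂ} (h : ∀ n, ‖r n‖ ≤ 1) (X : ℕ) {s : ℂ} (s0 : 0 ≤ s.re) :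
    ‖RP r X s‖ ≤ X := by
  refine (norm_sum_le_of_le _ (n := fun _ => 1) fun n _ => (norm_mul_le_of_le (h n)
    (nexp s0 (Real.log_natCast_nonneg n))).trans (one_mul _).le).trans (by simp)

theorem Zs.main_int (hz : Zs ρ) {c η : ℝ} (c0 : 0 < c) (η0 : 0 < η) {k : ℝ} (k0 : 0 ≤ k) :
    ∀ᶠ T : ℝ in atTop, ∀ (r : ArithmeticFunction ℂ) (X : ℕ) (s : ℂ), (∀ n, X < n → r n = 0) →
      (∀ n, ‖r n‖ ≤ 1) → (∀ n, conj (r n) = r n) → X ≤ Real.exp ((1 - η) * Real.log T) →
      s.re = 1 / 2 + c / Real.log T → 12 / 10 * T ≤ s.im → s.im ≤ 18 / 10 * T →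
      ‖(∫ y in -(T / 20)..(T / 20), (gw (T / Real.log T ^ 2) y * ‖RP r X (s + y * I)‖ ^ 2 : ℝ) *
        (riemannZeta (s + y * I) / riemannZeta (s + y * I + -((k / Real.log T : ℝ) * I)))) -
        (√Real.pi * (T / Real.log T ^ 2) : ℝ) * ∑ n ∈ Finset.Icc 1 X,
          (mm (-((k / Real.log T : ℝ) * I)) 0 * r) n * r n * ex (1 + 2 * c / Real.log T) n‖ ≤ 1 := by
  obtain ⟨A, A0, hA⟩ := hz.rc c0 k
  filter_upwards [hA, eventually_ge_atTop 20, big_T 2 one_pos 6,
    big_T 5 (mul_pos two_pos η0) (32 * (A + 47)),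
    Real.tendsto_log_atTop.eventually_ge_atTop (800 * (A + 47)),
    Real.tendsto_log_atTop.eventually_ge_atTop (2 * c),
    Real.tendsto_log_atTop.eventually_ge_atTop k] with T hA T1 T2 T3 L1 L2 L3 r X s r0 r1 r2 hX s1 s2 s3
  set L := Real.log T with hL
  have eT : Real.exp L = T := Real.exp_log (by linarith)
  have L4 : 1 ≤ L := by linarith
  have L0 : 0 < L := by linarith
  rw [one_mul, eT] at T2
  set h := k / L with hh
  have h0 : 0 ≤ h := by positivity
  have h1 : h ≤ 1 := (div_le_one L0).2 L3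
  have a0 := div_pos c0 L0
  have a1 : c / L ≤ 1 / 2 := by rw [div_le_iff₀ L0]; linarith
  set H := T / L ^ 2 with hH
  have H6 : 6 ≤ H := (le_div_iff₀ (by positivity)).2 T2
  have H1 : H ≤ Real.exp ((A + 1) * L) := (div_le_self (by linarith) (one_le_pow₀ L4)).trans
    (eT ▸ Real.exp_le_exp.2 (by nlinarith))
  have X1 : (X : ℝ) ≤ Real.exp L := hX.trans (Real.exp_le_exp.2 (by nlinarith))
  set Φ : ℂ → ℂ := fun z => riemannZeta z / riemannZeta (z + -(h * I)) * RP r X z with hΦ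
  have hr : ∀ w : ℂ, 0 ≤ w.re → w.re ≤ 4 → |w.im| ≤ T / 20 →
      DifferentiableAt ℂ Φ (s + w) ∧ ‖Φ (s + w)‖ ≤ Real.exp ((A + 1) * L) := fun w w1 w2 w3 => by
    have := abs_le.1 w3
    obtain ⟨b1, b2⟩ := hA (s + w + -(h * I)) (h * I) (by simp; linarith) (by simp; linarith)
      (by simp; linarith) (by simp; linarith) (by simp) (by simp [abs_of_nonneg h0])
    rw [neg_add_cancel_right] at b2
    refine ⟨((differentiableAt_riemannZeta (ne_one (by simp; linarith))).div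
      (DifferentiableAt.comp (g := riemannZeta) (f := fun z => z + -(h * I)) (s + w)
        (differentiableAt_riemannZeta (ne_one (by simp; linarith))) (by fun_prop)) b1).mul
      (diff_RP r X _), ?_⟩
    rw [add_mul, one_mul, Real.exp_add]
    exact norm_mul_le_of_le b2 ((norm_RP r1 X (by simp; linarith)).trans X1)
  have pn := fun n (hn : n ∈ Finset.Icc 1 X) => per_n (Φ := Φ) (b := ⇑(mm (-(h * I)) 0 * r))
    (P := (A + 47) * L) (Y := L) H6 (by linarith : 0 ≤ T / 20) (by linarith) (by linarith)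
    (fun m => (norm_conv m.cast_nonneg (fun d hd => (norm_mm (by simp) (by simp) d).trans
      (Nat.cast_le.2 hd)) r1).trans (sq _).ge) hr
    (fun y => by
      have := (LSeriesHasSum_mul (has_mm (z := -(h * I)) (z' := 0) (s := s + 4 + y * I)
        (by simp; linarith) (by simp; linarith)) (has_RP r0 _)).LSeries_eq
      rw [this, add_zero])
    (Finset.mem_Icc.1 hn).1 (Finset.mem_Icc.1 hn).2
    ((Real.log_le_iff_le_exp (Nat.cast_pos.2 (Finset.mem_Icc.1 hn).1)).2
      ((Nat.cast_le.2 (Finset.mem_Icc.1 hn).2).trans X1)) (by positivity)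
    (by
      rw [hH, show (T / 20) ^ 2 / (T / L ^ 2) ^ 2 = L * L * L ^ 2 / 400 by
        have : T ≠ 0 := by linarith
        field_simp; norm_num]
      nlinarith [mul_le_mul L1 (one_le_pow₀ (n := 2) L4) zero_le_one L0.le])
    (by
      have b := pow_le_pow_left₀ X.cast_nonneg hX 2
      have e : Real.exp (2 * η * L) * Real.exp ((1 - η) * L) ^ 2 = T ^ 2 := by
        rw [← eT, ← Real.exp_nat_mul, ← Real.exp_nat_mul, ← Real.exp_add]; congr 1; push_cast; ring
      rw [hH, div_pow, le_div_iff₀ (by positivity), ← e]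
      exact le_trans (le_of_eq (by ring)) (mul_le_mul T3 b (by positivity) (by positivity)))
  have V0 : -(T / 20) ≤ T / 20 := by linarith
  have cz : ContinuousOn (fun y : ℝ => Φ (s + y * I)) (uIcc (-(T / 20)) (T / 20)) := fun y hy => by
    rw [uIcc_of_le V0] at hy
    exact (ContinuousAt.comp (f := fun y : ℝ => s + y * I) (hr (y * I) (by simp) (by simp)
      (by simpa using abs_le.2 hy)).1.continuousAt (by fun_prop)).continuousWithinAt
  rw [intervalIntegral.integral_congr (g := fun y : ℝ => ∑ n ∈ Finset.Icc 1 X,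
      r n * ex (1 + 2 * c / L) n * (exp ((s + y * I) * Real.log n) * gw H y * Φ (s + y * I)))
    fun y _ => by
      have e : conj (RP r X (s + y * I)) = ∑ n ∈ Finset.Icc 1 X,
          r n * ex (1 + 2 * c / L) n * exp ((s + y * I) * Real.log n) := by
        rw [RP, map_sum]
        refine Finset.sum_congr rfl fun n _ => ?_
        rw [map_mul, r2, ← exp_conj, ex, ofReal_exp, mul_assoc, ← exp_add, map_mul, conj_ofReal,
          ofReal_mul, ← add_mul]
        congr 3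
        refine Complex.ext ?_ (by simp [-ofReal_div, add_comm])
        simp [-ofReal_div, s1]; ring
      simp only [← mul_assoc, ← Finset.sum_mul, hΦ, ← e]
      push_cast
      rw [← mul_conj']; ring,
    intervalIntegral.integral_finsetSum (f := fun (n : ℕ) (y : ℝ) => r n * ex (1 + 2 * c / L) n *
      (exp ((s + y * I) * Real.log n) * gw H y * Φ (s + y * I)))
      fun n _ => ContinuousOn.intervalIntegrable
      (continuousOn_const.mul ((Continuous.continuousOn (by unfold gw; fun_prop)).mul cz)),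
    Finset.mul_sum, ← Finset.sum_sub_distrib]
  refine (norm_sum_le_of_le _ (n := fun _ => Real.exp (-L)) fun n hn => ?_).trans ?_
  · rw [intervalIntegral.integral_const_mul, mul_assoc _ (r n), mul_comm _ (r n * _), mul_left_comm,
      ← mul_sub]
    refine (norm_mul_le_of_le (norm_mul_le_of_le (r1 n) (show _ ≤ 1 by
      rw [norm_real, Real.norm_of_nonneg (ex_pos _ _).le]; exact ex_le_one (by positivity) n))
      (pn n hn)).trans ?_
    calc _ ≤ 1 * 1 * (20 * (Real.exp ((A + 1) * L) + Real.exp ((A + 1) * L)) *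
          Real.exp (5 * L + 1 - (A + 47) * L)) := by gcongr
      _ = 40 * (Real.exp ((A + 1) * L) * Real.exp (5 * L + 1 - (A + 47) * L)) := by ring
      _ ≤ Real.exp 39 * (Real.exp ((A + 1) * L) * Real.exp (5 * L + 1 - (A + 47) * L)) := by
        gcongr; linarith [Real.add_one_le_exp 39]
      _ ≤ _ := by rw [← Real.exp_add, ← Real.exp_add]; exact Real.exp_le_exp.2 (by linarith)
  · rw [Finset.sum_const, Nat.card_Icc, Nat.add_sub_cancel, nsmul_eq_mul, Real.exp_neg,
      ← div_eq_mul_inv, div_le_one (Real.exp_pos _)]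
    exact X1

end Pool.Agent.MP_f0209c_nt.Pp
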