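import Pool.Agent.MP_f0209c_nt.Zeta

/-! Laplace transforms of smooth cut-off functions and smoothed Dirichlet series. -/

namespace Pool.Agent.MP_f0209c_nt.Pp
open Complex Set Filter Topology MeasureTheory FourierTransform
open scoped ContDiff

/-- smooth and supported in `[-1, 1]` -/
def Sm (φ : ℝ → ℝ) : Prop := ContDiff ℝ ∞ φ ∧ tsupport φ ⊆ Icc (-1) 1

/-- two-sided Laplace transform -/
noncomputable def lap (φ : ℝ → ℝ) (w : ℂ) : ℂ := ∫ y : ℝ, (φ y : ℂ) * exp (w * y)

variable {φ : ℝ → ℝ}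

lemma Sm.deriv (h : Sm φ) : Sm (deriv φ) :=
  ⟨h.1.iterate_deriv 1, tsupport_deriv_subset.trans h.2⟩

lemma Sm.cs (h : Sm φ) : HasCompactSupport φ :=
  isCompact_Icc.of_isClosed_subset (isClosed_tsupport φ) h.2

lemma Sm.zero (h : Sm φ) {y : ℝ} (hy : 1 < |y|) : φ y = 0 :=
  image_eq_zero_of_notMem_tsupport fun e => absurd (abs_le.2 (h.2 e)) (not_le.2 hy)

lemma Sm.cont (h : Sm φ) : Continuous φ := h.1.continuous

lemma Sm.int (h : Sm φ) {g : ℝ → ℂ} (hg : Continuous g) : Integrable fun y => (φ y : ℂ) * g y :=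
  ((continuous_ofReal.comp h.cont).mul hg).integrable_of_hasCompactSupport
    (HasCompactSupport.mul_right (h.cs.comp_left (g := ofReal) ofReal_zero))

lemma Sm.abs_int (h : Sm φ) : Integrable fun y => |φ y| :=
  (h.cont.integrable_of_hasCompactSupport h.cs).abs

lemma Sm.pt (h : Sm φ) (w : ℂ) (y : ℝ) :
    ‖(φ y : ℂ) * exp (w * y)‖ ≤ |φ y| * Real.exp |w.re| := by
  rw [norm_mul, norm_real, norm_exp, Real.norm_eq_abs]
  rcases lt_or_ge 1 |y| with c | c
  · simp [h.zero c]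
  refine mul_le_mul_of_nonneg_left (Real.exp_le_exp.2 ?_) (abs_nonneg _)
  rw [re_mul_ofReal]
  refine (le_abs_self _).trans ?_
  rw [abs_mul]
  exact mul_le_of_le_one_right (abs_nonneg _) c

lemma Sm.norm_lap (h : Sm φ) (w : ℂ) : ‖lap φ w‖ ≤ (∫ y, |φ y|) * Real.exp |w.re| := by
  rw [← integral_mul_const]
  exact norm_integral_le_of_norm_le (h.abs_int.mul_const _) (ae_of_all _ (h.pt w))

lemma Sm.ibp (h : Sm φ) (w : ℂ) : w * lap φ w = -lap (_root_.deriv φ) w := by
  have d : ∀ y : ℝ, HasDerivAt (fun y : ℝ => (φ y : ℂ) * exp (w * y))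
      ((_root_.deriv φ y : ℝ) * exp (w * y) + w * (φ y * exp (w * y))) y := fun y => by
    have a := ((h.1.differentiable (by simp)) y).hasDerivAt.ofReal_comp
    have b := ((hasDerivAt_id y).ofReal_comp.const_mul w).cexp
    refine (a.mul b).congr_deriv ?_
    simp only [id, ofReal_one]; ring
  have i1 := h.deriv.int (g := fun y : ℝ => exp (w * y)) (by fun_prop)
  have i2 := h.int (g := fun y : ℝ => exp (w * y)) (by fun_prop)
  have := integral_eq_zero_of_hasDerivAt_of_integrable d (i1.add (i2.const_mul w)) i2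
  rw [integral_add i1 (i2.const_mul w), integral_const_mul] at this
  unfold lap
  linear_combination this

lemma Sm.decay₀ (N : ℕ) : ∀ {φ : ℝ → ℝ}, Sm φ →
    ∃ C : ℝ, 0 ≤ C ∧ ∀ w : ℂ, ‖w‖ ^ N * ‖lap φ w‖ ≤ C * Real.exp |w.re| := by
  induction N with
  | zero =>
    exact fun h => ⟨_, integral_nonneg fun _ => abs_nonneg _, fun w => by simpa using h.norm_lap w⟩
  | succ N ih =>
    intro φ h
    obtain ⟨C, C0, hC⟩ := ih h.deriv
    refine ⟨C, C0, fun w => ?_⟩
    rw [pow_succ, mul_assoc, ← norm_mul, h.ibp, norm_neg]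
    exact hC w

lemma Sm.decay (h : Sm φ) (N : ℕ) :
    ∃ C : ℝ, 0 < C ∧ ∀ w : ℂ, (1 + |w.im|) ^ N * ‖lap φ w‖ ≤ C * Real.exp |w.re| := by
  obtain ⟨C, C0, hC⟩ := Sm.decay₀ N h
  obtain ⟨D, D0, hD⟩ := Sm.decay₀ 0 h
  refine ⟨2 ^ N * (C + D) + 1, by positivity, fun w => ?_⟩
  have a := hC w
  have b := hD w
  have e := Real.exp_pos |w.re|
  have n := norm_nonneg (lap φ w)
  have p : (0 : ℝ) < 2 ^ N := by positivity
  have : (1 + |w.im|) ^ N ≤ 2 ^ N * (‖w‖ ^ N + 1) := by
    have i := abs_im_le_norm w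
    rcases le_total ‖w‖ 1 with c | c
    · have : (1 + |w.im|) ^ N ≤ 2 ^ N := pow_le_pow_left₀ (by positivity) (by linarith) N
      nlinarith [pow_nonneg (norm_nonneg w) N]
    · have : (1 + |w.im|) ^ N ≤ (2 * ‖w‖) ^ N := pow_le_pow_left₀ (by positivity) (by linarith) N
      rw [mul_pow] at this
      nlinarith
  rw [pow_zero, one_mul] at b
  calc _ ≤ 2 ^ N * (‖w‖ ^ N + 1) * ‖lap φ w‖ := mul_le_mul_of_nonneg_right this n
    _ = 2 ^ N * (‖w‖ ^ N * ‖lap φ w‖ + ‖lap φ w‖) := by ring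
    _ ≤ 2 ^ N * (C * Real.exp |w.re| + D * Real.exp |w.re|) := by gcongr
    _ ≤ _ := by nlinarith

lemma Sm.diff (h : Sm φ) : Differentiable ℂ (lap φ) := fun w₀ => by
  refine (hasDerivAt_integral_of_dominated_loc_of_deriv_le (μ := volume)
    (F := fun w (y : ℝ) => (φ y : ℂ) * exp (w * y))
    (F' := fun w (y : ℝ) => (φ y : ℂ) * (exp (w * y) * y))
    (bound := fun y => |φ y| * Real.exp (‖w₀‖ + 1)) (Metric.ball_mem_nhds w₀ one_pos)
    (Eventually.of_forall fun w => (h.int (by fun_prop)).1) (h.int (by fun_prop))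
    (h.int (by fun_prop)).1 (ae_of_all _ fun y w hw => ?_) (h.abs_int.mul_const _)
    (ae_of_all _ fun y w _ => ?_)).2.differentiableAt
  · rcases lt_or_ge 1 |y| with c | c
    · simp [h.zero c]
    rw [← mul_assoc, norm_mul, norm_real]
    refine (mul_le_of_le_one_right (norm_nonneg _) c).trans ((h.pt w y).trans
      (mul_le_mul_of_nonneg_left (Real.exp_le_exp.2 ?_) (abs_nonneg _)))
    have := mem_ball_iff_norm.1 hw
    linarith [abs_re_le_norm w, norm_le_norm_sub_add w w₀]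
  · simpa using (((hasDerivAt_id w).mul_const (y : ℂ)).cexp).const_mul (φ y : ℂ)

/-- a scaled Cauchy weight -/
noncomputable def wt (l y : ℝ) : ℝ := l * (1 + (l * y) ^ 2)⁻¹

lemma wt_pos {l : ℝ} (hl : 0 < l) (y : ℝ) : 0 < wt l y := by unfold wt; positivity

lemma wt_int {l : ℝ} (hl : 0 < l) : Integrable (wt l) ∧ ∫ y, wt l y = Real.pi := by
  refine ⟨(integrable_inv_one_add_sq.comp_mul_left' hl.ne').const_mul l, ?_⟩
  unfold wt
  rw [integral_const_mul, Measure.integral_comp_mul_left (fun x : ℝ => (1 + x ^ 2)⁻¹),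
    integral_univ_inv_one_add_sq, abs_of_pos (inv_pos.2 hl), smul_eq_mul]
  field_simp

/-- the scaled kernel -/
noncomputable def kk (φ : ℝ → ℝ) (l : ℝ) (w : ℂ) : ℂ := l * lap φ (l * w)

lemma Sm.diff_kk (h : Sm φ) (l : ℝ) : Differentiable ℂ (kk φ l) :=
  (h.diff.comp (by fun_prop)).const_mul _

lemma Sm.kk_le (h : Sm φ) (N : ℕ) : ∃ C : ℝ, 0 < C ∧ ∀ l a y : ℝ, 0 < l → 0 ≤ a →
    (1 + l * |y|) ^ N * ‖kk φ l (a + y * I)‖ ≤ C * Real.exp (l * a) * wt l y := by
  obtain ⟨C, C0, hC⟩ := h.decay (N + 2)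
  refine ⟨C, C0, fun l a y l0 a0 => ?_⟩
  have := hC (l * (a + y * I))
  simp only [mul_im, ofReal_re, add_im, ofReal_im, I_im, mul_one, I_re, mul_zero, add_zero,
    zero_add, zero_mul, mul_re, add_re, sub_self, sub_zero, abs_mul, abs_of_pos l0,
    abs_of_nonneg a0] at this
  rw [kk, norm_mul, norm_real, Real.norm_of_nonneg l0.le, wt, ← div_eq_mul_inv, ← mul_div_assoc,
    le_div_iff₀ (by positivity)]
  have b : 1 + (l * y) ^ 2 ≤ (1 + l * |y|) ^ 2 := by
    have : 0 ≤ l * |y| := by positivity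
    rw [mul_pow, ← sq_abs y]; nlinarith
  calc _ ≤ (1 + l * |y|) ^ N * (l * ‖lap φ (l * (a + y * I))‖) * (1 + l * |y|) ^ 2 := by gcongr
    _ = (1 + l * |y|) ^ (N + 2) * ‖lap φ (l * (a + y * I))‖ * l := by ring
    _ ≤ _ := by gcongr

lemma Sm.int_kk (h : Sm φ) {l a : ℝ} (l0 : 0 < l) (a0 : 0 ≤ a) :
    Integrable fun y : ℝ => kk φ l (a + y * I) := by
  obtain ⟨C, -, hC⟩ := h.kk_le 0
  refine ((wt_int l0).1.const_mul (C * Real.exp (l * a))).mono'
    ((h.diff_kk l).continuous.comp (by fun_prop)).aestronglyMeasurable (ae_of_all _ fun y => ?_)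
  simpa using hC l a y l0 a0

lemma Sm.inv (h : Sm φ) {l a : ℝ} (l0 : 0 < l) (a0 : 0 ≤ a) (x : ℝ) :
    ∫ y : ℝ, kk φ l (a + y * I) * exp (-(a + y * I) * x) = 2 * Real.pi * φ (x / l) := by
  have p0 := Real.pi_pos
  set c : ℝ := -(2 * Real.pi / l) with hc
  have c0 : c ≠ 0 := by rw [hc]; exact neg_ne_zero.2 (by positivity)
  set g : ℝ → ℂ := fun y => (φ y : ℂ) * exp (l * a * y) with hg
  have lc : (l : ℂ) ≠ 0 := by exact_mod_cast l0.ne'
  have f1 : ∀ ξ : ℝ, 𝓕 g ξ = kk φ l (a + (c * ξ : ℝ) * I) / l := fun ξ => by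
    rw [Real.fourier_real_eq_integral_exp_smul, kk, mul_div_cancel_left₀ _ lc, lap]
    refine integral_congr_ae (ae_of_all _ fun y => ?_)
    simp only [hg, hc, smul_eq_mul]
    rw [mul_left_comm, ← exp_add]
    congr 2
    push_cast; field_simp; ring
  have gc : Continuous g := (continuous_ofReal.comp h.cont).mul (by fun_prop)
  have i1 : Integrable (𝓕 g) := by
    rw [funext f1]
    exact ((h.int_kk l0 a0).comp_mul_left' c0).div_const _
  have key := congrFun (gc.fourierInv_fourier_eq (h.int (by fun_prop)) i1) (x / l)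
  rw [Real.fourierInv_eq_fourier_neg, Real.fourier_real_eq_integral_exp_smul] at key
  have e := Measure.integral_comp_mul_left
    (fun y : ℝ => kk φ l (a + y * I) * exp (-(a + y * I) * x)) c
  have e2 : (∫ ξ : ℝ, kk φ l (a + (c * ξ : ℝ) * I) * exp (-(a + (c * ξ : ℝ) * I) * x)) =
      l * exp (-(a * x)) * g (x / l) := by
    rw [← key, ← integral_const_mul]
    refine integral_congr_ae (ae_of_all _ fun ξ => ?_)
    simp only [f1, smul_eq_mul]
    have : exp (-(a + (c * ξ : ℝ) * I) * x) =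
        exp (-(a * x)) * exp ((-2 * Real.pi * ξ * -(x / l) : ℝ) * I) := by
      rw [← exp_add, hc]; congr 1; push_cast; field_simp; ring
    rw [this]; field_simp
  have e3 : |c⁻¹| = l / (2 * Real.pi) := by
    rw [hc, inv_neg, abs_neg, inv_div, abs_of_pos (by positivity)]
  rw [e2, e3, real_smul, hg] at e
  have e4 : exp (-(a * x : ℂ)) * exp (l * a * (x / l : ℝ)) = 1 := by
    rw [← exp_add]; push_cast; field_simp; simp
  have pc : (Real.pi : ℂ) ≠ 0 := by exact_mod_cast p0.ne'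
  generalize (∫ y : ℝ, kk φ l (a + y * I) * exp (-(a + y * I) * x)) = J at e ⊢
  dsimp only at e
  rw [mul_assoc, mul_left_comm (exp _), e4] at e
  push_cast at e
  field_simp at e
  linear_combination -e

lemma Sm.res (h : Sm φ) {z : ℂ} (hz : 0 < z.re) :
    ∫ y : ℝ, kk φ 1 (y * I) * (z + y * I)⁻¹ = 2 * Real.pi * ∫ x in Ioi (0 : ℝ), φ x * exp (-z * x) := by
  have i0 := h.int_kk (a := 0) one_pos le_rfl
  simp only [ofReal_zero, zero_add] at i0
  have e1 : ∀ y : ℝ, kk φ 1 (y * I) * (z + y * I)⁻¹ =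
      ∫ x in Ioi (0 : ℝ), kk φ 1 (y * I) * exp (-(z + y * I) * x) := fun y => by
    rw [integral_const_mul, integral_exp_mul_complex_Ioi (by simpa using hz)]
    rw [ofReal_zero, mul_zero, exp_zero, neg_div_neg_eq, one_div]
  simp only [e1]
  rw [integral_integral_swap, ← integral_const_mul]
  · refine integral_congr_ae (ae_of_all _ fun x => ?_)
    have := h.inv (a := 0) one_pos le_rfl x
    simp only [ofReal_zero, zero_add, div_one] at this
    dsimp only
    rw [← mul_assoc, ← this, ← integral_mul_const]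
    refine integral_congr_ae (ae_of_all _ fun y => ?_)
    dsimp only
    rw [mul_assoc, ← exp_add]; ring_nf
  · refine (i0.norm.mul_prod (integrableOn_exp_mul_Ioi (a := -z.re) (by linarith) 0)).mono'
      (Continuous.aestronglyMeasurable ?_) (ae_of_all _ fun p => le_of_eq ?_)
    · have := (h.diff_kk 1).continuous
      unfold Function.uncurry; fun_prop
    · simp [Function.uncurry, norm_exp]

lemma term_add (f : ℕ → ℂ) (s w : ℂ) (n : ℕ) :
    LSeries.term f (s + w) n = LSeries.term f s n * exp (-w * Real.log n) := by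
  rcases eq_or_ne n 0 with rfl | hn
  · simp
  rw [LSeries.term_of_ne_zero hn, LSeries.term_of_ne_zero hn, pw_nat _ hn, pw_nat _ hn, add_mul,
    exp_add, neg_mul, exp_neg]
  field_simp

lemma norm_term_add (f : ℕ → ℂ) (s : ℂ) (y : ℝ) (n : ℕ) :
    ‖LSeries.term f (s + y * I) n‖ = ‖LSeries.term f s n‖ := by
  rw [term_add, norm_mul, norm_exp]; simp [-natCast_log]

lemma cont_L {f : ℕ → ℂ} {s : ℂ} (hs : LSeriesSummable f s) :
    Continuous fun y : ℝ => LSeries f (s + y * I) :=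
  continuous_tsum (fun n => by simp only [term_add]; fun_prop) hs.norm
    fun n y => (norm_term_add f s y n).le

lemma series_int {f : ℕ → ℂ} {s : ℂ} (hs : LSeriesSummable f s) {K : ℝ → ℂ} (hK : Integrable K) :
    HasSum (fun n => LSeries.term f s n * ∫ y : ℝ, K y * exp (-(y * I) * Real.log n))
      (∫ y : ℝ, K y * LSeries f (s + y * I)) := by
  have := hasSum_integral_of_dominated_convergence (μ := volume)
    (F := fun n (y : ℝ) => K y * LSeries.term f (s + y * I) n)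
    (f := fun y : ℝ => K y * LSeries f (s + y * I)) (fun n y => ‖K y‖ * ‖LSeries.term f s n‖)
    (fun n => hK.1.mul (Continuous.aestronglyMeasurable (by simp only [term_add]; fun_prop)))
    (fun n => ae_of_all _ fun y => by rw [norm_mul, norm_term_add])
    (ae_of_all _ fun y => hs.norm.mul_left _)
    (by simp only [tsum_mul_left]; exact hK.norm.mul_const _)
    (ae_of_all _ fun y => HasSum.mul_left _
      (Summable.of_norm (by simpa only [norm_term_add] using hs.norm)).hasSum)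
  refine (congrArg (fun g => HasSum g _) (funext fun n => ?_)).mp this
  rw [← integral_const_mul]
  refine integral_congr_ae (ae_of_all _ fun y => ?_)
  simp only [term_add]; ring

lemma rect_diff {f : ℂ → ℂ} {a a' A B M : ℝ} (hf : DifferentiableOn ℂ f (uIcc a' a ×ℂ uIcc A B))
    (h₂ : ∀ x ∈ uIcc a' a, ‖f (x + A * I)‖ ≤ M) (h₃ : ∀ x ∈ uIcc a' a, ‖f (x + B * I)‖ ≤ M) :
    ‖(∫ t in A..B, f (a + t * I)) - ∫ t in A..B, f (a' + t * I)‖ ≤ 2 * (M * |a - a'|) := by
  have h := integral_boundary_rect_eq_zero_of_differentiableOn f (a' + A * I) (a + B * I)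
    (by simpa using hf)
  simp only [add_re, ofReal_re, mul_re, I_re, mul_zero, ofReal_im, I_im, mul_one, sub_self,
    add_zero, add_im, mul_im, zero_add, smul_eq_mul] at h
  have e2 : ‖∫ x in a'..a, f (x + A * I)‖ ≤ M * |a - a'| :=
    intervalIntegral.norm_integral_le_of_norm_le_const fun t ht => h₂ t (uIoc_subset_uIcc ht)
  have e3 : ‖∫ x in a'..a, f (x + B * I)‖ ≤ M * |a - a'| :=
    intervalIntegral.norm_integral_le_of_norm_le_const fun t ht => h₃ t (uIoc_subset_uIcc ht)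
  have e4 : (∫ t in A..B, f (a + t * I)) - ∫ t in A..B, f (a' + t * I) =
      I * ((∫ x in a'..a, f (x + A * I)) - ∫ x in a'..a, f (x + B * I)) := by
    linear_combination (-I) * h + ((∫ t in A..B, f (a + t * I)) -
      ∫ t in A..B, f (a' + t * I)) * I_mul_I
  rw [e4, norm_mul, norm_I, one_mul]
  linarith [norm_sub_le (∫ x in a'..a, f (x + A * I)) (∫ x in a'..a, f (x + B * I))]

lemma tail_le {g : ℝ → ℂ} (hg : Integrable g) {V M l : ℝ} (V0 : 0 ≤ V) (M0 : 0 ≤ M) (l0 : 0 < l)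
    (h : ∀ y, V ≤ |y| → ‖g y‖ ≤ M * wt l y) :
    ‖(∫ y, g y) - ∫ y in -V..V, g y‖ ≤ M * Real.pi := by
  rw [intervalIntegral.integral_of_le (by linarith), ← integral_add_compl
    (measurableSet_Ioc (a := -V) (b := V)) hg, add_sub_cancel_left, ← (wt_int l0).2,
    ← integral_const_mul]
  have i := (wt_int l0).1.const_mul M
  refine (norm_integral_le_of_norm_le i.integrableOn ?_).trans
    (setIntegral_le_integral i (ae_of_all _ fun y => mul_nonneg M0 (wt_pos l0 y).le))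
  refine (ae_restrict_iff' measurableSet_Ioc.compl).2 (ae_of_all _ fun y hy => h y ?_)
  by_contra c
  have := abs_lt.1 (not_le.1 c)
  exact hy ⟨this.1, this.2.le⟩

lemma summ_sq {f : ℕ → ℂ} (hf : ∀ n, ‖f n‖ ≤ (n : ℝ) ^ 2) {s : ℂ} (hs : 4 ≤ s.re) :
    LSeriesSummable f s ∧ ∑' n, ‖LSeries.term f s n‖ ≤ 2 := by
  have b : ∀ n, ‖LSeries.term f s n‖ ≤ 1 / (n : ℝ) ^ 2 := fun n => by
    rcases eq_or_ne n 0 with rfl | hn
    · simp
    have n1 : (1 : ℝ) ≤ n := Nat.one_le_cast.2 (Nat.pos_of_ne_zero hn)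
    rw [LSeries.norm_term_eq, if_neg hn, div_le_div_iff₀ (by positivity) (by positivity), one_mul]
    refine (mul_le_mul_of_nonneg_right (hf n) (by positivity)).trans (le_trans (le_of_eq ?_)
      (Real.rpow_le_rpow_of_exponent_le n1 hs))
    rw [show (4 : ℝ) = (4 : ℕ) by norm_num, Real.rpow_natCast]; ring
  have s1 := Summable.of_nonneg_of_le (fun n => norm_nonneg _) b hasSum_zeta_two.summable
  refine ⟨s1.of_norm, (hasSum_le b s1.hasSum hasSum_zeta_two).trans ?_⟩
  nlinarith [Real.pi_lt_d2, Real.pi_pos]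

/-- moving the line of integration into the half-plane of absolute convergence -/
lemma shift {F K : ℂ → ℂ} {f κ : ℕ → ℂ} {s : ℂ} {V M₁ M₂ l : ℝ} (V0 : 0 ≤ V) (M0 : 0 ≤ M₂)
    (l0 : 0 < l) (s0 : 0 ≤ s.re) (hf : ∀ n, ‖f n‖ ≤ (n : ℝ) ^ 2)
    (hF : ∀ w : ℂ, 0 ≤ w.re → w.re ≤ 4 → |w.im| ≤ V → DifferentiableAt ℂ F (s + w))
    (hK : Differentiable ℂ K) (hL : ∀ y : ℝ, F (s + 4 + y * I) = LSeries f (s + 4 + y * I))
    (iK : Integrable fun y : ℝ => K (4 + y * I))
    (h1 : ∀ x ∈ Icc (0 : ℝ) 4, ∀ y : ℝ, |y| = V → ‖K (x + y * I) * F (s + (x + y * I))‖ ≤ M₁)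
    (h2 : ∀ y : ℝ, V ≤ |y| → ‖K (4 + y * I)‖ ≤ M₂ * wt l y)
    (hκ : ∀ n : ℕ, ∫ y : ℝ, K (4 + y * I) * exp (-(4 + y * I) * Real.log n) = κ n) :
    ∃ S, HasSum (fun n => LSeries.term f s n * κ n) S ∧
      ‖(∫ y in -V..V, K (y * I) * F (s + y * I)) - S‖ ≤ 8 * M₁ + 8 * M₂ := by
  obtain ⟨s1, s2⟩ := summ_sq hf (s := s + 4) (by simpa using s0)
  have hs := series_int s1 iK
  refine ⟨_, (congrArg (fun g => HasSum g _) (funext fun n => ?_)).mp hs, ?_⟩
  · rw [← hκ, term_add, mul_assoc, ← integral_const_mul]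
    congr 1
    refine integral_congr_ae (ae_of_all _ fun y => ?_)
    dsimp only
    rw [mul_left_comm, ← exp_add]; ring_nf
  have u1 : uIcc (0 : ℝ) 4 = Icc 0 4 := uIcc_of_le (by norm_num)
  have r := rect_diff (f := fun w => K w * F (s + w)) (a := 4) (a' := 0) (A := -V) (B := V) (M := M₁)
    (fun w hw => by
      rw [u1, uIcc_of_le (by linarith)] at hw
      exact ((hK w).mul ((hF w hw.1.1 hw.1.2 (abs_le.2 hw.2)).comp w (by fun_prop))
        ).differentiableWithinAt)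
    (fun x hx => h1 x (u1 ▸ hx) _ (by rw [abs_neg, abs_of_nonneg V0]))
    (fun x hx => h1 x (u1 ▸ hx) _ (abs_of_nonneg V0))
  have nL : ∀ y : ℝ, ‖LSeries f (s + 4 + y * I)‖ ≤ 2 := fun y =>
    (tsum_of_norm_bounded s1.norm.hasSum fun n => (norm_term_add f _ y n).le).trans s2
  have t := tail_le (g := fun y : ℝ => K (4 + y * I) * LSeries f (s + 4 + y * I))
    (iK.mul_bdd (cont_L s1).aestronglyMeasurable (ae_of_all _ nL)) V0 (M := M₂ * 2) (by positivity)
    l0 fun y hy => (norm_mul_le_of_le (h2 y hy) (nL y)).trans (le_of_eq (by ring))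
  simp only [ofReal_ofNat, ofReal_zero, zero_add, sub_zero, ← add_assoc, hL] at r
  rw [abs_of_pos (by norm_num : (0 : ℝ) < 4), norm_sub_rev] at r
  rw [norm_sub_rev] at t
  refine (norm_sub_le_norm_sub_add_norm_sub _ _ _).trans ((add_le_add r t).trans ?_)
  nlinarith [Real.pi_le_four]

/-- smoothed Dirichlet polynomials as averages of the analytic continuation -/
lemma Sm.smooth (h : Sm φ) (A : ℝ) : ∀ᶠ T : ℝ in atTop, ∀ (l : ℝ) (F : ℂ → ℂ) (f : ℕ → ℂ) (s : ℂ),
    1 ≤ l → l ≤ Real.log T → 0 ≤ s.re → (∀ n, ‖f n‖ ≤ (n : ℝ) ^ 2) →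
    (∀ w : ℂ, 0 ≤ w.re → w.re ≤ 4 → |w.im| ≤ T / 20 →
      DifferentiableAt ℂ F (s + w) ∧ ‖F (s + w)‖ ≤ Real.exp (A * Real.log T)) →
    (∀ y : ℝ, F (s + 4 + y * I) = LSeries f (s + 4 + y * I)) →
    ‖(∫ y in -(T / 20)..(T / 20), kk φ l (y * I) * F (s + y * I)) -
      2 * Real.pi * ∑' n, LSeries.term f s n * φ (Real.log n / l)‖ ≤ 1 := by
  obtain ⟨N, hN⟩ := exists_nat_ge (2 * (|A| + 6))
  obtain ⟨C, C0, hC⟩ := h.kk_le N
  filter_upwards [eventually_ge_atTop 400, eventually_ge_atTop (16 * C)] with T T1 T2 l F f s l1 l2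
    s0 hf hF hL
  set L := Real.log T with hLd
  have eT : Real.exp L = T := Real.exp_log (by linarith)
  have L0 : 0 ≤ L := by linarith
  have l0 : 0 < l := by linarith
  have key : ∀ x ∈ Icc (0 : ℝ) 4, ∀ y : ℝ, T / 20 ≤ |y| → ‖kk φ l (x + y * I)‖ ≤
      C * Real.exp (-((|A| + 2) * L)) * wt l y := fun x hx y hy => by
    have a1 := hC l x y l0 hx.1
    have a2 : Real.exp (L / 2) ≤ 1 + l * |y| := by
      have : Real.exp (L / 2) * Real.exp (L / 2) = T := by rw [← Real.exp_add, add_halves, eT]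
      have b : Real.exp (L / 2) ≤ T / 20 := by
        by_contra c
        nlinarith [not_le.1 c]
      nlinarith [abs_nonneg y]
    have a3 : Real.exp (N * (L / 2)) ≤ (1 + l * |y|) ^ N := by
      rw [Real.exp_nat_mul]; exact pow_le_pow_left₀ (Real.exp_pos _).le a2 N
    have a4 := (mul_le_mul_of_nonneg_right a3 (norm_nonneg _)).trans a1
    rw [← le_div_iff₀' (Real.exp_pos _)] at a4
    refine a4.trans ?_
    rw [mul_div_right_comm, mul_div_assoc, ← Real.exp_sub]
    have := wt_pos l0 y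
    gcongr
    nlinarith [hx.1, hx.2, mul_le_mul_of_nonneg_right hN L0]
  have w1 : ∀ y, wt l y ≤ Real.exp L := fun y => by
    have := sq_nonneg (l * y)
    exact le_trans (mul_le_of_le_one_right l0.le (inv_le_one_of_one_le₀ (by linarith)))
      (by linarith [Real.add_one_le_exp L])
  obtain ⟨S, hS, e⟩ := shift (F := F) (K := kk φ l) (f := f) (s := s) (V := T / 20)
    (κ := fun n => 2 * Real.pi * φ (Real.log n / l)) (M₁ := C / T)
    (M₂ := C * Real.exp (-((|A| + 2) * L))) (by linarith) (by positivity) l0 s0 hf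
    (fun w a b c => (hF w a b c).1) (h.diff_kk l) hL
    (by simpa using h.int_kk (a := 4) l0 (by norm_num))
    (fun x hx y hy => by
      refine (norm_mul_le_of_le ((key x hx y hy.ge).trans (mul_le_mul_of_nonneg_left (w1 y)
        (by positivity))) (hF _ (by simpa using hx.1) (by simpa using hx.2)
          (by simpa using hy.le)).2).trans ?_
      rw [mul_assoc, mul_assoc, ← Real.exp_add, ← Real.exp_add, div_eq_mul_inv, ← eT,
        ← Real.exp_neg]
      gcongr
      nlinarith [mul_le_mul_of_nonneg_right (le_abs_self A) L0])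
    (fun y hy => by simpa using key 4 (by norm_num) y hy)
    (fun n => by simpa using h.inv (a := 4) l0 (by norm_num) (Real.log n))
  rw [← tsum_mul_left, tsum_congr (g := fun n => LSeries.term f s n *
    (2 * Real.pi * φ (Real.log n / l))) fun n => by ring, hS.tsum_eq]
  refine e.trans ?_
  have a : Real.exp (-((|A| + 2) * L)) ≤ T⁻¹ := by
    rw [← eT, ← Real.exp_neg]
    exact Real.exp_le_exp.2 (by nlinarith [abs_nonneg A])
  have b : C * T⁻¹ ≤ 1 / 16 := by
    rw [← div_eq_mul_inv, div_le_iff₀ (by linarith)]; linarith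
  rw [div_eq_mul_inv]
  nlinarith [mul_le_mul_of_nonneg_left a C0.le]

end Pool.Agent.MP_f0209c_nt.Pp
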