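import Pool.Agent.MP_f0209c_nt.Pp.Lap
import Pool.Agent.MP_f0209c_nt.Ch.Mvt
import Pool.Agent.MP_f0209c_nt.Ch.Zf

/-! Moments of Dirichlet polynomials over primes. -/

namespace Pool.Agent.MP_f0209c_nt.Pp
open Complex Filter Topology Finset ArithmeticFunction Ch

/-- `n ^ (-σ)` -/
noncomputable def ex (σ : ℝ) (n : ℕ) : ℝ := Real.exp (-σ * Real.log n)

lemma ex_pos (σ : ℝ) (n : ℕ) : 0 < ex σ n := Real.exp_pos _

lemma ex_le_one {σ : ℝ} (h : 0 ≤ σ) (n : ℕ) : ex σ n ≤ 1 :=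
  Real.exp_le_one_iff.2 (by nlinarith [Real.log_natCast_nonneg n])

lemma term_ex {f : ℕ → ℂ} (f0 : f 0 = 0) (σ u : ℝ) (n : ℕ) :
    LSeries.term f (σ + u * I) n = f n * ex σ n * ee u n := by
  rcases eq_or_ne n 0 with rfl | hn
  · simp [f0]
  rw [LSeries.term_of_ne_zero hn, pw_nat _ hn, ex, ee, ofReal_exp, mul_assoc, ← exp_add,
    div_eq_mul_inv, ← exp_neg]
  push_cast; ring_nf

lemma lam_sum : ∃ C : ℝ, 1 ≤ C ∧ ∀ δ : ℝ, 0 < δ → δ ≤ 1 → ∀ S : Finset ℕ,
    ∑ n ∈ S, Λ n * ex (1 + δ) n ≤ C / δ := by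
  obtain ⟨K, hK⟩ := (isCompact_Icc (a := (1 : ℝ)) (b := 2)).exists_bound_of_continuousOn
    (f := fun x : ℝ => DZ x) fun x hx => by
      have : gz x ≠ 0 := by
        rcases eq_or_ne (x : ℂ) 1 with e | e
        · rw [e]; exact DirichletCharacter.LFunctionTrivChar₁_apply_one_ne_zero 1
        · rw [gz_eq e]
          exact mul_ne_zero (sub_ne_zero.2 e) (riemannZeta_ne_zero_of_one_le_re (by simpa using hx.1))
      exact (ContinuousAt.comp (f := fun x : ℝ => (x : ℂ)) (g := DZ)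
        ((diff_gz.deriv _).neg.div (diff_gz _) this).continuousAt (by fun_prop)).continuousWithinAt
  have K0 : 0 ≤ K := (norm_nonneg _).trans (hK 1 (by simp))
  refine ⟨1 + K, by linarith, fun δ d0 d1 S => ?_⟩
  have r : 1 < ((1 + δ : ℝ) : ℂ).re := by simpa using d0
  have hs := (LSeriesSummable_vonMangoldt r).hasSum.mapL reCLM
  have e : ∀ n, reCLM (LSeries.term (fun n => (Λ n : ℂ)) (1 + δ : ℝ) n) = Λ n * ex (1 + δ) n :=
    fun n => by
      have := term_ex (f := fun n => (Λ n : ℂ)) (by simp) (1 + δ) 0 n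
      rw [ofReal_zero, zero_mul, add_zero] at this
      rw [this, ee, reCLM_apply]
      simp
  simp only [e] at hs
  refine (sum_le_hasSum S (fun n _ => mul_nonneg vonMangoldt_nonneg (ex_pos _ _).le) hs).trans ?_
  have b := DZ_eq r
  rw [LSeries] at b
  rw [b, reCLM_apply, add_re, show (1 / (((1 + δ : ℝ) : ℂ) - 1)) = (1 / δ : ℝ) by push_cast; ring,
    ofReal_re, add_div]
  have := (re_le_norm _).trans (hK (1 + δ) ⟨by linarith, by linarith⟩)
  have : K ≤ K / δ := le_div_self K0 d0 d1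
  linarith

lemma np_sum : ∃ C : ℝ, 1 ≤ C ∧ ∀ δ : ℝ, 0 < δ → δ ≤ 1 / 2 → ∀ N : ℕ,
    ∑ n ∈ (range N).filter (fun n => ¬ n.Prime), Λ n * ex (1 / 2 + δ) n ≤ C / δ := by
  obtain ⟨C, C1, hC⟩ := lam_sum
  refine ⟨2 * C, by linarith, fun δ d0 d1 N => ?_⟩
  have nn : ∀ n, 0 ≤ Λ n * ex (1 / 2 + δ) n := fun n => mul_nonneg vonMangoldt_nonneg (ex_pos _ _).le
  have a : ∑ n ∈ (range N).filter (fun n => ¬ n.Prime), Λ n * ex (1 / 2 + δ) n ≤
      ∑ n ∈ (((range N).filter Nat.Prime) ×ˢ range N).image (fun x : ℕ × ℕ => x.1 ^ (x.2 + 2)),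
        Λ n * ex (1 / 2 + δ) n := by
    rw [← sum_filter_ne_zero]
    refine sum_le_sum_of_subset_of_nonneg (fun n hn => ?_) fun n _ _ => nn n
    obtain ⟨h1, h2⟩ := mem_filter.1 hn
    obtain ⟨h3, h4⟩ := mem_filter.1 h1
    obtain ⟨p, k, hp, hk, rfl⟩ := (isPrimePow_nat_iff _).1
      (vonMangoldt_ne_zero_iff.1 (left_ne_zero_of_mul h2))
    have k1 : k ≠ 1 := fun e => h4 (by simpa [e] using hp)
    have := mem_range.1 h3
    have := Nat.lt_pow_self (n := k) hp.one_lt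
    have := Nat.le_self_pow hk.ne' p
    exact mem_image.2 ⟨(p, k - 2), mem_product.2 ⟨mem_filter.2 ⟨mem_range.2 (by omega), hp⟩,
      mem_range.2 (by omega)⟩, by rw [show k - 2 + 2 = k by omega]⟩
  refine a.trans ((sum_image_le_of_nonneg fun n _ => nn n).trans ?_)
  rw [sum_product]
  have b : ∀ p ∈ (range N).filter Nat.Prime, ∑ k ∈ range N, Λ (p ^ (k + 2)) *
      ex (1 / 2 + δ) (p ^ (k + 2)) ≤ 4 * (Λ p * ex (1 + 2 * δ) p) := fun p hp => by
    have p2 : (2 : ℝ) ≤ p := by exact_mod_cast (mem_filter.1 hp).2.two_le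
    have q : Real.exp (-(1 / 2 + δ) * Real.log p) ≤ 3 / 4 := by
      have l := Real.log_le_log (by norm_num) p2
      have e : Real.exp (-(1 / 2) * Real.log 2) * Real.exp (-(1 / 2) * Real.log 2) = 2⁻¹ := by
        rw [← Real.exp_add, ← Real.exp_log (x := 2⁻¹) (by norm_num), Real.log_inv]; ring_nf
      refine (Real.exp_le_exp.2 (show _ ≤ -(1 / 2) * Real.log 2 by
        nlinarith [Real.log_two_gt_d9])).trans ?_
      nlinarith [Real.exp_pos (-(1 / 2) * Real.log 2)]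
    have g : ∑ k ∈ range N, (3 / 4 : ℝ) ^ k ≤ 4 := by
      have := sum_le_hasSum (range N) (fun k _ => by positivity)
        (hasSum_geometric_of_lt_one (r := 3 / 4) (by norm_num) (by norm_num))
      linarith
    refine le_trans ?_ (mul_le_mul_of_nonneg_right g (mul_nonneg vonMangoldt_nonneg (ex_pos _ _).le))
    rw [sum_mul]
    refine sum_le_sum fun k _ => ?_
    rw [vonMangoldt_apply_pow (by omega), mul_left_comm]
    refine mul_le_mul_of_nonneg_left (le_trans (le_of_eq ?_) (mul_le_mul_of_nonneg_right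
      (pow_le_pow_left₀ (Real.exp_pos _).le q k) (ex_pos _ _).le)) vonMangoldt_nonneg
    rw [ex, ex, ← Real.exp_nat_mul, ← Real.exp_add, Nat.cast_pow, Real.log_pow]
    push_cast; ring_nf
  refine (sum_le_sum b).trans ?_
  rw [← mul_sum]
  refine (mul_le_mul_of_nonneg_left (hC (2 * δ) (by linarith) (by linarith) _) (by norm_num)).trans
    (le_of_eq ?_)
  field_simp; ring

lemma ee_prod {ι : Type} (t : ℝ) (s : Finset ι) {f : ι → ℕ} (h : ∀ i ∈ s, f i ≠ 0) :
    ee t (∏ i ∈ s, f i) = ∏ i ∈ s, ee t (f i) := by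
  classical
  induction s using Finset.induction_on with
  | empty => simp [ee]
  | insert a s ha ih =>
    have b := fun i hi => h i (mem_insert_of_mem hi)
    rw [prod_insert ha, prod_insert ha, ee_mul t (h a (mem_insert_self _ _)) (prod_ne_zero_iff.2 b),
      ih b]

lemma pow_mv {P : Finset ℕ} {Y H : ℝ} (hP : ∀ p ∈ P, p.Prime ∧ (p : ℝ) ≤ Y) (a : ℕ → ℂ) (k : ℕ)
    (H2 : 2 ≤ H) (hY : Y ^ k ≤ H) : Mv H (fun x => ‖∑ p ∈ P, a p * ee x p‖ ^ (2 * k))
      (48 * H * (k ^ k * (∑ p ∈ P, ‖a p‖ ^ 2) ^ k)) := by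
  classical
  set W := Fintype.piFinset fun _ : Fin k => P with hW
  set g : (Fin k → ℕ) → ℕ := fun f => ∏ i, f i with hg
  have mW : ∀ f ∈ W, ∀ i, (f i).Prime ∧ (f i : ℝ) ≤ Y := fun f hf i =>
    hP _ (Fintype.mem_piFinset.1 hf i)
  set c : ℕ → ℂ := fun m => ∑ f ∈ W.filter (g · = m), ∏ i, a (f i) with hc
  have su : Sup c (W.image g) := ⟨fun h => by
      obtain ⟨f, hf, e⟩ := mem_image.1 h
      exact prod_ne_zero_iff.2 (fun i _ => (mW f hf i).1.ne_zero) e,
    fun n hn => by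
      obtain ⟨f, hf, -⟩ := exists_ne_zero_of_sum_ne_zero hn
      exact mem_image.2 ⟨f, mem_filter.1 hf⟩⟩
  refine (mvt su H2).mono (fun x => le_of_eq ?_) ?_
  · rw [mul_comm 2, pow_mul, ← norm_pow, su.dp_eq, sum_pow',
      ← sum_fiberwise_of_maps_to (g := g) (t := W.image g) fun f hf => mem_image_of_mem g hf]
    congr 2
    refine sum_congr rfl fun m _ => ?_
    rw [hc, sum_mul]
    refine sum_congr rfl fun f hf => ?_
    obtain ⟨h1, rfl⟩ := mem_filter.1 hf
    rw [prod_mul_distrib, hg, ee_prod x _ fun i _ => (mW f h1 i).1.ne_zero]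
  have b : ∀ m ∈ W.image g, (H + m) * ‖c m‖ ^ 2 ≤
      2 * H * (k ^ k * ∑ f ∈ W.filter (g · = m), ∏ i, ‖a (f i)‖ ^ 2) := fun m hm => by
    obtain ⟨f₀, h₀, rfl⟩ := mem_image.1 hm
    have m1 : (g f₀ : ℝ) ≤ H := by
      refine le_trans ?_ hY
      rw [hg, Nat.cast_prod]
      simpa using prod_le_prod (s := univ) (f := fun i => (f₀ i : ℝ)) (g := fun _ => Y)
        (fun i _ => by positivity) fun i _ => (mW f₀ h₀ i).2
    have cd : (W.filter (g · = g f₀)).card ≤ k ^ k := by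
      refine (card_le_card (t := Fintype.piFinset fun _ : Fin k => univ.image f₀)
        fun f hf => Fintype.mem_piFinset.2 fun i => ?_).trans ?_
      · obtain ⟨h1, h2⟩ := mem_filter.1 hf
        have d : f i ∣ ∏ j, f₀ j := (show g f = ∏ j, f₀ j from h2) ▸ dvd_prod_of_mem f (mem_univ i)
        obtain ⟨j, -, hj⟩ := (mW f h1 i).1.prime.exists_mem_finset_dvd d
        exact mem_image.2 ⟨j, mem_univ _,
          ((Nat.prime_dvd_prime_iff_eq (mW f h1 i).1 (mW f₀ h₀ j).1).1 hj).symm⟩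
      · rw [Fintype.card_piFinset_const]
        exact Nat.pow_le_pow_left (card_image_le.trans (by simp)) k
    refine mul_le_mul (by linarith) ?_ (by positivity) (by linarith)
    refine (pow_le_pow_left₀ (norm_nonneg _) (norm_sum_le _ _) 2).trans
      (sq_sum_le_card_mul_sum_sq.trans (mul_le_mul (by exact_mod_cast cd) (le_of_eq ?_)
        (by positivity) (by positivity)))
    exact sum_congr rfl fun f _ => by rw [norm_prod, prod_pow]
  refine (mul_le_mul_of_nonneg_left (sum_le_sum b) (by norm_num)).trans (le_of_eq ?_)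
  rw [← mul_sum, ← mul_sum, sum_fiberwise_of_maps_to fun f hf => mem_image_of_mem g hf, sum_pow']
  ring

/-- primes up to `e ^ l` -/
noncomputable def PP (l : ℝ) : Finset ℕ := (range (⌊Real.exp l⌋₊ + 1)).filter Nat.Prime

/-- coefficients of the prime sum -/
noncomputable def cf (φ : ℝ → ℝ) (a l : ℝ) (n : ℕ) : ℝ :=
  Λ n * ex (1 / 2 + a / l) n * φ (Real.log n / l)

/-- the normalized prime sum -/
noncomputable def qq (φ : ℝ → ℝ) (a l u : ℝ) : ℝ := ‖∑ p ∈ PP l, (cf φ a l p / l : ℝ) * ee u p‖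

lemma mem_PP {l : ℝ} {p : ℕ} (hp : p ∈ PP l) : p.Prime ∧ (p : ℝ) ≤ Real.exp l :=
  ⟨(mem_filter.1 hp).2, (Nat.le_floor_iff (Real.exp_pos _).le).1
    (Nat.lt_succ_iff.1 (mem_range.1 (mem_filter.1 hp).1))⟩

lemma lam_PP {l : ℝ} {p : ℕ} (hp : p ∈ PP l) : Λ p ≤ l :=
  vonMangoldt_le_log.trans ((Real.log_le_iff_le_exp (Nat.cast_pos.2 (mem_PP hp).1.pos)).2
    (mem_PP hp).2)

section
variable {φ : ℝ → ℝ} (hφ : ∀ y, |φ y| ≤ 1)
include hφ

lemma abs_cf (a l : ℝ) (n : ℕ) : |cf φ a l n| ≤ Λ n * ex (1 / 2 + a / l) n := by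
  have := mul_nonneg (vonMangoldt_nonneg (n := n)) (ex_pos (1 / 2 + a / l) n).le
  rw [cf, abs_mul, abs_of_nonneg this]
  exact mul_le_of_le_one_right this (hφ _)

lemma qq_triv {a l : ℝ} (a0 : 0 ≤ a) (l0 : 0 < l) (u : ℝ) : qq φ a l u ≤ Real.exp l + 1 := by
  refine (norm_sum_le_of_le _ (n := fun _ => 1) fun p hp => ?_).trans ?_
  · rw [norm_mul, norm_ee, mul_one, norm_real, Real.norm_eq_abs, abs_div, abs_of_pos l0,
      div_le_one l0]
    exact (abs_cf hφ a l p).trans ((mul_le_of_le_one_right vonMangoldt_nonneg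
      (ex_le_one (by positivity) p)).trans (lam_PP hp))
  · rw [sum_const, nsmul_eq_mul, mul_one]
    refine le_trans (Nat.cast_le.2 ((card_filter_le _ _).trans (card_range _).le)) ?_
    push_cast
    linarith [Nat.floor_le (Real.exp_pos l).le]

lemma qq_mv : ∃ C : ℝ, 1 ≤ C ∧ ∀ (a l H τ : ℝ) (k : ℕ), 1 ≤ a → 2 * a ≤ l → 2 ≤ H →
    Real.exp l ^ k ≤ H → Mv H (fun x => qq φ a l (τ + x) ^ (2 * k)) (48 * H * (k ^ k * C ^ k)) := by
  obtain ⟨C, C1, hC⟩ := lam_sum
  refine ⟨C, C1, fun a l H τ k a1 l1 H2 hY => ?_⟩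
  have l0 : 0 < l := by linarith
  refine (pow_mv (fun p => mem_PP) (fun p => (cf φ a l p / l : ℝ) * ee τ p) k H2 hY).mono
    (fun x => le_of_eq (by simp only [qq, ee_add, mul_assoc])) ?_
  gcongr
  have b := hC (2 * a / l) (by positivity) (by rwa [div_le_one l0]) (PP l)
  have : ∑ p ∈ PP l, ‖(cf φ a l p / l : ℝ) * ee τ p‖ ^ 2 ≤
      ∑ p ∈ PP l, Λ p * ex (1 + 2 * a / l) p / l := sum_le_sum fun p hp => by
    rw [norm_mul, norm_ee, mul_one, norm_real, Real.norm_eq_abs, abs_div, abs_of_pos l0, div_pow,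
      div_le_div_iff₀ (by positivity) l0]
    have e : ex (1 / 2 + a / l) p ^ 2 = ex (1 + 2 * a / l) p := by
      rw [ex, ex, ← Real.exp_nat_mul]; push_cast; ring_nf
    have := pow_le_pow_left₀ (abs_nonneg _) (abs_cf hφ a l p) 2
    rw [mul_pow, e] at this
    have p1 := mul_nonneg (vonMangoldt_nonneg (n := p)) (ex_pos (1 + 2 * a / l) p).le
    nlinarith [mul_le_mul_of_nonneg_left (lam_PP hp) p1]
  refine this.trans ?_
  rw [← sum_div, div_le_iff₀ l0]
  refine b.trans ?_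
  rw [div_div_eq_mul_div]
  exact div_le_self (by positivity) (by linarith)

lemma qq_ge (h : Sm φ) : ∃ C : ℝ, 1 ≤ C ∧ ∀ a l u : ℝ, 1 ≤ a → 2 * a ≤ l →
    ‖∑' n, LSeries.term (fun n => (Λ n : ℂ)) ((1 / 2 + a / l : ℝ) + u * I) n * φ (Real.log n / l)‖ ≤
      l * (qq φ a l u + C) := by
  obtain ⟨C, C1, hC⟩ := np_sum
  refine ⟨C, C1, fun a l u a1 l1 => ?_⟩
  have l0 : 0 < l := by linarith
  have lc : (l : ℂ) ≠ 0 := by exact_mod_cast l0.ne'
  have e : ∀ n, LSeries.term (fun n => (Λ n : ℂ)) ((1 / 2 + a / l : ℝ) + u * I) n *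
      φ (Real.log n / l) = cf φ a l n * ee u n := fun n => by
    rw [term_ex (by simp), cf]; push_cast; ring
  simp only [e]
  rw [tsum_eq_sum (s := range (⌊Real.exp l⌋₊ + 1)) fun n hn => by
      have := (Nat.floor_lt (Real.exp_pos l).le).1 (not_lt.1 (mt mem_range.2 hn))
      rw [← Real.lt_log_iff_exp_lt ((Real.exp_pos l).trans this), ← one_lt_div l0] at this
      rw [cf, h.zero (this.trans_le (le_abs_self _))]; simp,
    ← sum_filter_add_sum_filter_not _ Nat.Prime, mul_add]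
  refine norm_add_le_of_le (le_of_eq ?_) ((norm_sum_le_of_le _ fun n _ => by
    rw [norm_mul, norm_ee, mul_one, norm_real]; exact abs_cf hφ a l n).trans ((hC (a / l)
      (by positivity) (by rw [div_le_iff₀ l0]; linarith) _).trans ?_))
  · rw [qq, ← Real.norm_of_nonneg l0.le, ← norm_real, ← norm_mul, mul_sum, PP]
    congr 1
    refine sum_congr rfl fun p _ => ?_
    rw [norm_real, Real.norm_of_nonneg l0.le]
    push_cast; field_simp
  · rw [div_div_eq_mul_div, mul_comm]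
    exact div_le_self (by positivity) a1

omit hφ in
lemma big_T (n : ℕ) {b : ℝ} (hb : 0 < b) (C : ℝ) :
    ∀ᶠ T : ℝ in atTop, C * Real.log T ^ n ≤ Real.exp (b * Real.log T) := by
  have := (tendsto_exp_mul_div_rpow_atTop n b hb).comp Real.tendsto_log_atTop
  filter_upwards [this.eventually_ge_atTop C, Real.tendsto_log_atTop.eventually_gt_atTop 0]
    with T h1 h2
  rwa [Function.comp, Real.rpow_natCast, le_div_iff₀ (by positivity)] at h1

theorem env_mom {a : ℝ} (a1 : 1 ≤ a) {k₀ : ℕ} (k1 : 1 ≤ k₀) : ∃ E : ℝ → ℝ → ℝ,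
    (∀ A : ℝ, 0 ≤ A → ∃ C : ℝ, 0 < C ∧ ∀ᶠ T : ℝ in atTop, ∀ τ, Mv (T / Real.log T ^ 2)
      (fun x => Real.exp (A * E T (τ + x))) (C * (T / Real.log T ^ 2))) ∧
    ∀ᶠ T : ℝ in atTop, ∀ u, ∃ l, 2 * a ≤ l ∧ l * (3 * k₀) ≤ Real.log T ∧
      qq φ a l u + Real.log T / l ≤ E T u := by
  let G : ℝ → ℝ → Set ℕ := fun T u => {k | k₀ ≤ k ∧ qq φ a (Real.log T / (3 * k)) u ≤ k}
  have ev : ∀ᶠ T : ℝ in atTop, ∃ K : ℕ, (∀ u, K ∈ G T u) ∧
      ∀ k : ℕ, 1 ≤ k → k ≤ K → 2 * a ≤ Real.log T / (3 * k) := by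
    filter_upwards [Real.tendsto_log_atTop.eventually_ge_atTop
      (6 * a * (k₀ + Real.exp (4 * a) + 3))] with T h1
    set L := Real.log T
    have e0 := Real.exp_pos (4 * a)
    have k0 : (0 : ℝ) ≤ k₀ := by positivity
    have b1 : k₀ + Real.exp (4 * a) + 3 ≤ L / (6 * a) := by
      rw [le_div_iff₀ (by positivity)]; linarith
    have b2 := Nat.lt_floor_add_one (L / (6 * a))
    have b3 := Nat.floor_le (show 0 ≤ L / (6 * a) by linarith)
    set K := ⌊L / (6 * a)⌋₊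
    have K0 : (0 : ℝ) < K := by linarith
    have L0 : 0 < L := by nlinarith
    refine ⟨K, fun u => ⟨by exact_mod_cast (by linarith : (k₀ : ℝ) ≤ K),
      (qq_triv hφ (by linarith) (by positivity) u).trans ?_⟩, fun k k1 k2 => ?_⟩
    · have : L / (3 * K) ≤ 4 * a := by
        rw [div_lt_iff₀ (by positivity)] at b2
        rw [div_le_iff₀ (by positivity)]; nlinarith
      linarith [Real.exp_le_exp.2 this]
    · have k3 : (k : ℝ) ≤ K := by exact_mod_cast k2
      have k4 : (1 : ℝ) ≤ k := by exact_mod_cast k1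
      rw [le_div_iff₀ (by positivity)] at b3 ⊢
      nlinarith
  refine ⟨fun T u => 4 * (sInf (G T u) : ℕ), fun A A0 => ?_, ?_⟩
  · obtain ⟨C, C1, hC⟩ := qq_mv hφ
    refine ⟨48 * (Real.exp (4 * A * k₀) + Real.exp (4 * A) * Real.exp (C * Real.exp (4 * A))),
      by positivity, ?_⟩
    filter_upwards [ev, big_T 2 (b := 2 / 3) (by norm_num) 1, eventually_gt_atTop 0,
      Real.tendsto_log_atTop.eventually_ge_atTop 3] with T ⟨K, h1, h2⟩ T1 T0 L1 τ
    set L := Real.log T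
    set H := T / L ^ 2
    have eT : Real.exp L = T := Real.exp_log T0
    have H1 : Real.exp (L / 3) ≤ H := by
      rw [le_div_iff₀ (by positivity), ← eT]
      refine (mul_le_mul_of_nonneg_left (one_mul (L ^ 2) ▸ T1) (Real.exp_pos _).le).trans ?_
      rw [← Real.exp_add]; exact le_of_eq (by ring_nf)
    have H2 : 2 ≤ H := by linarith [Real.add_one_le_exp (L / 3)]
    have m0 := (hC a (2 * a) H τ 0 a1 le_rfl H2 (by simp; linarith)).mul
      (Real.exp_pos (4 * A * k₀)).le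
    have m1 := Mv.sum (s := Ico k₀ K) fun j hj => (hC a (L / (3 * j)) H τ j a1
      (h2 j (k1.trans (mem_Ico.1 hj).1) (mem_Ico.1 hj).2.le) H2 (by
        have : (0 : ℝ) < j := Nat.cast_pos.2 (k1.trans (mem_Ico.1 hj).1)
        rw [← Real.exp_nat_mul]
        exact le_trans (le_of_eq (by congr 1; field_simp)) H1)).mul
      (c := Real.exp (4 * A * (j + 1)) / j ^ (2 * j)) (by positivity)
    refine (m0.add m1).mono (fun x => ?_) ?_
    · have s1 := Nat.sInf_mem ⟨K, h1 (τ + x)⟩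
      have s2 := Nat.sInf_le (h1 (τ + x))
      have nn : ∀ j ∈ Ico k₀ K, 0 ≤ Real.exp (4 * A * (j + 1)) / j ^ (2 * j) *
          qq φ a (L / (3 * j)) (τ + x) ^ (2 * j) := fun j _ => by
        rw [pow_mul _ 2, pow_mul (qq ..)]; positivity
      rcases eq_or_lt_of_le s1.1 with e | e
      · rw [← e]
        simp only [mul_zero, pow_zero, mul_one]
        exact le_add_of_le_of_nonneg (le_of_eq (by ring_nf)) (sum_nonneg nn)
      obtain ⟨j, hj⟩ : ∃ j, sInf (G T (τ + x)) = j + 1 :=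
        ⟨_, (Nat.succ_pred_eq_of_pos (by omega)).symm⟩
      have s3 := Nat.notMem_of_lt_sInf (s := G T (τ + x)) (m := j) (by omega)
      have s4 : (j : ℝ) ≤ qq φ a (L / (3 * j)) (τ + x) :=
        le_of_not_ge fun q => s3 ⟨by omega, q⟩
      have j0 : (0 : ℝ) < j := Nat.cast_pos.2 (by omega)
      refine le_add_of_nonneg_of_le (by simpa using (Real.exp_pos _).le) (le_trans ?_
        (single_le_sum nn (mem_Ico.2 ⟨show k₀ ≤ j by omega, by omega⟩)))
      rw [hj, div_mul_eq_mul_div, le_div_iff₀ (by positivity)]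
      push_cast
      exact mul_le_mul (le_of_eq (by ring_nf)) (pow_le_pow_left₀ j0.le s4 _) (by positivity)
        (by positivity)
    · have b : ∑ j ∈ Ico k₀ K, Real.exp (4 * A * (j + 1)) / j ^ (2 * j) * (48 * H * (j ^ j * C ^ j)) ≤
          ∑ j ∈ Ico k₀ K, 48 * H * Real.exp (4 * A) * ((C * Real.exp (4 * A)) ^ j / j.factorial) :=
        sum_le_sum fun j hj => by
          have j0 : (0 : ℝ) < j := Nat.cast_pos.2 (k1.trans (mem_Ico.1 hj).1)
          have f : (j.factorial : ℝ) ≤ j ^ j := by exact_mod_cast j.factorial_le_pow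
          refine le_trans (le_of_eq ?_) (mul_le_mul_of_nonneg_left (div_le_div_of_nonneg_left
            (by positivity) (by positivity) f) (by positivity))
          rw [mul_pow, ← Real.exp_nat_mul, mul_add, Real.exp_add, two_mul, pow_add]
          field_simp
      have d := (sum_le_sum_of_subset_of_nonneg (f := fun j =>
        (C * Real.exp (4 * A)) ^ j / j.factorial) (s := Ico k₀ K) (t := range K)
        (fun j hj => mem_range.2 (mem_Ico.1 hj).2) fun j _ _ => by positivity).trans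
        (Real.sum_le_exp_of_nonneg (by positivity) K)
      rw [← mul_sum] at b
      have := mul_le_mul_of_nonneg_left d (show 0 ≤ 48 * H * Real.exp (4 * A) by positivity)
      simp only [pow_zero]
      linarith
  · filter_upwards [ev, Real.tendsto_log_atTop.eventually_gt_atTop 0] with T ⟨K, h1, h2⟩ L0 u
    have s1 := Nat.sInf_mem ⟨K, h1 u⟩
    have s2 := Nat.sInf_le (h1 u)
    set k := sInf (G T u)
    have k2 : (k₀ : ℝ) ≤ k := by exact_mod_cast s1.1
    have k3 : (0 : ℝ) < k := Nat.cast_pos.2 (k1.trans s1.1)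
    refine ⟨Real.log T / (3 * k), h2 k (k1.trans s1.1) s2, ?_, ?_⟩
    · rw [div_mul_eq_mul_div, div_le_iff₀ (by positivity)]; gcongr
    · rw [div_div_cancel₀ L0.ne']; linarith [s1.2]

end

end Pool.Agent.MP_f0209c_nt.Pp
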